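import Mathlib
import Pool.Agent.Lib.MP_5bc52d_co.AA.Defs

/-!
# Typical posets for arbitrary labellings: the graph statements

In the first part the rows are a type `ι`, the columns a type `κ`, and a bipartite graph is a
function `f : ι → Finset κ`. In the second part the same properties are stated for a relation
between two finsets.
-/

namespace Pool.Agent.Lib.MP_5bc52d_co.TA

open Finset

section types
variable {ι κ : Type*} [Fintype ι] [DecidableEq ι] [Fintype κ] [DecidableEq κ]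

/-- the columns outside `D` which are adjacent to no row of `W` -/
def QQ (f : ι → Finset κ) (W : Finset ι) (D : Finset κ) : Finset κ :=
  univ.filter fun y => y ∉ D ∧ ∀ w ∈ W, y ∉ f w

/-- `F` rows in `R \ W` containing `Z`, whose numbers of neighbours in `QQ f W D` are attained by no
other row outside `W` -/
def UniqAt (f : ι → Finset κ) (F : ℕ) (W : Finset ι) (D : Finset κ) (R : Finset ι)
    (Z : Finset κ) : Prop :=
  ∃ S ⊆ R \ W, S.card = F ∧ (∀ b ∈ S, Z ⊆ f b) ∧
    ∀ b ∈ S, ∀ b' ∉ W, b' ≠ b → (QQ f W D ∩ f b').card ≠ (QQ f W D ∩ f b).card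

/-- two rows have a common neighbour outside `D` and the neighbourhoods of few rows; the union of two
neighbourhoods is at least as large as any neighbourhood; the rest is large -/
def PairAt (f : ι → Finset κ) (q : ℝ) (W : Finset ι) (D : Finset κ) : Prop :=
  (∀ b ∉ W, ∀ b' ∉ W, ∃ y ∈ QQ f W D, y ∈ f b ∧ y ∈ f b') ∧
  (∀ b ∉ W, ∀ b' ∉ W, ∀ b'' ∉ W, b ≠ b' →
    (QQ f W D ∩ f b'').card ≤ (QQ f W D ∩ (f b ∪ f b')).card) ∧
  q ≤ (QQ f W D).card

end types

open Classical in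
/-- almost all bipartite graphs have the property `PairAt` -/
def PairBound : Prop :=
  ∀ (δ ε : ℝ) (I : ℕ), 0 < δ → 0 < ε → ∃ N : ℕ, ∀ n ≥ N,
    ∀ (ι κ : Type) [Fintype ι] [Fintype κ] [DecidableEq ι] [DecidableEq κ],
      Fintype.card ι ≤ n → Fintype.card κ ≤ n → δ * n ≤ Fintype.card κ →
      ((univ.filter fun f : ι → Finset κ => ¬ ∀ (W : Finset ι) (D : Finset κ), W.card ≤ I →
        D.card ≤ 3 * Nat.log 2 n → PairAt f (δ / 2 ^ (I + 1) * n) W D).card : ℝ) ≤
        ε * (2 ^ Fintype.card κ) ^ Fintype.card ι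

open Classical in
/-- almost no bipartite graph has a large empty rectangle -/
def RectBound : Prop :=
  ∀ (ε : ℝ), 0 < ε → ∃ N : ℕ, ∀ n ≥ N,
    ∀ (ι κ : Type) [Fintype ι] [Fintype κ] [DecidableEq ι] [DecidableEq κ],
      Fintype.card ι ≤ n → Fintype.card κ ≤ n →
      ((univ.filter fun f : ι → Finset κ => ¬ ∀ (S : Finset ι) (D : Finset κ),
        3 * Nat.log 2 n < S.card → 3 * Nat.log 2 n < D.card → ∃ b ∈ S, ∃ y ∈ D, y ∈ f b).card : ℝ) ≤
        ε * (2 ^ Fintype.card κ) ^ Fintype.card ι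

open Classical in
/-- in almost all bipartite graphs any `K` rows have a common neighbour -/
def ComBound : Prop :=
  ∀ (δ ε : ℝ) (K : ℕ), 0 < δ → 0 < ε → ∃ N : ℕ, ∀ n ≥ N,
    ∀ (ι κ : Type) [Fintype ι] [Fintype κ] [DecidableEq ι] [DecidableEq κ],
      Fintype.card ι ≤ n → Fintype.card κ ≤ n → δ * n ≤ Fintype.card κ →
      ((univ.filter fun f : ι → Finset κ => ¬ ∀ S : Finset ι, S.card ≤ K →
        ∃ y, ∀ b ∈ S, y ∈ f b).card : ℝ) ≤ ε * (2 ^ Fintype.card κ) ^ Fintype.card ι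

open Classical in
/-- in almost all bipartite graphs there are rows with unique numbers of neighbours -/
def UniqBound : Prop :=
  ∀ (δ ε : ℝ) (I F : ℕ), 0 < δ → 0 < ε → ∃ N : ℕ, ∀ n ≥ N,
    ∀ (ι κ : Type) [Fintype ι] [Fintype κ] [DecidableEq ι] [DecidableEq κ],
      Fintype.card ι ≤ n → Fintype.card κ ≤ n →
      ∀ FR : Finset (Finset ι), FR.card ≤ n + 2 → (∀ R ∈ FR, δ * n ≤ R.card) →
      ((univ.filter fun f : ι → Finset κ => ¬ ∀ (W : Finset ι) (D : Finset κ), W.card ≤ I →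
        D.card ≤ 3 * Nat.log 2 n → δ * n ≤ (QQ f W D).card → ∀ R ∈ FR, ∀ Z ⊆ QQ f W D,
          Z.card ≤ Nat.log 2 n / 20 → UniqAt f F W D R Z).card : ℝ) ≤
        ε * (2 ^ Fintype.card κ) ^ Fintype.card ι

/-! ### The properties used in the proof -/

section rel
open Classical
variable {V : Type*}

/-- the elements of `Y` outside `D` which are adjacent to no element of `W` -/
noncomputable def QO (adj : V → V → Prop) (Y W D : Finset V) : Finset V :=
  Y.filter fun y => y ∉ D ∧ ∀ w ∈ W, ¬ adj w y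

/-- the properties of the bipartite graph `adj` between the rows `X` and the columns `Y` -/
structure BipOn (adj : V → V → Prop) (X Y : Finset V) (FR : Finset V → Prop)
    (I T z K F : ℕ) : Prop where
  /-- two rows have a common neighbour outside `D` and the neighbourhoods of few rows -/
  pair : ∀ W ⊆ X, ∀ D : Finset V, W.card ≤ I → D.card ≤ T → ∀ b ∈ X \ W, ∀ b' ∈ X \ W,
    ∃ y ∈ QO adj Y W D, adj b y ∧ adj b' y
  /-- the union of two neighbourhoods is at least as large as any neighbourhood -/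
  union : ∀ W ⊆ X, ∀ D : Finset V, W.card ≤ I → D.card ≤ T → ∀ b ∈ X \ W, ∀ b' ∈ X \ W,
    ∀ b'' ∈ X \ W, b ≠ b' → ((QO adj Y W D).filter fun y => adj b'' y).card ≤
      ((QO adj Y W D).filter fun y => adj b y ∨ adj b' y).card
  /-- no large empty rectangle -/
  rect : ∀ S ⊆ X, ∀ D ⊆ Y, T < S.card → T < D.card → ∃ b ∈ S, ∃ y ∈ D, adj b y
  /-- few rows have a common neighbour -/
  com : ∀ S ⊆ X, S.card ≤ K → ∃ y ∈ Y, ∀ b ∈ S, adj b y
  /-- rows with unique numbers of neighbours -/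
  uniq : ∀ W ⊆ X, ∀ D : Finset V, W.card ≤ I → D.card ≤ T → ∀ R, FR R →
    ∀ Z ⊆ QO adj Y W D, Z.card ≤ z → ∃ S ⊆ R \ W, S.card = F ∧ (∀ b ∈ S, ∀ y ∈ Z, adj b y) ∧
      ∀ b ∈ S, ∀ b' ∈ X \ W, b' ≠ b → ((QO adj Y W D).filter fun y => adj b' y).card ≠
        ((QO adj Y W D).filter fun y => adj b y).card

/-- the properties of a typical poset with layers `A`, `B`, `C`: between `B` and `C` (the
candidates are the neighbours of an element of `A`), between `B` and `A`, and between `A ∪ C` and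
`B` -/
structure Typ (lt : V → V → Prop) (A B C : Finset V) (I T z K F : ℕ) : Prop where
  up : BipOn lt B C (fun R => ∃ a ∈ A, R = B.filter fun b => lt a b) I T z K F
  down : BipOn (fun x y => lt y x) B A (fun R => ∃ c ∈ C, R = B.filter fun b => lt b c) I T z K F
  mid : BipOn (fun x y => lt x y ∨ lt y x) (A ∪ C) B (fun R => R = A ∨ R = C) I T z K F

end rel

open Classical in
/-- Almost all pairs of bipartite graphs are typical. -/
def TypBound : Prop :=
  ∀ (δ ε : ℝ) (I K F : ℕ), 0 < δ → 0 < ε → ∃ N : ℕ, ∀ n ≥ N, ∀ A B C : Finset (Fin n),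
    Disjoint A B → Disjoint B C → Disjoint A C →
    δ * n ≤ A.card → δ * n ≤ B.card → δ * n ≤ C.card →
    ((((A ×ˢ B).powerset ×ˢ (B ×ˢ C).powerset).filter
        fun E => ¬ Typ (AA.ltE A B C E) A B C I (3 * Nat.log 2 n) (Nat.log 2 n / 20) K F).card : ℝ) ≤
      ε * (2 ^ (A.card * B.card) * 2 ^ (B.card * C.card))

/-! ### The parts of the proof of `UniqBound` -/

/-- The tail of the binomial distribution of weight about `n ^ (-9/10)`: its point probabilities are
at most `n ^ (-5/4)`. -/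
def QuantLemma : Prop :=
  ∀ δ : ℝ, 0 < δ → ∃ N : ℕ, ∀ n ≥ N, ∀ r : ℕ, δ * n ≤ r → r ≤ n → ∃ v : ℕ,
    (n : ℝ) ^ (-(9 / 10) : ℝ) * 2 ^ r ≤ ∑ k ∈ Icc v r, (r.choose k : ℝ) ∧
    ∑ k ∈ Icc v r, (r.choose k : ℝ) ≤ 2 * (n : ℝ) ^ (-(9 / 10) : ℝ) * 2 ^ r ∧
    ∀ k, v ≤ k → (r.choose k : ℝ) ≤ (n : ℝ) ^ (-(5 / 4) : ℝ) * 2 ^ r

open Classical in
/-- Few functions `f`, fixed on `W`, have `3 k` rows with a value at least `v` which is the value of
another row. -/
def CollLemma : Prop :=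
  ∀ (ι β : Type) [Fintype ι] [Fintype β] (val : β → ℕ) (v k : ℕ) (ρ : ℝ), 0 ≤ ρ →
    ((univ.filter fun p : β × β => v ≤ val p.1 ∧ val p.1 = val p.2).card : ℝ) ≤
      ρ * (Fintype.card β : ℝ) ^ 2 → ∀ (W : Finset ι) (f₀ : ι → β),
    ((univ.filter fun f : ι → β => (∀ i ∈ W, f i = f₀ i) ∧
      3 * k ≤ (univ.filter fun b : ι => b ∉ W ∧ v ≤ val (f b) ∧
        ∃ b' ∉ W, b' ≠ b ∧ val (f b') = val (f b)).card).card : ℝ) ≤
      ((Fintype.card ι : ℝ) ^ 2 * ρ) ^ k * (Fintype.card β : ℝ) ^ (Fintype.card ι - W.card)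

open Classical in
/-- Few functions `f`, fixed on `W`, have fewer than `m` rows of `R` with values in `M`. -/
def ManyLemma : Prop :=
  ∀ (ι β : Type) [Fintype ι] [Fintype β] (M : Finset β) (m : ℕ) (q : ℝ), 0 ≤ q →
    q * Fintype.card β ≤ M.card → ∀ (W R : Finset ι) (f₀ : ι → β), Disjoint R W →
    ((univ.filter fun f : ι → β => (∀ i ∈ W, f i = f₀ i) ∧
      (R.filter fun b => f b ∈ M).card < m).card : ℝ) ≤
      Real.exp (m - q / 2 * R.card) * (Fintype.card β : ℝ) ^ (Fintype.card ι - W.card)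

end Pool.Agent.Lib.MP_5bc52d_co.TA
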