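import Mathlib
import Pool.Agent.Lib.MP_5bc52d_co.TA.Graph
import Pool.Agent.Lib.MP_5bc52d_co.LinTerm.OneSide
import Pool.Agent.Lib.MP_5bc52d_co.Key.S2

/-!
# Typical posets for arbitrary labellings: the statements of the deterministic part
-/

open Finset Polynomial

set_option linter.unusedSectionVars false

namespace Pool.Agent.Lib.MP_5bc52d_co.TA

open Pool.Agent.Lib.MP_5bc52d_co.Key Pool.Agent.Lib.MP_5bc52d_co.Cut

section comb
variable {P : Type*} [Fintype P] [DecidableEq P] [PartialOrder P]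

/-- the order relation (`true`) or its inverse (`false`) -/
def dr : Bool → P → P → Prop
  | true => fun x y => x < y
  | false => fun x y => y < x

/-- `F` is a part of `U` which is closed in the direction `d` -/
def Cl (d : Bool) (U F : Finset P) : Prop :=
  F ⊆ U ∧ ∀ x ∈ F, ∀ y ∈ U, dr d x y → y ∈ F

/-- `U` has a nonzero linear term -/
def Nz (ω : P → ℕ) (U : Finset P) : Prop :=
  ∃ (l : List (Bool × ℚ)) (c : Bool) (t : ℚ), Tree.lin ω l c t U ≠ 0

/-- `Φ U D` stands for: the generating function of `U` is a sum of products of two homogeneous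
elements, the degree of one of them in `D`. -/
structure Peeling (ω : P → ℕ) (Φ : Finset P → Finset ℕ → Prop) : Prop where
  bound : ∀ U D, Φ U D → ∀ a ∈ D, 0 < a ∧ a < U.card
  step : ∀ (d : Bool) (U F : Finset P) (D : Finset ℕ), Φ U D → Cl d U F → Nz ω F →
    (∀ F', Cl d U F' → LinTerm.Cnn F' → F'.card = F.card → F' = F) →
    (∀ a ∈ D, a ≠ F.card ∧ U.card - a ≠ F.card) →
    ∃ D' : Finset ℕ, D'.card ≤ 2 * D.card ∧ Φ (U \ F) D'
  stop : ∀ U D, Φ U D → ¬ Nz ω U

/-- `x` is a local minimum of the labels with sign `k` -/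
def Mn (ω : P → ℕ) (k : Bool) (U : Finset P) (x : P) : Prop :=
  ∀ y ∈ U, (x < y ∨ y < x) → Cut.wt ω k x < Cut.wt ω k y

/-- **D0.** A connected set without chains of three elements (`X` are the lower elements), all
local minima on one side. -/
def OneSide (ω : P → ℕ) : Prop :=
  ∀ (k : Bool) (U X : Finset P), (∀ x ∈ U, ∀ y ∈ U, x < y → x ∈ X ∧ y ∉ X) → LinTerm.Cnn U →
    ((∀ x ∈ U, Mn ω k U x → x ∈ X) ∨ (∀ x ∈ U, Mn ω k U x → x ∉ X)) → Nz ω U

/-- the conditions on the numbers -/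
structure Num (I T z K F : ℕ) : Prop where
  le : I ≤ T
  cov : T ≤ I * z
  four : 4 ≤ K
  forb : 2 ^ (I + 1) + 2 ≤ F

/-- **D1.** Rows of `R` with unique numbers of neighbours cover the columns in `Z`. -/
def Cover (ω : P → ℕ) (Φ : Finset P → Finset ℕ → Prop) : Prop :=
  ∀ (d : Bool) (adj : P → P → Prop) (X₀ Y₀ : Finset P) (FR : Finset P → Prop) (I T z K F : ℕ),
    Num I T z K F → BipOn adj X₀ Y₀ FR I T z K F →
    ∀ X D R : Finset P, X ⊆ X₀ → D.card ≤ T → Disjoint X Y₀ → R ⊆ X → FR R →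
      (∀ x ∈ X ∪ (Y₀ \ D), ∀ y ∈ X ∪ (Y₀ \ D), dr d x y ↔ x ∈ X ∧ y ∈ Y₀ ∧ adj x y) →
      ∀ Z ⊆ Y₀ \ D, Z.card ≤ I * z →
        (∀ W ⊆ R, W.card ≤ I → (∀ y ∈ Z, ∃ w ∈ W, adj w y) →
          Nz ω ((X \ W) ∪ QO adj Y₀ W D)) →
        ∀ a : ℕ, ¬ Φ (X ∪ (Y₀ \ D)) {a}

/-- the largest part of `U` closed downwards with all relations of kind `k` -/
noncomputable def Lo (ω : P → ℕ) (k : Bool) (U : Finset P) : Finset P :=
  AL (fun a b : P => a < b) (Cut.wt ω k) U

/-- the largest part of `U` closed upwards with all relations of kind `k` -/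
noncomputable def Hi (ω : P → ℕ) (k : Bool) (U : Finset P) : Finset P :=
  AL (fun a b : P => b < a) (Cut.wt ω (!k)) U

end comb

section alg
variable {Q : Subring R} (hQ : ∀ F : R, F ∈ Q ↔ IsQS F)

/-- **P.** The peeling lemmas for a labelled poset. -/
def Peels : Prop :=
  ∀ (V : Type) [Fintype V] [DecidableEq V] [PartialOrder V] (ω : V → ℕ), Function.Injective ω →
    ∃ Φ : Finset V → Finset ℕ → Prop, Peeling ω Φ ∧
      ∀ U : Finset V, U.Nonempty → ¬ Irreducible (GamQ hQ ω U) → ∃ a : ℕ, Φ U {a}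

/-- **D2.** A typical poset with an empty corner `(k, k)`. -/
def Case1 : Prop :=
  ∀ (V : Type) [Fintype V] [DecidableEq V] [PartialOrder V] (ω : V → ℕ), Function.Injective ω →
    ∀ (A B C : Finset V) (I T z K F : ℕ), Num I T z K F → A.Nonempty → C.Nonempty →
    AA.Lay A B C → Typ (fun x y : V => x < y) A B C I T z K F →
    ∀ k : Bool, Disjoint (Lo ω k univ) (Hi ω k univ) → Irreducible (GamQ hQ ω (univ : Finset V))

/-- **D4.** The certificate in the second case. -/
def CertB : Prop :=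
  ∀ (V : Type) [Fintype V] [DecidableEq V] [PartialOrder V] (ω : V → ℕ), Function.Injective ω →
    ∀ (A B C : Finset V) (I T z K F : ℕ), Num I T z K F → A.Nonempty → C.Nonempty →
    AA.Lay A B C → Typ (fun x y : V => x < y) A B C I T z K F →
    ∀ (k : Bool) (x b : V), (x ∈ A ∧ x ∈ Hi ω k univ) ∨ (x ∈ C ∧ x ∈ Lo ω k univ) →
      b ∈ B → b ∈ Lo ω (!k) univ → b ∈ Hi ω (!k) univ →
      ∀ y : V, ∃ c, (lo hQ c (GamQ hQ ω (univ : Finset V))).eval (-(sg Q c * GamQ hQ ω {y})) ≠ 0 ∨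
        (hi hQ c (GamQ hQ ω (univ : Finset V))).eval (-(sg Q c * GamQ hQ ω {y})) ≠ 0

/-- **D3.** A typical poset with nonempty corners, one of them in the outer layers. -/
def Case2 : Prop :=
  ∀ (V : Type) [Fintype V] [DecidableEq V] [PartialOrder V] (ω : V → ℕ), Function.Injective ω →
    ∀ (A B C : Finset V) (I T z K F : ℕ), Num I T z K F → A.Nonempty → C.Nonempty →
    AA.Lay A B C → Typ (fun x y : V => x < y) A B C I T z K F →
    ∀ (k : Bool) (x b : V), (x ∈ A ∧ x ∈ Hi ω k univ) ∨ (x ∈ C ∧ x ∈ Lo ω k univ) →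
      b ∈ B → b ∈ Lo ω (!k) univ → b ∈ Hi ω (!k) univ →
      Irreducible (GamQ hQ ω (univ : Finset V))

/-- **D5.** Typical posets have irreducible generating functions for all labels. -/
def DetAll : Prop :=
  ∀ (V : Type) [Fintype V] [DecidableEq V] [PartialOrder V] (ω : V → ℕ), Function.Injective ω →
    ∀ (A B C : Finset V) (I T z K F : ℕ), Num I T z K F → A.Nonempty → C.Nonempty →
    AA.Lay A B C → Typ (fun x y : V => x < y) A B C I T z K F →
    Irreducible (GamQ hQ ω (univ : Finset V))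

end alg

end Pool.Agent.Lib.MP_5bc52d_co.TA
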