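import Mathlib
import Pool.Agent.Lib.MP_5bc52d_co.TA.Skel
import Pool.Agent.Lib.MP_5bc52d_co.Cut.Base

/-!
# Typical posets with an empty corner
-/

open Finset Polynomial

set_option linter.unusedSectionVars false

namespace Pool.Agent.Lib.MP_5bc52d_co.TA

open Pool.Agent.Lib.MP_5bc52d_co.Key Pool.Agent.Lib.MP_5bc52d_co.Cut

namespace C1

section comb
variable {P : Type*} [Fintype P] [DecidableEq P] [PartialOrder P]

/-- two elements of `X` have a common neighbour in `Y` and each element of `Y` has a neighbour in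
`X` -/
theorem cnn_union {X Y : Finset P} (hX : X.Nonempty)
    (h1 : ∀ b ∈ X, ∀ b' ∈ X, ∃ y ∈ Y, (b < y ∨ y < b) ∧ (b' < y ∨ y < b'))
    (h2 : ∀ y ∈ Y, ∃ b ∈ X, b < y ∨ y < b) : LinTerm.Cnn (X ∪ Y) := by
  have key : ∀ S T : Finset P, S ∪ T = X ∪ Y → Disjoint S T →
      (∀ a ∈ S, ∀ b ∈ T, ¬ a < b ∧ ¬ b < a) → ∀ b ∈ X, b ∈ S → ∀ x ∈ X ∪ Y, x ∈ S := by
    intro S T hST hd hno b hbX hbS
    have hX' : ∀ x ∈ X, x ∈ S := by
      intro x hx
      obtain ⟨y, hy, hby, hxy⟩ := h1 b hbX x hx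
      have hy' : y ∈ S ∪ T := hST ▸ Finset.mem_union_right _ hy
      have hyS : y ∈ S := by
        rcases Finset.mem_union.mp hy' with h | h
        · exact h
        · exact absurd hby (by have := hno b hbS y h; tauto)
      have hx' : x ∈ S ∪ T := hST ▸ Finset.mem_union_left _ hx
      rcases Finset.mem_union.mp hx' with h | h
      · exact h
      · exact absurd hxy (by have := hno y hyS x h; tauto)
    intro x hx
    rcases Finset.mem_union.mp hx with h | h
    · exact hX' x h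
    · obtain ⟨b', hb', hbx⟩ := h2 x h
      have hx' : x ∈ S ∪ T := hST ▸ hx
      rcases Finset.mem_union.mp hx' with h' | h'
      · exact h'
      · exact absurd hbx (by have := hno b' (hX' b' hb') x h'; tauto)
  refine ⟨hX.mono Finset.subset_union_left, fun S T hST hS hT hd hno => ?_⟩
  obtain ⟨b, hb⟩ := hX
  have hb' : b ∈ S ∪ T := hST ▸ Finset.mem_union_left _ hb
  rcases Finset.mem_union.mp hb' with h | h
  · obtain ⟨t, ht⟩ := hT
    have h3 := key S T hST hd hno b hb h t (hST ▸ Finset.mem_union_right _ ht)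
    exact Finset.disjoint_left.mp hd h3 ht
  · obtain ⟨t, ht⟩ := hS
    have h3 := key T S (by rw [Finset.union_comm]; exact hST) hd.symm
      (fun a ha c hc => (hno c hc a ha).symm) b hb h t (hST ▸ Finset.mem_union_left _ ht)
    exact Finset.disjoint_left.mp hd ht h3

theorem mem_Lo {ω : P → ℕ} {k : Bool} {x : P} : x ∈ Lo ω k univ ↔
    ∀ a b : P, a < b → (b = x ∨ b < x) → Cut.wt ω k a < Cut.wt ω k b := by
  rw [Lo, mem_AL]
  constructor
  · intro h a b hab hb
    exact h.2 a (Finset.mem_univ _) b (Finset.mem_univ _) hab hb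
  · intro h
    exact ⟨Finset.mem_univ _, fun a _ b _ hab hb => h a b hab hb⟩

theorem wt_neg {ω : P → ℕ} {k : Bool} {x y : P} :
    Cut.wt ω (!k) x < Cut.wt ω (!k) y ↔ Cut.wt ω k y < Cut.wt ω k x := by
  rw [wt_not, Pi.neg_apply, Pi.neg_apply, neg_lt_neg_iff]

theorem mem_Hi {ω : P → ℕ} {k : Bool} {x : P} : x ∈ Hi ω k univ ↔
    ∀ a b : P, b < a → (b = x ∨ x < b) → Cut.wt ω k b < Cut.wt ω k a := by
  rw [Hi, mem_AL]
  constructor
  · intro h a b hab hb
    exact wt_neg.mp (h.2 a (Finset.mem_univ _) b (Finset.mem_univ _) hab hb)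
  · intro h
    exact ⟨Finset.mem_univ _, fun a _ b _ hab hb => wt_neg.mpr (h a b hab hb)⟩

variable {A B C : Finset P} (hL : AA.Lay A B C)
include hL

theorem minA {a y : P} (ha : a ∈ A) : ¬ y < a := by
  intro hy
  rcases hL.rel y a hy with h | h | h
  · exact Finset.disjoint_left.mp hL.dAB ha h.2
  · exact Finset.disjoint_left.mp hL.dAC ha h.2
  · exact Finset.disjoint_left.mp hL.dAC ha h.2

theorem maxC {c y : P} (hc : c ∈ C) : ¬ c < y := by
  intro hy
  rcases hL.rel c y hy with h | h | h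
  · exact Finset.disjoint_left.mp hL.dAC h.1 hc
  · exact Finset.disjoint_left.mp hL.dBC h.1 hc
  · exact Finset.disjoint_left.mp hL.dAC h.1 hc

theorem below {b y : P} (hb : b ∈ B) (h : y < b) : y ∈ A := by
  rcases hL.rel y b h with h | h | h
  · exact h.1
  · exact absurd h.2 (Finset.disjoint_left.mp hL.dBC hb)
  · exact h.1

theorem above {b y : P} (hb : b ∈ B) (h : b < y) : y ∈ C := by
  rcases hL.rel b y h with h | h | h
  · exact absurd hb (Finset.disjoint_left.mp hL.dAB h.1)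
  · exact h.2
  · exact h.2

theorem A_Lo {ω : P → ℕ} {k : Bool} {a : P} (ha : a ∈ A) : a ∈ Lo ω k univ := by
  refine mem_Lo.mpr fun x y hxy h => ?_
  rcases h with h | h
  · exact absurd (h ▸ hxy) (minA hL ha)
  · exact absurd h (minA hL ha)

theorem C_Hi {ω : P → ℕ} {k : Bool} {c : P} (hc : c ∈ C) : c ∈ Hi ω k univ := by
  refine mem_Hi.mpr fun x y hxy h => ?_
  rcases h with h | h
  · exact absurd (h ▸ hxy) (maxC hL hc)
  · exact absurd h (maxC hL hc)

theorem B_Lo {ω : P → ℕ} {k : Bool} {b : P} (hb : b ∈ B) : b ∈ Lo ω k univ ↔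
    ∀ a ∈ A, a < b → Cut.wt ω k a < Cut.wt ω k b := by
  rw [mem_Lo]
  constructor
  · exact fun h a _ hab => h a b hab (Or.inl rfl)
  · intro h x y hxy hy
    rcases hy with hy | hy
    · subst hy
      exact h x (below hL hb hxy) hxy
    · exact absurd hxy (minA hL (below hL hb hy))

theorem B_Hi {ω : P → ℕ} {k : Bool} {b : P} (hb : b ∈ B) : b ∈ Hi ω k univ ↔
    ∀ c ∈ C, b < c → Cut.wt ω k b < Cut.wt ω k c := by
  rw [mem_Hi]
  constructor
  · exact fun h c _ hbc => h c b hbc (Or.inl rfl)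
  · intro h x y hxy hy
    rcases hy with hy | hy
    · subst hy
      exact h x (above hL hb hxy) hxy
    · exact absurd hxy (maxC hL (above hL hb hy))

theorem univ_Lo {ω : P → ℕ} {k : Bool} (hd : Disjoint (Lo ω k univ) (Hi ω k univ)) :
    univ \ Lo ω k univ = (B \ Lo ω k univ) ∪ C := by
  ext x
  rw [Finset.mem_sdiff, Finset.mem_union, Finset.mem_sdiff]
  constructor
  · rintro ⟨-, hx⟩
    rcases hL.cover x with h | h | h
    · exact absurd (A_Lo hL h) hx
    · exact Or.inl ⟨h, hx⟩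
    · exact Or.inr h
  · rintro (h | h)
    · exact ⟨Finset.mem_univ _, h.2⟩
    · exact ⟨Finset.mem_univ _, fun h' => Finset.disjoint_left.mp hd h' (C_Hi hL h)⟩

theorem univ_Hi {ω : P → ℕ} {k : Bool} (hd : Disjoint (Lo ω k univ) (Hi ω k univ)) :
    univ \ Hi ω k univ = (B \ Hi ω k univ) ∪ A := by
  ext x
  rw [Finset.mem_sdiff, Finset.mem_union, Finset.mem_sdiff]
  constructor
  · rintro ⟨-, hx⟩
    rcases hL.cover x with h | h | h
    · exact Or.inr h
    · exact Or.inl ⟨h, hx⟩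
    · exact absurd (C_Hi hL h) hx
  · rintro (h | h)
    · exact ⟨Finset.mem_univ _, h.2⟩
    · exact ⟨Finset.mem_univ _, fun h' => Finset.disjoint_left.mp hd (A_Lo hL h) h'⟩

end comb

section graph
open Classical
variable {P : Type*}

theorem mem_QO {adj : P → P → Prop} {Y W D : Finset P} {y : P} :
    y ∈ QO adj Y W D ↔ y ∈ Y ∧ y ∉ D ∧ ∀ w ∈ W, ¬ adj w y := by
  rw [QO, Finset.mem_filter]

theorem sub_union {A C : Finset P} : C ⊆ A ∪ C := Finset.subset_union_right

theorem FR_up {lt : P → P → Prop} {A B : Finset P} {a : P} (ha : a ∈ A) :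
    ∃ R : Finset P, (∃ a ∈ A, R = B.filter fun b => lt a b) ∧ ∀ b, b ∈ R ↔ b ∈ B ∧ lt a b :=
  ⟨B.filter fun b => lt a b, ⟨a, ha, rfl⟩, fun b => by rw [Finset.mem_filter]⟩

variable {adj : P → P → Prop} {X Y : Finset P} {FR : Finset P → Prop} {I T z K F : ℕ}

theorem bip_pair (hB : BipOn adj X Y FR I T z K F) {W D : Finset P} (hW : W ⊆ X)
    (h1 : W.card ≤ I) (h2 : D.card ≤ T) {b b' : P} (hb : b ∈ X) (hbW : b ∉ W) (hb' : b' ∈ X)
    (hbW' : b' ∉ W) : ∃ y ∈ QO adj Y W D, adj b y ∧ adj b' y :=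
  hB.pair W hW D h1 h2 b (Finset.mem_sdiff.mpr ⟨hb, hbW⟩) b' (Finset.mem_sdiff.mpr ⟨hb', hbW'⟩)

theorem bip_ne (hB : BipOn adj X Y FR I T z K F) {W D R : Finset P} (hW : W ⊆ X)
    (h1 : W.card ≤ I) (h2 : D.card ≤ T) (hR : FR R) (hF : 0 < F) : ∃ x ∈ R, x ∉ W := by
  obtain ⟨S, hS, hc, -⟩ := hB.uniq W hW D h1 h2 R hR ∅ (Finset.empty_subset _) (Nat.zero_le _)
  obtain ⟨x, hx⟩ := Finset.card_pos.mp (hc ▸ hF)
  exact ⟨x, (Finset.mem_sdiff.mp (hS hx)).1, (Finset.mem_sdiff.mp (hS hx)).2⟩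

end graph

section nz
variable {P : Type*} [Fintype P] [DecidableEq P] [PartialOrder P]

theorem QO_empty {adj : P → P → Prop} {Y : Finset P} : QO adj Y ∅ ∅ = Y := by
  ext y
  rw [mem_QO]
  simp

variable {A B C : Finset P} (hL : AA.Lay A B C) {ω : P → ℕ} (hω : Function.Injective ω)
  (h1 : OneSide ω) {FR : Finset P → Prop} {I T z K F : ℕ} {k : Bool}

open Classical in
/-- the elements of `C` which are local minima of `X ∪ C` -/
noncomputable def C0 (ω : P → ℕ) (k : Bool) (C X : Finset P) : Finset P :=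
  C.filter fun c => ∀ b ∈ X, b < c → Cut.wt ω k c < Cut.wt ω k b

theorem mem_C0 {X : Finset P} {c : P} : c ∈ C0 ω k C X ↔ c ∈ C ∧
    ∀ b ∈ X, b < c → Cut.wt ω k c < Cut.wt ω k b := by
  classical
  rw [C0, Finset.mem_filter]

open Classical in
/-- the elements of `A` which are local maxima of `A ∪ X` -/
noncomputable def A0 (ω : P → ℕ) (k : Bool) (A X : Finset P) : Finset P :=
  A.filter fun a => ∀ b ∈ X, a < b → Cut.wt ω k b < Cut.wt ω k a

theorem mem_A0 {X : Finset P} {a : P} : a ∈ A0 ω k A X ↔ a ∈ A ∧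
    ∀ b ∈ X, a < b → Cut.wt ω k b < Cut.wt ω k a := by
  classical
  rw [A0, Finset.mem_filter]

variable (k)
include hL hω h1

theorem nz_up (hB : BipOn (fun x y : P => x < y) B C FR I T z K F)
    {X W : Finset P} (hX : X ⊆ B) (hW : W ⊆ X) (hWc : W.card ≤ I) (hne : (X \ W).Nonempty)
    (hcov : ∀ y ∈ C0 ω k C X, ∃ w ∈ W, w < y) :
    Nz ω ((X \ W) ∪ QO (fun x y : P => x < y) C W ∅) := by
  have key : ∀ y ∈ QO (fun x y : P => x < y) C W ∅, ∃ b ∈ X \ W, b < y ∧
      ¬ Cut.wt ω k y < Cut.wt ω k b := by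
    intro y hy
    obtain ⟨hyC, -, hyW⟩ := mem_QO.mp hy
    have hy0 : y ∉ C0 ω k C X := by
      intro h
      obtain ⟨w, hw, hwy⟩ := hcov y h
      exact hyW w hw hwy
    rw [mem_C0] at hy0
    push Not at hy0
    obtain ⟨b, hbX, hby, hb⟩ := hy0 hyC
    exact ⟨b, Finset.mem_sdiff.mpr ⟨hbX, fun h => hyW b h hby⟩, hby, not_lt.mpr hb⟩
  have hrel : ∀ x ∈ (X \ W) ∪ QO (fun x y : P => x < y) C W ∅,
      ∀ y ∈ (X \ W) ∪ QO (fun x y : P => x < y) C W ∅, x < y → x ∈ B ∧ y ∉ B := by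
    intro x hx y hy hxy
    have hxB : x ∈ B := by
      rcases Finset.mem_union.mp hx with h | h
      · exact hX (Finset.mem_sdiff.mp h).1
      · exact absurd hxy (maxC hL (mem_QO.mp h).1)
    exact ⟨hxB, fun h => Finset.disjoint_left.mp hL.dBC h (above hL hxB hxy)⟩
  refine h1 k _ B hrel ?_ (Or.inl ?_)
  · apply cnn_union hne
    · intro b hb b' hb'
      rw [Finset.mem_sdiff] at hb hb'
      obtain ⟨y, hy, hby, hby'⟩ := bip_pair hB (hW.trans hX) (D := ∅) hWc (by simp)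
        (hX hb.1) hb.2 (hX hb'.1) hb'.2
      exact ⟨y, hy, Or.inl hby, Or.inl hby'⟩
    · intro y hy
      obtain ⟨b, hb, hby, -⟩ := key y hy
      exact ⟨b, hb, Or.inl hby⟩
  · intro x hx hmin
    rcases Finset.mem_union.mp hx with h | h
    · exact hX (Finset.mem_sdiff.mp h).1
    · obtain ⟨b, hb, hbx, hb'⟩ := key x h
      exact absurd (hmin b (Finset.mem_union_left _ hb) (Or.inr hbx)) hb'

theorem nz_down (hB : BipOn (fun x y : P => y < x) B A FR I T z K F)
    {X W : Finset P} (hX : X ⊆ B) (hW : W ⊆ X) (hWc : W.card ≤ I) (hne : (X \ W).Nonempty)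
    (hcov : ∀ y ∈ A0 ω k A X, ∃ w ∈ W, y < w) :
    Nz ω ((X \ W) ∪ QO (fun x y : P => y < x) A W ∅) := by
  have key : ∀ y ∈ QO (fun x y : P => y < x) A W ∅, ∃ b ∈ X \ W, y < b ∧
      ¬ Cut.wt ω k b < Cut.wt ω k y := by
    intro y hy
    obtain ⟨hyA, -, hyW⟩ := mem_QO.mp hy
    have hy0 : y ∉ A0 ω k A X := by
      intro h
      obtain ⟨w, hw, hwy⟩ := hcov y h
      exact hyW w hw hwy
    rw [mem_A0] at hy0
    push Not at hy0
    obtain ⟨b, hbX, hby, hb⟩ := hy0 hyA
    exact ⟨b, Finset.mem_sdiff.mpr ⟨hbX, fun h => hyW b h hby⟩, hby, not_lt.mpr hb⟩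
  have hrel : ∀ x ∈ (X \ W) ∪ QO (fun x y : P => y < x) A W ∅,
      ∀ y ∈ (X \ W) ∪ QO (fun x y : P => y < x) A W ∅, x < y → x ∈ A ∧ y ∉ A := by
    intro x hx y hy hxy
    have hyB : y ∈ B := by
      rcases Finset.mem_union.mp hy with h | h
      · exact hX (Finset.mem_sdiff.mp h).1
      · exact absurd hxy (minA hL (mem_QO.mp h).1)
    exact ⟨below hL hyB hxy, fun h => Finset.disjoint_left.mp hL.dAB h hyB⟩
  refine h1 (!k) _ A hrel ?_ (Or.inr ?_)
  · apply cnn_union hne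
    · intro b hb b' hb'
      rw [Finset.mem_sdiff] at hb hb'
      obtain ⟨y, hy, hby, hby'⟩ := bip_pair hB (hW.trans hX) (D := ∅) hWc (by simp)
        (hX hb.1) hb.2 (hX hb'.1) hb'.2
      exact ⟨y, hy, Or.inr hby, Or.inr hby'⟩
    · intro y hy
      obtain ⟨b, hb, hby, -⟩ := key y hy
      exact ⟨b, hb, Or.inr hby⟩
  · intro x hx hmin hxA
    rcases Finset.mem_union.mp hx with h | h
    · exact Finset.disjoint_left.mp hL.dAB hxA (hX (Finset.mem_sdiff.mp h).1)
    · obtain ⟨b, hb, hbx, hb'⟩ := key x h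
      exact absurd (wt_neg.mp (hmin b (Finset.mem_union_left _ hb) (Or.inl hbx))) hb'

theorem nz_mid {X₀ : Finset P} (hX₀ : C ⊆ X₀)
    (hB : BipOn (fun x y : P => x < y ∨ y < x) X₀ B FR I T z K F) {D W : Finset P}
    (hD : D.card ≤ T) (hW : W ⊆ C) (hWc : W.card ≤ I) (hne : (C \ W).Nonempty)
    (hcov : ∀ y ∈ B ∩ Hi ω k univ, ∃ w ∈ W, (w < y ∨ y < w)) :
    Nz ω ((C \ W) ∪ QO (fun x y : P => x < y ∨ y < x) B W D) := by
  have key : ∀ y ∈ QO (fun x y : P => x < y ∨ y < x) B W D, ∃ c ∈ C \ W, y < c ∧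
      ¬ Cut.wt ω k y < Cut.wt ω k c := by
    intro y hy
    obtain ⟨hyB, -, hyW⟩ := mem_QO.mp hy
    have hy0 : y ∉ Hi ω k univ := by
      intro h
      obtain ⟨w, hw, hwy⟩ := hcov y (Finset.mem_inter.mpr ⟨hyB, h⟩)
      exact hyW w hw hwy
    rw [B_Hi hL hyB] at hy0
    push Not at hy0
    obtain ⟨c, hcC, hyc, hc⟩ := hy0
    exact ⟨c, Finset.mem_sdiff.mpr ⟨hcC, fun h => hyW c h (Or.inr hyc)⟩, hyc, not_lt.mpr hc⟩
  have hrel : ∀ x ∈ (C \ W) ∪ QO (fun x y : P => x < y ∨ y < x) B W D,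
      ∀ y ∈ (C \ W) ∪ QO (fun x y : P => x < y ∨ y < x) B W D, x < y → x ∈ B ∧ y ∉ B := by
    intro x hx y hy hxy
    have hxB : x ∈ B := by
      rcases Finset.mem_union.mp hx with h | h
      · exact absurd hxy (maxC hL (Finset.mem_sdiff.mp h).1)
      · exact (mem_QO.mp h).1
    exact ⟨hxB, fun h => Finset.disjoint_left.mp hL.dBC h (above hL hxB hxy)⟩
  refine h1 k _ B hrel ?_ (Or.inr ?_)
  · apply cnn_union hne
    · intro b hb b' hb'
      rw [Finset.mem_sdiff] at hb hb'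
      obtain ⟨y, hy, hby, hby'⟩ := bip_pair hB (hW.trans hX₀) (D := D) hWc hD
        (hX₀ hb.1) hb.2 (hX₀ hb'.1) hb'.2
      exact ⟨y, hy, hby, hby'⟩
    · intro y hy
      obtain ⟨b, hb, hby, -⟩ := key y hy
      exact ⟨b, hb, Or.inr hby⟩
  · intro x hx hmin hxB
    rcases Finset.mem_union.mp hx with h | h
    · exact Finset.disjoint_left.mp hL.dBC hxB (Finset.mem_sdiff.mp h).1
    · obtain ⟨c, hc, hxc, hc'⟩ := key x h
      exact absurd (hmin c (Finset.mem_union_left _ hc) (Or.inl hxc)) hc'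

end nz

end C1

section main
variable {Q : Subring R} (hQ : ∀ F : R, F ∈ Q ↔ IsQS F)
include hQ

open C1 in
/-- **A typical poset with an empty corner is irreducible.** -/
theorem case1 (hP : Peels hQ)
    (h1 : ∀ (V : Type) [Fintype V] [DecidableEq V] [PartialOrder V] (ω : V → ℕ),
      Function.Injective ω → OneSide ω)
    (hC : ∀ (V : Type) [Fintype V] [DecidableEq V] [PartialOrder V] (ω : V → ℕ),
      Function.Injective ω → ∀ Φ : Finset V → Finset ℕ → Prop, Peeling ω Φ → Cover ω Φ) :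
    Case1 hQ := by
  intro V _ _ _ ω hω A B C I T z K F hN hA hCne hL hT k hd
  by_contra hirr
  obtain ⟨Φ, hΦ, hst⟩ := hP V ω hω
  have hcov := hC V ω hω Φ hΦ
  have h1 := h1 V ω hω
  have hF : 0 < F := lt_of_lt_of_le (Nat.succ_pos _) hN.forb
  have hU1 : ¬ Irreducible (GamQ hQ ω ((B \ Lo ω k univ) ∪ C)) := by
    intro h
    apply hirr
    apply rule_low hQ hω Finset.univ k k hd
    change Irreducible (GamQ hQ ω (univ \ Lo ω k univ))
    rw [univ_Lo hL hd]
    exact h
  have hU2 : ¬ Irreducible (GamQ hQ ω ((B \ Hi ω k univ) ∪ A)) := by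
    intro h
    apply hirr
    apply rule_high hQ hω Finset.univ k k hd
    change Irreducible (GamQ hQ ω (univ \ Hi ω k univ))
    rw [univ_Hi hL hd]
    exact h
  obtain ⟨n1, hn1⟩ := hst _ (hCne.mono Finset.subset_union_right) hU1
  obtain ⟨n2, hn2⟩ := hst _ (hA.mono Finset.subset_union_right) hU2
  set X1 := B \ Lo ω k univ with hX1
  set X2 := B \ Hi ω k univ with hX2
  have hX1B : X1 ⊆ B := Finset.sdiff_subset
  have hX2B : X2 ⊆ B := Finset.sdiff_subset
  have hQC : QO (fun x y : V => x < y) C ∅ ∅ = C := QO_empty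
  have hQA : QO (fun x y : V => y < x) A ∅ ∅ = A := QO_empty
  -- no local minima in the upper layer, no local maxima in the lower layer
  have hC0 : (C0 ω k C X1).Nonempty := by
    by_contra hne
    rw [Finset.not_nonempty_iff_eq_empty] at hne
    have hX : X1.Nonempty := by
      obtain ⟨c, hc⟩ := hCne
      have hc0 : c ∉ C0 ω k C X1 := by
        rw [hne]
        exact Finset.notMem_empty _
      rw [mem_C0] at hc0
      push Not at hc0
      obtain ⟨b, hb, -⟩ := hc0 hc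
      exact ⟨b, hb⟩
    have h2 := nz_up hL hω h1 k hT.up hX1B (Finset.empty_subset _) (W := ∅) (by simp)
      (by rw [Finset.sdiff_empty]; exact hX) (by rw [hne]; simp)
    rw [hQC, Finset.sdiff_empty] at h2
    exact hΦ.stop _ _ hn1 h2
  have hA0 : (A0 ω k A X2).Nonempty := by
    by_contra hne
    rw [Finset.not_nonempty_iff_eq_empty] at hne
    have hX : X2.Nonempty := by
      obtain ⟨c, hc⟩ := hA
      have hc0 : c ∉ A0 ω k A X2 := by
        rw [hne]
        exact Finset.notMem_empty _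
      rw [mem_A0] at hc0
      push Not at hc0
      obtain ⟨b, hb, -⟩ := hc0 hc
      exact ⟨b, hb⟩
    have h2 := nz_down hL hω h1 k hT.down hX2B (Finset.empty_subset _) (W := ∅) (by simp)
      (by rw [Finset.sdiff_empty]; exact hX) (by rw [hne]; simp)
    rw [hQA, Finset.sdiff_empty] at h2
    exact hΦ.stop _ _ hn2 h2
  obtain ⟨c0, hc0⟩ := hC0
  obtain ⟨a0, ha0⟩ := hA0
  obtain ⟨hc0C, hc0m⟩ := mem_C0.mp hc0
  obtain ⟨ha0A, ha0m⟩ := mem_A0.mp ha0
  have hcor : ∀ b, b ∈ Lo ω k univ → b ∈ Hi ω k univ → False :=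
    fun b hb hb' => Finset.disjoint_left.mp hd hb hb'
  have hCc : T < (C0 ω k C X1).card := by
    by_contra hle
    rw [not_lt] at hle
    obtain ⟨R, hR, hRm⟩ := FR_up (lt := fun x y : V => x < y) (B := B) ha0A
    have hRX : R ⊆ X1 := by
      intro b hb
      obtain ⟨hbB, hab⟩ := (hRm b).mp hb
      refine Finset.mem_sdiff.mpr ⟨hbB, fun hbL => ?_⟩
      have h2 := (B_Lo hL hbB).mp hbL a0 ha0A hab
      have h3 : b ∉ X2 := fun h => absurd (ha0m b h hab) (not_lt.mpr h2.le)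
      rw [hX2, Finset.mem_sdiff, not_and, not_not] at h3
      exact hcor b hbL (h3 hbB)
    refine hcov true (fun x y => x < y) B C _ I T z K F hN hT.up X1 ∅ R hX1B (by simp)
      (Finset.disjoint_of_subset_left hX1B hL.dBC) hRX hR ?_ (C0 ω k C X1) ?_
      (hle.trans hN.cov) ?_ n1 ?_
    · intro x hx y hy
      rw [Finset.sdiff_empty] at hx hy
      constructor
      · intro hxy
        have hxX : x ∈ X1 := by
          rcases Finset.mem_union.mp hx with h | h
          · exact h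
          · exact absurd hxy (maxC hL h)
        exact ⟨hxX, above hL (hX1B hxX) hxy, hxy⟩
      · exact fun h => h.2.2
    · intro y hy
      rw [Finset.sdiff_empty]
      exact (mem_C0.mp hy).1
    · intro W hW hWc hWcov
      obtain ⟨x, hxR, hxW⟩ := bip_ne hT.up ((hW.trans hRX).trans hX1B) hWc (D := ∅) (by simp)
        hR hF
      exact nz_up hL hω h1 k hT.up hX1B (hW.trans hRX) hWc
        ⟨x, Finset.mem_sdiff.mpr ⟨hRX hxR, hxW⟩⟩ hWcov
    · rw [Finset.sdiff_empty]
      exact hn1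
  have hAc : T < (A0 ω k A X2).card := by
    by_contra hle
    rw [not_lt] at hle
    obtain ⟨R, hR, hRm⟩ := FR_up (lt := fun x y : V => y < x) (B := B) hc0C
    have hRX : R ⊆ X2 := by
      intro b hb
      obtain ⟨hbB, hbc⟩ := (hRm b).mp hb
      refine Finset.mem_sdiff.mpr ⟨hbB, fun hbH => ?_⟩
      have h2 := (B_Hi hL hbB).mp hbH c0 hc0C hbc
      have h3 : b ∉ X1 := fun h => absurd (hc0m b h hbc) (not_lt.mpr h2.le)
      rw [hX1, Finset.mem_sdiff, not_and, not_not] at h3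
      exact hcor b (h3 hbB) hbH
    refine hcov false (fun x y => y < x) B A _ I T z K F hN hT.down X2 ∅ R hX2B (by simp)
      (Finset.disjoint_of_subset_left hX2B hL.dAB.symm) hRX hR ?_ (A0 ω k A X2) ?_
      (hle.trans hN.cov) ?_ n2 ?_
    · intro x hx y hy
      rw [Finset.sdiff_empty] at hx hy
      constructor
      · intro hxy
        have hxX : x ∈ X2 := by
          rcases Finset.mem_union.mp hx with h | h
          · exact h
          · exact absurd hxy (minA hL h)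
        exact ⟨hxX, below hL (hX2B hxX) hxy, hxy⟩
      · exact fun h => h.2.2
    · intro y hy
      rw [Finset.sdiff_empty]
      exact (mem_A0.mp hy).1
    · intro W hW hWc hWcov
      obtain ⟨x, hxR, hxW⟩ := bip_ne hT.down ((hW.trans hRX).trans hX2B) hWc (D := ∅) (by simp)
        hR hF
      exact nz_down hL hω h1 k hT.down hX2B (hW.trans hRX) hWc
        ⟨x, Finset.mem_sdiff.mpr ⟨hRX hxR, hxW⟩⟩ hWcov
    · rw [Finset.sdiff_empty]
      exact hn2
  -- both sets are large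
  have hBu : (B ∩ Hi ω k univ).card ≤ T := by
    by_contra hlt
    rw [not_le] at hlt
    obtain ⟨b, hb, c, hc, hbc⟩ := hT.up.rect (B ∩ Hi ω k univ) Finset.inter_subset_left
      (C0 ω k C X1) (fun x hx => (mem_C0.mp hx).1) hlt hCc
    obtain ⟨hbB, hbH⟩ := Finset.mem_inter.mp hb
    obtain ⟨hcC, hcm⟩ := mem_C0.mp hc
    have h2 := (B_Hi hL hbB).mp hbH c hcC hbc
    have h3 : b ∉ X1 := fun h => absurd (hcm b h hbc) (not_lt.mpr h2.le)
    rw [hX1, Finset.mem_sdiff, not_and, not_not] at h3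
    exact hcor b (h3 hbB) hbH
  have hBl : (B ∩ Lo ω k univ).card ≤ T := by
    by_contra hlt
    rw [not_le] at hlt
    obtain ⟨b, hb, a, ha, hab⟩ := hT.down.rect (B ∩ Lo ω k univ) Finset.inter_subset_left
      (A0 ω k A X2) (fun x hx => (mem_A0.mp hx).1) hlt hAc
    obtain ⟨hbB, hbL⟩ := Finset.mem_inter.mp hb
    obtain ⟨haA, ham⟩ := mem_A0.mp ha
    have h2 := (B_Lo hL hbB).mp hbL a haA hab
    have h3 : b ∉ X2 := fun h => absurd (ham b h hab) (not_lt.mpr h2.le)
    rw [hX2, Finset.mem_sdiff, not_and, not_not] at h3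
    exact hcor b hbL (h3 hbB)
  have hBD : B \ (B ∩ Lo ω k univ) = X1 := by
    rw [hX1, Finset.sdiff_inter_self_left]
  refine hcov false (fun x y => x < y ∨ y < x) _ B _ I T z K F hN hT.mid C
    (B ∩ Lo ω k univ) C sub_union hBl hL.dBC.symm (Finset.Subset.refl _) (Or.inr rfl) ?_
    (B ∩ Hi ω k univ) ?_ (hBu.trans hN.cov) ?_ n1 ?_
  · intro x hx y hy
    rw [hBD] at hx hy
    constructor
    · intro hyx
      change y < x at hyx
      have hyB : y ∈ B := by
        rcases Finset.mem_union.mp hy with h | h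
        · exact absurd hyx (maxC hL h)
        · exact hX1B h
      exact ⟨above hL hyB hyx, hyB, Or.inr hyx⟩
    · rintro ⟨hxC, hyB, h | h⟩
      · exact absurd h (maxC hL hxC)
      · exact h
  · intro y hy
    rw [hBD]
    obtain ⟨hyB, hyH⟩ := Finset.mem_inter.mp hy
    exact Finset.mem_sdiff.mpr ⟨hyB, fun h => hcor y h hyH⟩
  · intro W hW hWc hWcov
    obtain ⟨x, hxR, hxW⟩ := bip_ne hT.mid (hW.trans sub_union) hWc hBl (Or.inr rfl) hF
    exact nz_mid hL hω h1 k sub_union hT.mid hBl hW hWc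
      ⟨x, Finset.mem_sdiff.mpr ⟨hxR, hxW⟩⟩ hWcov
  · rw [hBD, Finset.union_comm]
    exact hn1

end main

end Pool.Agent.Lib.MP_5bc52d_co.TA
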