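import Mathlib
import Pool.Agent.Lib.MP_5bc52d_co.AA.Zeta
import Pool.Agent.Lib.MP_5bc52d_co.TA.Skel

/-!
# Three layers: the function of a point is no divisor

The word with the letters `w(-μ-τ) s(μ) w(τ)`: only the final parts which contain the top layer
contribute, and the part equal to the top layer gives the lowest power of `τ`.
-/

open Finset Polynomial

set_option linter.unusedSectionVars false

namespace Pool.Agent.Lib.MP_5bc52d_co.TA

open Splitting Cyc Cut Key

section comb
variable {P : Type*} [Fintype P] [DecidableEq P]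

/-- The layers `A`, `B`, `C` of the relation `r`, and an element `a₀` of the bottom layer such that
`w` increases on everything above `a₀`. -/
structure CertBH (r : P → P → Prop) (w : P → ℤ) (A B C : Finset P) (a₀ : P) : Prop where
  cover : ∀ x, x ∈ A ∨ x ∈ B ∨ x ∈ C
  dBC : Disjoint B C
  dAC : Disjoint A C
  rel : ∀ x y, r x y → (x ∈ A ∧ y ∈ B) ∨ (x ∈ B ∧ y ∈ C) ∨ (x ∈ A ∧ y ∈ C)
  dAB : Disjoint A B
  up : ∀ x y, (x = a₀ ∨ r a₀ x) → r x y → w x < w y
  common : ∀ c ∈ C, ∃ b ∈ B, r a₀ b ∧ r b c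
  notlow : ∀ b ∈ B, r a₀ b → ∃ a ∈ A, r a b ∧ ¬ w a < w b
  disj : ∀ b ∈ B, (∃ a ∈ A, r a b ∧ ¬ w a < w b) ∨ ∃ c ∈ C, r b c ∧ ¬ w b < w c
  nbr : ∀ a ∈ A, ∃ b ∈ B, r a b

variable {r : P → P → Prop} {w : P → ℤ} {A B C : Finset P} {a₀ : P} (h : CertBH r w A B C a₀)
include h

theorem CertBH.low : Low r (univ \ C) := by
  intro a ha b hb c hc hab hbc
  rw [Finset.mem_sdiff] at ha hb hc
  rcases h.rel a b hab with h1 | h1 | h1
  · rcases h.rel b c hbc with h2 | h2 | h2
    · exact Finset.disjoint_left.mp h.dAB h2.1 h1.2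
    · exact hc.2 h2.2
    · exact hc.2 h2.2
  · exact hb.2 h1.2
  · exact hb.2 h1.2

/-- the placeable initial parts do not meet the top layer -/
theorem CertBH.sub {J : Finset P} (hJ : J ∈ dn r univ)
    (hpl : PlP r (fun a b => r b a) (-w) J J) : J ⊆ univ \ C := by
  intro c hc
  refine Finset.mem_sdiff.mpr ⟨Finset.mem_univ _, fun hcC => ?_⟩
  rw [mem_dn] at hJ
  obtain ⟨b, hb, hab, hbc⟩ := h.common c hcC
  have hbJ : b ∈ J := hJ.2 b (Finset.mem_univ _) c hc hbc
  obtain ⟨a, ha, hab', hw⟩ := h.notlow b hb hab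
  have haJ : a ∈ J := hJ.2 a (Finset.mem_univ _) b hbJ hab'
  rcases hpl.2.2 b hbJ with h1 | h1
  · rw [neg_neg] at h1
    exact hw ((mem_AL.mp h1).2 a haJ b hbJ hab' (Or.inl rfl))
  · rw [neg_neg] at h1
    have h2 := (mem_AL.mp h1).2 c hc b hbJ hbc (Or.inl rfl)
    have h3 := h.up b c (Or.inr hab) hbc
    omega

/-- the sources of the two lower layers lie in every contributing initial part -/
theorem CertBH.src {J : Finset P} (hJ : J ∈ dn r univ) (hF : Wk r w (univ \ J) (univ \ J)) :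
    Src r (-w) (univ \ C) ⊆ J := by
  intro x hx
  by_contra hxJ
  rw [mem_dn] at hJ
  rw [mem_Src] at hx
  obtain ⟨hxC, hx⟩ := hx
  have hxF : x ∈ univ \ J := Finset.mem_sdiff.mpr ⟨Finset.mem_univ _, hxJ⟩
  have hupF : ∀ y, r x y → y ∈ univ \ J := fun y hxy =>
    Finset.mem_sdiff.mpr ⟨Finset.mem_univ _, fun hy => hxJ (hJ.2 x (Finset.mem_univ _) y hy hxy)⟩
  rcases h.cover x with hA | hB | hC
  · obtain ⟨b, hb, hxb⟩ := h.nbr x hA
    have h1 := (hF.2 x hxF b (hupF b hxb) hxb).2
    have h2 := hx b (Finset.mem_sdiff.mpr ⟨Finset.mem_univ _, fun hc =>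
      Finset.disjoint_left.mp h.dBC hb hc⟩) (Or.inl hxb)
    simp only [Pi.neg_apply] at h2
    omega
  · rcases h.disj x hB with ⟨a, ha, hax, hw⟩ | ⟨c, hc, hxc, hw⟩
    · have h2 := hx a (Finset.mem_sdiff.mpr ⟨Finset.mem_univ _, fun hc =>
        Finset.disjoint_left.mp h.dAC ha hc⟩) (Or.inr hax)
      simp only [Pi.neg_apply] at h2
      omega
    · exact hw (hF.2 x hxF c (hupF c hxc) hxc).2
  · exact (Finset.mem_sdiff.mp hxC).2 hC

/-- the value of the word is not zero -/
theorem CertBH.value (ht : ∀ x y z, r x y → r y z → r x z) {v : Bool → P → ℤ}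
    (hv : ∀ c p, v (!c) p = - v c p) (c : Bool) (hc : v c = -w) :
    NL r v [(!c, (-Polynomial.C (X : ℚ[X]) - X : ℚ[X][X])), (c, Polynomial.C X), (!c, (X : ℚ[X][X]))] univ ≠ 0 := by
  classical
  have hvc : v (!c) = w := by
    funext p
    rw [hv, hc, Pi.neg_apply, neg_neg]
  set J₀ : Finset P := univ \ C with hJ₀
  have hJ₀mem : J₀ ∈ dn r univ := by
    rw [mem_dn]
    refine ⟨Finset.subset_univ _, fun a _ b hb hab => ?_⟩
    rw [hJ₀, Finset.mem_sdiff] at hb ⊢
    refine ⟨Finset.mem_univ _, fun haC => ?_⟩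
    rcases h.rel a b hab with h1 | h1 | h1
    · exact Finset.disjoint_left.mp h.dAC h1.1 haC
    · exact Finset.disjoint_left.mp h.dBC h1.1 haC
    · exact Finset.disjoint_left.mp h.dAC h1.1 haC
  have hJ₀c : J₀.card + C.card = (univ : Finset P).card :=
    Finset.card_sdiff_add_card_eq_card (Finset.subset_univ C)
  have hcompl : ∀ J : Finset P, (univ \ J).card = C.card → J ⊆ J₀ → J = J₀ := by
    intro J hJc hJs
    refine Finset.eq_of_subset_of_card_le hJs ?_
    have h1 := Finset.card_sdiff_add_card_eq_card (Finset.subset_univ J)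
    omega
  have hJ₀F : univ \ J₀ = C := by
    rw [hJ₀, Finset.sdiff_sdiff_eq_self (Finset.subset_univ C)]
  set N := (Src r (-w) J₀).card + C.card with hN
  have hword : NL r v [(!c, (-Polynomial.C (X : ℚ[X]) - X : ℚ[X][X])), (c, Polynomial.C X), (!c, (X : ℚ[X][X]))] univ =
      ∑ J ∈ dn r univ, NL r v [(!c, (-Polynomial.C (X : ℚ[X]) - X : ℚ[X][X])), (c, Polynomial.C X)] J *
        NL r v [(!c, (X : ℚ[X][X]))] (univ \ J) := by
    rw [← NL_append]
    rfl
  -- the value on the lower part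
  have hlow : ∀ J ⊆ J₀, NL r v [(!c, (-Polynomial.C (X : ℚ[X]) - X : ℚ[X][X])), (c, Polynomial.C (X : ℚ[X]))] J =
      (-Polynomial.C (X : ℚ[X]) - X : ℚ[X][X]) ^ (NBt r (-w) J).card * Polynomial.C X ^ (NT r (-w) J).card *
        (-X) ^ (Src r (-w) J).card := by
    intro J hJ
    rw [NL_low (h.low.mono hJ) ht hv c hc]
    congr 2
    ring
  have hcoeff : (NL r v [(!c, (-Polynomial.C (X : ℚ[X]) - X : ℚ[X][X])), (c, Polynomial.C X), (!c, (X : ℚ[X][X]))]
      univ).coeff N = (-X) ^ (NBt r (-w) J₀).card * X ^ (NT r (-w) J₀).card *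
        (-1) ^ (Src r (-w) J₀).card := by
    rw [hword, finsetSum_coeff, Finset.sum_eq_single J₀]
    · rw [hlow J₀ (Finset.Subset.refl _), NL_single, hJ₀F, if_pos, hN]
      · have h1 : (-Polynomial.C (X : ℚ[X]) - X : ℚ[X][X]) ^ (NBt r (-w) J₀).card *
            Polynomial.C X ^ (NT r (-w) J₀).card * (-X) ^ (Src r (-w) J₀).card * X ^ C.card =
            ((-Polynomial.C (X : ℚ[X]) - X : ℚ[X][X]) ^ (NBt r (-w) J₀).card * Polynomial.C X ^ (NT r (-w) J₀).card *
              (-1) ^ (Src r (-w) J₀).card) * X ^ ((Src r (-w) J₀).card + C.card) := by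
          rw [neg_pow (X : ℚ[X][X]), pow_add]
          ring
        rw [h1, coeff_mul_X_pow', if_pos le_rfl, Nat.sub_self, coeff_zero_eq_eval_zero]
        simp
      · refine ⟨Finset.Subset.refl _, fun a ha b hb hab => ?_⟩
        exfalso
        rcases h.rel a b hab with h1 | h1 | h1
        · exact Finset.disjoint_left.mp h.dAC h1.1 ha
        · exact Finset.disjoint_left.mp h.dBC h1.1 ha
        · exact Finset.disjoint_left.mp h.dAC h1.1 ha
    · intro J hJ hne
      rw [NL_single, hvc]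
      split_ifs with hF
      · by_cases hpl : PlP r (fun a b => r b a) (-w) J J
        · have hsub := h.sub hJ hpl
          have hsrc : Src r (-w) J₀ ⊆ Src r (-w) J := fun x hx =>
            Src_inter hsub hx (h.src hJ hF hx)
          have hc1 := Finset.card_le_card hsrc
          have hc2 : C.card < (univ \ J).card := by
            have h1 := Finset.card_sdiff_add_card_eq_card (Finset.subset_univ J)
            have h3 : J.card ≤ J₀.card := Finset.card_le_card hsub
            have h4 : (univ \ J).card ≠ C.card := fun h5 => hne (hcompl J h5 hsub)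
            omega
          rw [hlow J hsub]
          have h1 : (-Polynomial.C (X : ℚ[X]) - X : ℚ[X][X]) ^ (NBt r (-w) J).card *
              Polynomial.C X ^ (NT r (-w) J).card * (-X) ^ (Src r (-w) J).card *
                X ^ (univ \ J).card =
              ((-Polynomial.C (X : ℚ[X]) - X : ℚ[X][X]) ^ (NBt r (-w) J).card * Polynomial.C X ^ (NT r (-w) J).card *
                (-1) ^ (Src r (-w) J).card) * X ^ ((Src r (-w) J).card + (univ \ J).card) := by
            rw [neg_pow (X : ℚ[X][X]), pow_add]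
            ring
          rw [h1, coeff_mul_X_pow', if_neg (by omega)]
        · have h1 : NL r v [(!c, (-Polynomial.C (X : ℚ[X]) - X : ℚ[X][X])), (c, Polynomial.C (X : ℚ[X]))] J = 0 := by
            rw [NL_pair' ht hv, hc, if_neg hpl]
          rw [h1, zero_mul, coeff_zero]
      · rw [mul_zero, coeff_zero]
    · intro h1
      exact absurd hJ₀mem h1
  intro h0
  rw [h0, coeff_zero] at hcoeff
  exact mul_ne_zero (mul_ne_zero (pow_ne_zero _ (neg_ne_zero.mpr X_ne_zero))
    (pow_ne_zero _ X_ne_zero)) (pow_ne_zero _ (neg_ne_zero.mpr one_ne_zero)) hcoeff.symm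

end comb

section inst
variable {P : Type*} [Fintype P] [DecidableEq P] [PartialOrder P]
variable {Q : Subring R} (hQ : ∀ F : R, F ∈ Q ↔ IsQS F)
include hQ

/-- **The function of a point is no divisor**, with an element `a₀` of the bottom layer. -/
theorem certB_not_dvd_a {ω : P → ℕ} (hω : Function.Injective ω) (x : P) (k : Bool) {A B C : Finset P}
    {a₀ : P} (h : CertBH (fun a b : P => a < b) (Cut.wt ω k) A B C a₀) :
    ¬ GamQ hQ ω {x} ∣ GamQ hQ ω univ := by
  intro hd
  refine h.value (fun x y z h1 h2 => lt_trans h1 h2) (v := Cut.wt ω) (wt_hv hQ ω) (!k)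
    (wt_not ω k) ?_
  exact NL_zero (P := P) (A := Q) (B := ℚ[X][X]) (cc := (Polynomial.C.comp Polynomial.C).comp (cc Q))
    (F := lo hQ) (Γ := GamQ hQ ω) (s := sg Q) (r := fun a b : P => a < b) (v := Cut.wt ω)
    (fun x => lt_irrefl x) rfl rfl (fun V => by
      rw [RingHom.comp_apply, cc_GamQ hQ ω x V]
      split_ifs
      · rw [map_one]
      · rw [map_zero]) (fun c => peelE_lo hQ hω c) hd (by
      simp only [List.map_cons, List.map_nil, List.sum_cons, List.sum_nil]
      ring)

/-- **The function of a point is no divisor**, with an element `c₀` of the top layer. -/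
theorem certB_not_dvd_c {ω : P → ℕ} (hω : Function.Injective ω) (x : P) (k : Bool) {A B C : Finset P}
    {c₀ : P} (h : CertBH (fun a b : P => b < a) (Cut.wt ω k) C B A c₀) :
    ¬ GamQ hQ ω {x} ∣ GamQ hQ ω univ := by
  intro hd
  have hv : ∀ (c : Bool) (p : P), (fun c => Cut.wt ω (!c)) (!c) p = - (fun c => Cut.wt ω (!c)) c p :=
    fun c p => wt_hv hQ ω (!c) p
  refine h.value (fun x y z h1 h2 => lt_trans h2 h1) (v := fun c => Cut.wt ω (!c)) hv k
    (wt_not ω k) ?_
  exact NL_zero (P := P) (A := Q) (B := ℚ[X][X]) (cc := (Polynomial.C.comp Polynomial.C).comp (cc Q))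
    (F := hi hQ) (Γ := GamQ hQ ω) (s := sg Q) (r := fun a b : P => b < a)
    (v := fun c => Cut.wt ω (!c))
    (fun x => lt_irrefl x) rfl rfl (fun V => by
      rw [RingHom.comp_apply, cc_GamQ hQ ω x V]
      split_ifs
      · rw [map_one]
      · rw [map_zero]) (fun c => peelE_hi hQ hω c) hd (by
      simp only [List.map_cons, List.map_nil, List.sum_cons, List.sum_nil]
      ring)

/-- if the function of a point is no divisor then the values at `-T` do not vanish -/
theorem certB_eval {ω : P → ℕ} (x : P) {U : Finset P}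
    (h : ¬ GamQ hQ ω {x} ∣ GamQ hQ ω U) :
    ∃ c, (lo hQ c (GamQ hQ ω U)).eval (-(sg Q c * GamQ hQ ω {x})) ≠ 0 ∨
      (hi hQ c (GamQ hQ ω U)).eval (-(sg Q c * GamQ hQ ω {x})) ≠ 0 := by
  refine ⟨true, Or.inl fun h0 => h ?_⟩
  have h1 := lo_zero hQ true (GamQ hQ ω U)
  have h2 := Polynomial.eval_dvd (x := -(sg Q true * GamQ hQ ω {x}))
    (Polynomial.X_dvd_sub_C (p := lo hQ true (GamQ hQ ω U)))
  rw [eval_X, eval_sub, eval_C, h0, h1, zero_sub, neg_dvd, dvd_neg] at h2
  exact dvd_of_mul_left_dvd h2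

end inst

section layers
variable {P : Type*} [Fintype P] [DecidableEq P] [PartialOrder P]
  {A B C : Finset P} {I T z K F : ℕ}

theorem certB_ab (hL : AA.Lay A B C) {a b : P} (ha : a ∈ A) (_ : b ∈ B) (h : a < b ∨ b < a) :
    a < b := by
  rcases h with h | h
  · exact h
  · exfalso
    rcases hL.rel b a h with h1 | h1 | h1
    · exact Finset.disjoint_left.mp hL.dAB ha h1.2
    · exact Finset.disjoint_left.mp hL.dAC ha h1.2
    · exact Finset.disjoint_left.mp hL.dAC ha h1.2

theorem certB_bc (hL : AA.Lay A B C) {b c : P} (_ : b ∈ B) (hc : c ∈ C) (h : c < b ∨ b < c) :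
    b < c := by
  rcases h with h | h
  · exfalso
    rcases hL.rel c b h with h1 | h1 | h1
    · exact Finset.disjoint_left.mp hL.dAC h1.1 hc
    · exact Finset.disjoint_left.mp hL.dBC h1.1 hc
    · exact Finset.disjoint_left.mp hL.dAC h1.1 hc
  · exact h

variable (hN : Num I T z K F) (hL : AA.Lay A B C)
  (hT : Typ (fun x y : P => x < y) A B C I T z K F)
include hN hL hT

/-- an element of `A` and an element of `C` have a common neighbour in `B` -/
theorem certB_mid {a c : P} (ha : a ∈ A) (hc : c ∈ C) : ∃ b ∈ B, a < b ∧ b < c := by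
  obtain ⟨y, hy, h⟩ := hT.mid.com {a, c} (by
    intro x hx
    simp only [Finset.mem_union]
    rcases Finset.mem_insert.mp hx with rfl | hx
    · exact Or.inl ha
    · rw [Finset.mem_singleton] at hx
      exact Or.inr (hx ▸ hc))
    ((Finset.card_le_two).trans (by have := hN.four; omega))
  exact ⟨y, hy, certB_ab hL ha hy (h a (Finset.mem_insert_self _ _)),
    certB_bc hL hy hc (h c (Finset.mem_insert_of_mem (Finset.mem_singleton_self _)))⟩

/-- two elements of `B` have a common upper neighbour -/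
theorem certB_up {b b' : P} (hb : b ∈ B) (hb' : b' ∈ B) : ∃ c ∈ C, b < c ∧ b' < c := by
  obtain ⟨y, hy, h⟩ := hT.up.com {b, b'} (by
    intro x hx
    rcases Finset.mem_insert.mp hx with rfl | hx
    · exact hb
    · rw [Finset.mem_singleton] at hx
      exact hx ▸ hb')
    ((Finset.card_le_two).trans (by have := hN.four; omega))
  exact ⟨y, hy, h b (Finset.mem_insert_self _ _),
    h b' (Finset.mem_insert_of_mem (Finset.mem_singleton_self _))⟩

/-- two elements of `B` have a common lower neighbour -/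
theorem certB_dn {b b' : P} (hb : b ∈ B) (hb' : b' ∈ B) : ∃ a ∈ A, a < b ∧ a < b' := by
  obtain ⟨y, hy, h⟩ := hT.down.com {b, b'} (by
    intro x hx
    rcases Finset.mem_insert.mp hx with rfl | hx
    · exact hb
    · rw [Finset.mem_singleton] at hx
      exact hx ▸ hb')
    ((Finset.card_le_two).trans (by have := hN.four; omega))
  exact ⟨y, hy, h b (Finset.mem_insert_self _ _),
    h b' (Finset.mem_insert_of_mem (Finset.mem_singleton_self _))⟩

end layers

section labels
variable {P : Type*} [Fintype P] [DecidableEq P] [PartialOrder P] {ω : P → ℕ}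

theorem certB_lo {k : Bool} {x y z : P} (hx : x ∈ Lo ω k univ) (hyz : y < z) (hz : z ≤ x) :
    Cut.wt ω k y < Cut.wt ω k z :=
  (mem_AL.mp hx).2 y (Finset.mem_univ _) z (Finset.mem_univ _) hyz hz.eq_or_lt

theorem certB_hi {k : Bool} {x y z : P} (hx : x ∈ Hi ω k univ) (hyz : y < z) (hy : x ≤ y) :
    Cut.wt ω k y < Cut.wt ω k z := by
  have h := (mem_AL.mp hx).2 z (Finset.mem_univ _) y (Finset.mem_univ _) hyz
    (hy.eq_or_lt.imp Eq.symm id)
  rw [wt_not, Pi.neg_apply, Pi.neg_apply] at h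
  omega

theorem certB_not {k : Bool} {x y : P} (h : Cut.wt ω (!k) x < Cut.wt ω (!k) y) :
    Cut.wt ω k y < Cut.wt ω k x := by
  rw [wt_not, Pi.neg_apply, Pi.neg_apply] at h
  omega

end labels

/-- **D4.** -/
theorem certB {Q : Subring R} (hQ : ∀ F : R, F ∈ Q ↔ IsQS F) : CertB hQ := by
  intro V _ _ _ ω hω A B C I T z K F hN _ _ hL hT k x b hx hb hbl hbh y
  apply certB_eval hQ y
  rcases hx with ⟨hxA, hx⟩ | ⟨hxC, hx⟩
  · refine certB_not_dvd_a hQ hω y k (A := A) (B := B) (C := C) (a₀ := x) ?_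
    have hnl : ∀ b₁ ∈ B, x < b₁ → ∃ a ∈ A, a < b₁ ∧ ¬ Cut.wt ω k a < Cut.wt ω k b₁ := by
      intro b₁ hb₁ hxb
      obtain ⟨c, _, hbc, hbc'⟩ := certB_up hN hL hT hb₁ hb
      obtain ⟨a, ha, hab, hab'⟩ := certB_dn hN hL hT hb₁ hb
      have h1 := certB_hi hx hbc hxb.le
      have h2 := certB_not (certB_hi hbh hbc' le_rfl)
      have h3 := certB_not (certB_lo hbl hab' le_rfl)
      exact ⟨a, ha, hab, by omega⟩
    refine ⟨hL.cover, hL.dBC, hL.dAC, hL.rel, hL.dAB, ?_, ?_, hnl, ?_, ?_⟩
    · intro p q hp hpq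
      exact certB_hi hx hpq (hp.elim (fun h => h.ge) le_of_lt)
    · exact fun c hc => certB_mid hN hL hT hxA hc
    · intro b₁ hb₁
      obtain ⟨c, hc, hbc, hbc'⟩ := certB_up hN hL hT hb₁ hb
      obtain ⟨a, ha, hab, hab'⟩ := certB_dn hN hL hT hb₁ hb
      have h2 := certB_not (certB_hi hbh hbc' le_rfl)
      have h3 := certB_not (certB_lo hbl hab' le_rfl)
      by_cases h4 : Cut.wt ω k a < Cut.wt ω k b₁
      · exact Or.inr ⟨c, hc, hbc, by omega⟩
      · exact Or.inl ⟨a, ha, hab, h4⟩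
    · intro a ha
      obtain ⟨b', hb', h⟩ := hT.mid.com {a} (by
        intro x hx
        rw [Finset.mem_singleton] at hx
        simp only [Finset.mem_union]
        exact Or.inl (hx ▸ ha))
        (by rw [Finset.card_singleton]; have := hN.four; omega)
      exact ⟨b', hb', certB_ab hL ha hb' (h a (Finset.mem_singleton_self _))⟩
  · refine certB_not_dvd_c hQ hω y (!k) (A := A) (B := B) (C := C) (c₀ := x) ?_
    have hnl : ∀ b₁ ∈ B, b₁ < x → ∃ c ∈ C, b₁ < c ∧
        ¬ Cut.wt ω (!k) c < Cut.wt ω (!k) b₁ := by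
      intro b₁ hb₁ hxb
      obtain ⟨c, hc, hbc, hbc'⟩ := certB_up hN hL hT hb₁ hb
      obtain ⟨a, _, hab, hab'⟩ := certB_dn hN hL hT hb₁ hb
      have h1 := certB_lo hx hab hxb.le
      have h1' : Cut.wt ω (!k) b₁ < Cut.wt ω (!k) a := by
        rw [wt_not, Pi.neg_apply, Pi.neg_apply]
        omega
      have h2 := certB_hi hbh hbc' le_rfl
      have h3 := certB_lo hbl hab' le_rfl
      exact ⟨c, hc, hbc, by omega⟩
    refine ⟨fun x => ?_, hL.dAB.symm, hL.dAC.symm, fun p q hpq => ?_, hL.dBC.symm, ?_, ?_, hnl,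
      ?_, ?_⟩
    · rcases hL.cover x with h | h | h
      · exact Or.inr (Or.inr h)
      · exact Or.inr (Or.inl h)
      · exact Or.inl h
    · rcases hL.rel q p hpq with h | h | h
      · exact Or.inr (Or.inl ⟨h.2, h.1⟩)
      · exact Or.inl ⟨h.2, h.1⟩
      · exact Or.inr (Or.inr ⟨h.2, h.1⟩)
    · intro p q hp hpq
      have h1 := certB_lo hx hpq (hp.elim (fun h => h.le) le_of_lt)
      rw [wt_not, Pi.neg_apply, Pi.neg_apply]
      omega
    · intro a ha
      obtain ⟨b', hb', h1, h2⟩ := certB_mid hN hL hT ha hxC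
      exact ⟨b', hb', h2, h1⟩
    · intro b₁ hb₁
      obtain ⟨c, hc, hbc, hbc'⟩ := certB_up hN hL hT hb₁ hb
      obtain ⟨a, ha, hab, hab'⟩ := certB_dn hN hL hT hb₁ hb
      have h2 := certB_hi hbh hbc' le_rfl
      have h3 := certB_lo hbl hab' le_rfl
      by_cases h4 : Cut.wt ω (!k) c < Cut.wt ω (!k) b₁
      · exact Or.inr ⟨a, ha, hab, by omega⟩
      · exact Or.inl ⟨c, hc, hbc, h4⟩
    · intro c hc
      obtain ⟨b', hb', h⟩ := hT.mid.com {c} (by
        intro x hx
        rw [Finset.mem_singleton] at hx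
        simp only [Finset.mem_union]
        exact Or.inr (hx ▸ hc))
        (by rw [Finset.card_singleton]; have := hN.four; omega)
      exact ⟨b', hb', certB_bc hL hb' hc (h c (Finset.mem_singleton_self _))⟩

end Pool.Agent.Lib.MP_5bc52d_co.TA
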