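import Mathlib
import Pool.Agent.Lib.MP_5bc52d_co.TA.Skel
import Pool.Agent.Lib.MP_5bc52d_co.LinTerm.PeelDec
import Pool.Agent.Lib.MP_5bc52d_co.TA.CertB

/-!
# Typical posets for arbitrary labellings: the second case
-/

open Finset Polynomial

set_option linter.unusedSectionVars false

namespace Pool.Agent.Lib.MP_5bc52d_co.TA.Case2Aux

open Pool.Agent.Lib.MP_5bc52d_co.Key Pool.Agent.Lib.MP_5bc52d_co.Cut

section comb
variable {P : Type*} [Fintype P] [DecidableEq P]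

/-- three layers for a relation, with common neighbours -/
structure Three (r : P → P → Prop) (A B C : Finset P) : Prop where
  tr : ∀ x y z, r x y → r y z → r x z
  dAB : Disjoint A B
  dBC : Disjoint B C
  dAC : Disjoint A C
  cover : ∀ x, x ∈ A ∨ x ∈ B ∨ x ∈ C
  rel : ∀ x y, r x y → (x ∈ A ∧ y ∈ B) ∨ (x ∈ B ∧ y ∈ C) ∨ (x ∈ A ∧ y ∈ C)
  full : ∀ a ∈ A, ∀ c ∈ C, r a c
  ac : ∀ a ∈ A, ∀ c ∈ C, ∃ b ∈ B, r a b ∧ r b c
  up : ∀ b ∈ B, ∀ b' ∈ B, ∃ c ∈ C, r b c ∧ r b' c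
  dn : ∀ b ∈ B, ∀ b' ∈ B, ∃ a ∈ A, r a b ∧ r a b'

variable {r : P → P → Prop} {A B C : Finset P} {u w : P → ℤ} {x b₀ : P}

/-- the elements of the first layer lie in the initial part -/
theorem mem_first (h : Three r A B C) {a : P} (ha : a ∈ A) : a ∈ AL r w univ := by
  rw [mem_AL]
  refine ⟨mem_univ _, fun p _ q _ hpq hq => ?_⟩
  exfalso
  have key : ∀ y, ¬ r y a := by
    intro y hy
    rcases h.rel y a hy with h1 | h1 | h1
    · exact disjoint_left.1 h.dAB ha h1.2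
    · exact disjoint_left.1 h.dAC ha h1.2
    · exact disjoint_left.1 h.dAC ha h1.2
  rcases hq with rfl | hq
  · exact key p hpq
  · exact key q hq

/-- the middle elements above `x` do not lie in the initial part -/
theorem mid_notMem (h : Three r A B C)
    (hx : ∀ p q, r p q → (p = x ∨ r x p) → u p < u q)
    (hb : b₀ ∈ B) (hb1 : ∀ p q, r p q → (q = b₀ ∨ r q b₀) → u q < u p)
    (hb2 : ∀ p q, r p q → (p = b₀ ∨ r b₀ p) → u q < u p) (hw : w = u ∨ w = -u) {b : P}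
    (hbB : b ∈ B) (hxb : r x b) : ∃ a, r a b ∧ w b < w a := by
  rcases hw with rfl | rfl
  · obtain ⟨c, hc, hbc, hb0c⟩ := h.up b hbB b₀ hb
    obtain ⟨a, ha, hab, hab0⟩ := h.dn b hbB b₀ hb
    have h1 := hx b c hbc (Or.inr hxb)
    have h2 := hb2 b₀ c hb0c (Or.inl rfl)
    have h3 := hb1 a b₀ hab0 (Or.inl rfl)
    exact ⟨a, hab, by omega⟩
  · refine ⟨x, hxb, ?_⟩
    have h1 := hx x b hxb (Or.inl rfl)
    simp only [Pi.neg_apply]
    omega

theorem notMem_of {b : P} (hb : ∃ a, r a b ∧ w b < w a) : b ∉ AL r w univ := by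
  intro h
  obtain ⟨a, hab, hlt⟩ := hb
  have h1 := (mem_AL.mp h).2 a (mem_univ _) b (mem_univ _) hab (Or.inl rfl)
  omega

theorem last_notMem (h : Three r A B C) (hxA : x ∈ A)
    (hx : ∀ p q, r p q → (p = x ∨ r x p) → u p < u q)
    (hb : b₀ ∈ B) (hb1 : ∀ p q, r p q → (q = b₀ ∨ r q b₀) → u q < u p)
    (hb2 : ∀ p q, r p q → (p = b₀ ∨ r b₀ p) → u q < u p) (hw : w = u ∨ w = -u) {c : P}
    (hc : c ∈ C) : c ∉ AL r w univ := by
  intro hcL
  obtain ⟨b, hbB, hxb, hbc⟩ := h.ac x hxA c hc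
  obtain ⟨a, hab, hlt⟩ := mid_notMem h hx hb hb1 hb2 hw hbB hxb
  have h1 := (mem_AL.mp hcL).2 a (mem_univ _) b (mem_univ _) hab (Or.inr hbc)
  omega

end comb

section main
variable {P : Type*} [Fintype P] [DecidableEq P] [PartialOrder P]
variable {r : P → P → Prop} {A B C : Finset P} {u w : P → ℤ} {x b₀ : P}

theorem rest_cnn (h : Three r A B C) (hr : ∀ p q, r p q → (p < q ∨ q < p)) (hxA : x ∈ A)
    (hx : ∀ p q, r p q → (p = x ∨ r x p) → u p < u q)
    (hb : b₀ ∈ B) (hb1 : ∀ p q, r p q → (q = b₀ ∨ r q b₀) → u q < u p)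
    (hb2 : ∀ p q, r p q → (p = b₀ ∨ r b₀ p) → u q < u p) (hw : w = u ∨ w = -u)
    (hC : C.Nonempty) : LinTerm.Cnn (univ \ AL r w univ) := by
  have inC : ∀ c ∈ C, c ∈ univ \ AL r w univ := fun c hc =>
    mem_sdiff.mpr ⟨mem_univ _, last_notMem h hxA hx hb hb1 hb2 hw hc⟩
  have inB : ∀ b ∈ B, r x b → b ∈ univ \ AL r w univ := fun b hbB hxb =>
    mem_sdiff.mpr ⟨mem_univ _, notMem_of (mid_notMem h hx hb hb1 hb2 hw hbB hxb)⟩
  obtain ⟨c₀, hc₀⟩ := hC
  obtain ⟨b₁, hb₁, hxb₁, -⟩ := h.ac x hxA c₀ hc₀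
  refine ⟨⟨c₀, inC c₀ hc₀⟩, ?_⟩
  -- one half contains everything
  have key : ∀ S T : Finset P, S ∪ T = univ \ AL r w univ → b₁ ∈ S → T.Nonempty → Disjoint S T →
      (∀ a ∈ S, ∀ b ∈ T, ¬ a < b ∧ ¬ b < a) → False := by
    intro S T hST hb₁S hT hd hno
    have mv : ∀ p ∈ S, ∀ q ∈ univ \ AL r w univ, (r p q ∨ r q p) → q ∈ S := by
      intro p hp q hq hpq
      rw [← hST, mem_union] at hq
      rcases hq with hq | hq
      · exact hq
      · exfalso
        have h1 := hno p hp q hq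
        rcases hpq with h2 | h2
        · rcases hr p q h2 with h3 | h3
          · exact h1.1 h3
          · exact h1.2 h3
        · rcases hr q p h2 with h3 | h3
          · exact h1.2 h3
          · exact h1.1 h3
    have mB : ∀ b ∈ B, b ∈ univ \ AL r w univ → b ∈ S := by
      intro b hbB hbW
      obtain ⟨c, hc, h1, h2⟩ := h.up b₁ hb₁ b hbB
      exact mv c (mv b₁ hb₁S c (inC c hc) (Or.inl h1)) b hbW (Or.inr h2)
    have mC : ∀ c ∈ C, c ∈ S := by
      intro c hc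
      obtain ⟨b, hbB, hxb, hbc⟩ := h.ac x hxA c hc
      exact mv b (mB b hbB (inB b hbB hxb)) c (inC c hc) (Or.inl hbc)
    obtain ⟨t, ht⟩ := hT
    have htW : t ∈ univ \ AL r w univ := hST ▸ mem_union_right _ ht
    have htS : t ∈ S := by
      rcases h.cover t with h1 | h1 | h1
      · exact absurd (mem_first h h1) (mem_sdiff.mp htW).2
      · exact mB t h1 htW
      · exact mC t h1
    exact disjoint_left.1 hd htS ht
  intro S T hST hS hT hd hno
  have hb₁W : b₁ ∈ S ∪ T := hST ▸ inB b₁ hb₁ hxb₁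
  rcases mem_union.mp hb₁W with h1 | h1
  · exact key S T hST h1 hT hd hno
  · exact key T S (by rw [union_comm]; exact hST) h1 hS hd.symm
      (fun a ha b hb => ⟨(hno b hb a ha).2, (hno b hb a ha).1⟩)

/-- the remaining part has a nonzero linear term -/
theorem rest_nz {ω : P → ℕ} (hone : OneSide ω) (h : Three r A B C)
    (hr : (∀ p q, r p q ↔ p < q) ∨ ∀ p q, r p q ↔ q < p) (hxA : x ∈ A) (k : Bool)
    (hx : ∀ p q, r p q → (p = x ∨ r x p) → Cut.wt ω k p < Cut.wt ω k q)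
    (hb : b₀ ∈ B) (hb1 : ∀ p q, r p q → (q = b₀ ∨ r q b₀) → Cut.wt ω k q < Cut.wt ω k p)
    (hb2 : ∀ p q, r p q → (p = b₀ ∨ r b₀ p) → Cut.wt ω k q < Cut.wt ω k p)
    (hw : w = Cut.wt ω k ∨ w = -Cut.wt ω k)
    (hC : C.Nonempty) : Nz ω (univ \ AL r w univ) := by
  have hr' : ∀ p q, r p q → (p < q ∨ q < p) := by
    intro p q hpq
    rcases hr with h1 | h1
    · exact Or.inl ((h1 p q).1 hpq)
    · exact Or.inr ((h1 p q).1 hpq)
  have hcn := rest_cnn h hr' hxA hx hb hb1 hb2 hw hC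
  have hBC : ∀ p ∈ univ \ AL r w univ, ∀ q, r p q → p ∈ B ∧ q ∈ C := by
    intro p hp q hpq
    rcases h.rel p q hpq with h1 | h1 | h1
    · exact absurd (mem_first h h1.1) (mem_sdiff.mp hp).2
    · exact h1
    · exact absurd (mem_first h h1.1) (mem_sdiff.mp hp).2
  -- no local minimum in the last layer
  have hmin : ∀ c ∈ C, ¬ Mn ω k (univ \ AL r w univ) c := by
    intro c hc hm
    obtain ⟨b, hbB, hxb, hbc⟩ := h.ac x hxA c hc
    have hbW : b ∈ univ \ AL r w univ :=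
      mem_sdiff.mpr ⟨mem_univ _, notMem_of (mid_notMem h hx hb hb1 hb2 hw hbB hxb)⟩
    have h1 := hm b hbW (Or.symm (hr' b c hbc))
    have h2 := hx b c hbc (Or.inr hxb)
    omega
  rcases hr with h1 | h1
  · refine hone k _ B ?_ hcn (Or.inl ?_)
    · intro p hp q hq hpq
      have h2 := hBC p hp q ((h1 p q).2 hpq)
      exact ⟨h2.1, disjoint_right.1 h.dBC h2.2⟩
    · intro p hp hm
      rcases h.cover p with h2 | h2 | h2
      · exact absurd (mem_first h h2) (mem_sdiff.mp hp).2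
      · exact h2
      · exact absurd hm (hmin p h2)
  · refine hone k _ C ?_ hcn (Or.inr ?_)
    · intro p hp q hq hpq
      have h2 := hBC q hq p ((h1 q p).2 hpq)
      exact ⟨h2.2, disjoint_left.1 h.dBC h2.1⟩
    · intro p _ hm hpC
      exact hmin p hpC hm

theorem three_up {A B C : Finset P} {I T z K F : ℕ} (hN : Num I T z K F)
    (hL : AA.Lay A B C) (hT : Typ (fun x y : P => x < y) A B C I T z K F) :
    Three (fun x y : P => x < y) A B C :=
  ⟨fun _ _ _ h1 h2 => lt_trans h1 h2, hL.dAB, hL.dBC, hL.dAC, hL.cover, hL.rel, hL.full,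
    fun _ ha _ hc => certB_mid hN hL hT ha hc, fun _ hb _ hb' => certB_up hN hL hT hb hb',
    fun _ hb _ hb' => certB_dn hN hL hT hb hb'⟩

theorem three_down {A B C : Finset P} {I T z K F : ℕ} (hN : Num I T z K F)
    (hL : AA.Lay A B C) (hT : Typ (fun x y : P => x < y) A B C I T z K F) :
    Three (fun x y : P => y < x) C B A := by
  refine ⟨fun _ _ _ h1 h2 => lt_trans h2 h1, hL.dBC.symm, hL.dAB.symm, hL.dAC.symm, ?_, ?_, ?_,
    ?_, ?_, ?_⟩
  · intro x
    rcases hL.cover x with h | h | h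
    · exact Or.inr (Or.inr h)
    · exact Or.inr (Or.inl h)
    · exact Or.inl h
  · intro x y hxy
    rcases hL.rel y x hxy with h | h | h
    · exact Or.inr (Or.inl ⟨h.2, h.1⟩)
    · exact Or.inl ⟨h.2, h.1⟩
    · exact Or.inr (Or.inr ⟨h.2, h.1⟩)
  · intro c hc a ha
    exact hL.full a ha c hc
  · intro c hc a ha
    obtain ⟨b, hb, h1, h2⟩ := certB_mid hN hL hT ha hc
    exact ⟨b, hb, h2, h1⟩
  · intro b hb b' hb'
    exact certB_dn hN hL hT hb hb'
  · intro b hb b' hb'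
    exact certB_up hN hL hT hb hb'

theorem conn_univ {A B C : Finset P} (h : Three (fun x y : P => x < y) A B C)
    (hA : A.Nonempty) (hC : C.Nonempty) : Conn (univ : Finset P) := by
  intro S _ hS hcl
  have mv : ∀ p ∈ S, ∀ q, (p < q ∨ q < p) → q ∈ S := fun p hp q h => hcl p hp q (mem_univ _) h
  obtain ⟨a₀, ha₀⟩ := hA
  obtain ⟨c₀, hc₀⟩ := hC
  -- an element of the last layer in `S`
  have hex : ∃ c ∈ C, c ∈ S := by
    obtain ⟨s, hs⟩ := hS
    rcases h.cover s with h1 | h1 | h1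
    · exact ⟨c₀, hc₀, mv s hs c₀ (Or.inl (h.full s h1 c₀ hc₀))⟩
    · obtain ⟨c, hc, h2, -⟩ := h.up s h1 s h1
      exact ⟨c, hc, mv s hs c (Or.inl h2)⟩
    · exact ⟨s, h1, hs⟩
  obtain ⟨c₁, hc₁, hc₁S⟩ := hex
  have hAS : ∀ a ∈ A, a ∈ S := fun a ha => mv c₁ hc₁S a (Or.inr (h.full a ha c₁ hc₁))
  have hCS : ∀ c ∈ C, c ∈ S := fun c hc => mv a₀ (hAS a₀ ha₀) c (Or.inl (h.full a₀ ha₀ c hc))
  rw [eq_univ_iff_forall]
  intro s
  rcases h.cover s with h1 | h1 | h1
  · exact hAS s h1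
  · obtain ⟨c, hc, h2, -⟩ := h.up s h1 s h1
    exact mv c (hCS c hc) s (Or.inr h2)
  · exact hCS s h1

end main

end Pool.Agent.Lib.MP_5bc52d_co.TA.Case2Aux

namespace Pool.Agent.Lib.MP_5bc52d_co.TA

open Pool.Agent.Lib.MP_5bc52d_co.Key Pool.Agent.Lib.MP_5bc52d_co.Cut Case2Aux

/-- **D3.** The second case. -/
theorem case2 {Q : Subring R} (hQ : ∀ F : R, F ∈ Q ↔ IsQS F)
    (hone : ∀ (V : Type) [Fintype V] [DecidableEq V] [PartialOrder V] (ω : V → ℕ),
      Function.Injective ω → OneSide ω) (hcert : CertB hQ) : Case2 hQ := by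
  intro V _ _ _ ω hω A B C I T z K F hN hA hC hL hT k x b hx hb hbl hbh
  have h3 := three_up hN hL hT
  have h4 := three_down hN hL hT
  have hirr : ∀ W : Finset V, Nz ω W → W.Nonempty → Irreducible (GamQ hQ ω W) := fun W h hW =>
    LinTerm.irreducible_of_notMem_sq hQ ω hW (LinTerm.Dec.notMem_sq_of_lin hQ hω h)
  refine rule_cert hQ hω univ (conn_univ h3 hA hC) x (mem_univ _) ?_
    (hcert V ω hω A B C I T z K F hN hA hC hL hT k x b hx hb hbl hbh x)
  rcases hx with ⟨hxA, hx⟩ | ⟨hxC, hx⟩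
  · intro c
    left
    have hx' : ∀ p q : V, p < q → (p = x ∨ x < p) → Cut.wt ω k p < Cut.wt ω k q := by
      intro p q hpq hp
      exact certB_hi hx hpq (by rcases hp with rfl | hp; exacts [le_refl _, hp.le])
    have hb1 : ∀ p q : V, p < q → (q = b ∨ q < b) → Cut.wt ω k q < Cut.wt ω k p := by
      intro p q hpq hq
      exact certB_not (certB_lo hbl hpq (by rcases hq with rfl | hq; exacts [le_refl _, hq.le]))
    have hb2 : ∀ p q : V, p < q → (p = b ∨ b < p) → Cut.wt ω k q < Cut.wt ω k p := by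
      intro p q hpq hp
      exact certB_not (certB_hi hbh hpq (by rcases hp with rfl | hp; exacts [le_refl _, hp.le]))
    have hw : Cut.wt ω c = Cut.wt ω k ∨ Cut.wt ω c = -Cut.wt ω k := by
      rw [← wt_not]
      cases c <;> cases k <;> simp
    have hnz := rest_nz (hone V ω hω) h3 (Or.inl fun p q => Iff.rfl) hxA k hx' hb hb1 hb2 hw hC
    refine hirr _ hnz ?_
    obtain ⟨c₀, hc₀⟩ := hC
    exact ⟨c₀, mem_sdiff.mpr ⟨mem_univ _, last_notMem h3 hxA hx' hb hb1 hb2 hw hc₀⟩⟩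
  · intro c
    right
    have hx' : ∀ p q : V, q < p → (p = x ∨ p < x) → Cut.wt ω (!k) p < Cut.wt ω (!k) q := by
      intro p q hpq hp
      have h5 := certB_lo hx hpq (by rcases hp with rfl | hp; exacts [le_refl _, hp.le])
      rw [wt_not, Pi.neg_apply, Pi.neg_apply]
      omega
    have hb1 : ∀ p q : V, q < p → (q = b ∨ b < q) → Cut.wt ω (!k) q < Cut.wt ω (!k) p := by
      intro p q hpq hq
      exact certB_hi hbh hpq (by rcases hq with rfl | hq; exacts [le_refl _, hq.le])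
    have hb2 : ∀ p q : V, q < p → (p = b ∨ p < b) → Cut.wt ω (!k) q < Cut.wt ω (!k) p := by
      intro p q hpq hp
      exact certB_lo hbl hpq (by rcases hp with rfl | hp; exacts [le_refl _, hp.le])
    have hw : Cut.wt ω (!c) = Cut.wt ω (!k) ∨ Cut.wt ω (!c) = -Cut.wt ω (!k) := by
      rw [← wt_not]
      cases c <;> cases k <;> simp
    have hnz := rest_nz (hone V ω hω) h4 (Or.inr fun p q => Iff.rfl) hxC (!k) hx' hb hb1 hb2 hw hA
    refine hirr _ hnz ?_
    obtain ⟨a₀, ha₀⟩ := hA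
    exact ⟨a₀, mem_sdiff.mpr ⟨mem_univ _, last_notMem h4 hxC hx' hb hb1 hb2 hw ha₀⟩⟩

end Pool.Agent.Lib.MP_5bc52d_co.TA
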