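import Mathlib
import Pool.Agent.Lib.MP_5bc52d_co.TA.Graph

/-!
# Colliding rows

Few functions have many rows whose values are large and are values of other rows.
-/

namespace Pool.Agent.Lib.MP_5bc52d_co.TA.Coll

open Finset Function

set_option linter.unusedSectionVars false

variable {ι α : Type*} [Fintype ι] [DecidableEq ι] [Fintype α] [DecidableEq α]

/-! ### The two row lemma -/

open Classical in
/-- If `P` does not depend on the rows `b`, `b'` then it is independent of them. -/
theorem two_rows {b b' : ι} (hb : b ≠ b') (P PQ : (ι → α) → Prop) (Q : α → α → Prop)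
    (hPQ : ∀ M, PQ M ↔ P M ∧ Q (M b) (M b'))
    (hP : ∀ M x y, P (update (update M b x) b' y) ↔ P M) :
    ((univ : Finset (ι → α)).filter PQ).card * (Fintype.card α * Fintype.card α) =
      ((univ : Finset (ι → α)).filter P).card *
        ((univ : Finset (α × α)).filter fun p => Q p.1 p.2).card := by
  have e : Fintype.card α * Fintype.card α = (univ : Finset (α × α)).card := by
    rw [card_univ, Fintype.card_prod]
  rw [e, ← card_product, ← card_product]
  refine Finset.card_bij'
    (fun q _ => (update (update q.1 b q.2.1) b' q.2.2, (q.1 b, q.1 b')))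
    (fun q _ => (update (update q.1 b q.2.1) b' q.2.2, (q.1 b, q.1 b'))) ?_ ?_ ?_ ?_
  · rintro ⟨M, x, y⟩ h
    simp only [mem_product, mem_filter, mem_univ, true_and, and_true, hPQ] at h ⊢
    exact ⟨(hP M x y).2 h.1, h.2⟩
  · rintro ⟨M, x, y⟩ h
    simp only [mem_product, mem_filter, mem_univ, true_and, and_true, hPQ] at h ⊢
    refine ⟨(hP M x y).2 h.1, ?_⟩
    rw [update_of_ne hb, update_self, update_self]
    exact h.2
  · rintro ⟨M, x, y⟩ _
    refine Prod.ext ?_ ?_
    · funext i
      simp only
      by_cases h1 : i = b'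
      · subst h1; rw [update_self]
      · rw [update_of_ne h1]
        by_cases h2 : i = b
        · subst h2; rw [update_self]
        · rw [update_of_ne h2, update_of_ne h1, update_of_ne h2]
    · simp only
      rw [update_of_ne hb, update_self, update_self]
  · rintro ⟨M, x, y⟩ _
    refine Prod.ext ?_ ?_
    · funext i
      simp only
      by_cases h1 : i = b'
      · subst h1; rw [update_self]
      · rw [update_of_ne h1]
        by_cases h2 : i = b
        · subst h2; rw [update_self]
        · rw [update_of_ne h2, update_of_ne h1, update_of_ne h2]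
    · simp only
      rw [update_of_ne hb, update_self, update_self]

/-! ### Lists of disjoint colliding pairs -/

/-- the pairs of the list are colliding -/
def Cd (Q : α → α → Prop) (M : ι → α) (L : List (ι × ι)) : Prop :=
  ∀ p ∈ L, Q (M p.1) (M p.2)

/-- the pairs of the list are disjoint -/
def Dis (L : List (ι × ι)) : Prop := (L.flatMap fun p => [p.1, p.2]).Nodup

theorem dis_cons {p : ι × ι} {L : List (ι × ι)} : Dis (p :: L) ↔
    p.1 ≠ p.2 ∧ (∀ q ∈ L, p.1 ≠ q.1 ∧ p.1 ≠ q.2 ∧ p.2 ≠ q.1 ∧ p.2 ≠ q.2) ∧ Dis L := by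
  unfold Dis
  simp only [List.flatMap_cons, List.cons_append, List.nil_append, List.nodup_cons, List.mem_cons,
    List.mem_flatMap, List.not_mem_nil, or_false, not_or, not_exists, not_and]
  constructor
  · rintro ⟨⟨h1, h2⟩, h3, h4⟩
    exact ⟨h1, fun q hq => ⟨(h2 q hq).1, (h2 q hq).2, (h3 q hq).1, (h3 q hq).2⟩, h4⟩
  · rintro ⟨h1, h2, h4⟩
    exact ⟨⟨h1, fun q hq => ⟨(h2 q hq).1, (h2 q hq).2.1⟩⟩,
      fun q hq => ⟨(h2 q hq).2.2.1, (h2 q hq).2.2.2⟩, h4⟩

open Classical in
/-- the functions equal to `f₀` on `W` -/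
theorem card_fix (W : Finset ι) (f₀ : ι → α) :
    ((univ : Finset (ι → α)).filter fun M => ∀ i ∈ W, M i = f₀ i).card =
      Fintype.card α ^ (Fintype.card ι - W.card) := by
  have h : ((univ : Finset (ι → α)).filter fun M => ∀ i ∈ W, M i = f₀ i) =
      Fintype.piFinset fun i => if i ∈ W then {f₀ i} else univ := by
    ext M
    rw [mem_filter, Fintype.mem_piFinset]
    constructor
    · rintro ⟨-, h⟩ i
      by_cases hi : i ∈ W
      · rw [if_pos hi, mem_singleton]; exact h i hi
      · rw [if_neg hi]; exact mem_univ _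
    · intro h
      refine ⟨mem_univ _, fun i hi => ?_⟩
      have := h i
      rw [if_pos hi, mem_singleton] at this
      exact this
  rw [h, Fintype.card_piFinset]
  have h2 : ∀ i, (if i ∈ W then ({f₀ i} : Finset α) else univ).card =
      if i ∈ W then 1 else Fintype.card α := by
    intro i
    split_ifs
    · exact card_singleton _
    · exact card_univ
  rw [Finset.prod_congr rfl fun i _ => h2 i, Finset.prod_ite, Finset.prod_const_one, one_mul,
    Finset.prod_const]
  congr 1
  have h3 : (univ.filter fun i => ¬ i ∈ W) = Wᶜ := by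
    ext i; simp
  rw [h3, card_compl]

/-- fixed on `W` and colliding on the pairs of `L` -/
def FC (Q : α → α → Prop) (W : Finset ι) (f₀ : ι → α) (L : List (ι × ι)) (M : ι → α) : Prop :=
  (∀ i ∈ W, M i = f₀ i) ∧ Cd Q M L

open Classical in
theorem card_coll (Q : α → α → Prop) (W : Finset ι) (f₀ : ι → α) (L : List (ι × ι)) (hL : Dis L)
    (hW : ∀ p ∈ L, p.1 ∉ W ∧ p.2 ∉ W) :
    ((univ : Finset (ι → α)).filter (FC Q W f₀ L)).card *
        (Fintype.card α * Fintype.card α) ^ L.length =
      ((univ : Finset (α × α)).filter fun p => Q p.1 p.2).card ^ L.length *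
        Fintype.card α ^ (Fintype.card ι - W.card) := by
  induction L with
  | nil =>
    have : ((univ : Finset (ι → α)).filter (FC Q W f₀ [])) =
        (univ : Finset (ι → α)).filter fun M => ∀ i ∈ W, M i = f₀ i := by
      ext M
      simp only [mem_filter, FC, Cd, List.not_mem_nil, false_imp_iff, implies_true, and_true]
    rw [this, card_fix]
    simp only [List.length_nil, pow_zero, mul_one, one_mul]
  | cons p L ih =>
    rw [dis_cons] at hL
    obtain ⟨h1, h2, h3⟩ := hL
    have hpW := hW p List.mem_cons_self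
    have ih := ih h3 fun q hq => hW q (List.mem_cons_of_mem _ hq)
    have e : ∀ M : ι → α, FC Q W f₀ (p :: L) M ↔ FC Q W f₀ L M ∧ Q (M p.1) (M p.2) := by
      intro M
      simp only [FC, Cd, List.mem_cons, forall_eq_or_imp]
      tauto
    have hP : ∀ (M : ι → α) x y, FC Q W f₀ L (update (update M p.1 x) p.2 y) ↔
        FC Q W f₀ L M := by
      intro M x y
      have h : ∀ q ∈ L, (update (update M p.1 x) p.2 y) q.1 = M q.1 ∧
          (update (update M p.1 x) p.2 y) q.2 = M q.2 := by
        intro q hq
        obtain ⟨a1, a2, a3, a4⟩ := h2 q hq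
        rw [update_of_ne (Ne.symm a3), update_of_ne (Ne.symm a1), update_of_ne (Ne.symm a4),
          update_of_ne (Ne.symm a2)]
        exact ⟨rfl, rfl⟩
      have h' : ∀ i ∈ W, (update (update M p.1 x) p.2 y) i = M i := by
        intro i hi
        have e1 : i ≠ p.1 := by rintro rfl; exact hpW.1 hi
        have e2 : i ≠ p.2 := by rintro rfl; exact hpW.2 hi
        rw [update_of_ne e2, update_of_ne e1]
      constructor
      · rintro ⟨hw, hc⟩
        refine ⟨fun i hi => ?_, fun q hq => ?_⟩
        · rw [← h' i hi]; exact hw i hi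
        · have := hc q hq
          rwa [(h q hq).1, (h q hq).2] at this
      · rintro ⟨hw, hc⟩
        refine ⟨fun i hi => ?_, fun q hq => ?_⟩
        · rw [h' i hi]; exact hw i hi
        · rw [(h q hq).1, (h q hq).2]
          exact hc q hq
    have h4 := two_rows h1 (FC Q W f₀ L) (FC Q W f₀ (p :: L)) Q e hP
    rw [List.length_cons, pow_succ, pow_succ]
    calc _ = (((univ : Finset (ι → α)).filter (FC Q W f₀ (p :: L))).card *
          (Fintype.card α * Fintype.card α)) * (Fintype.card α * Fintype.card α) ^ L.length := by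
          ring
      _ = (((univ : Finset (ι → α)).filter (FC Q W f₀ L)).card *
          (Fintype.card α * Fintype.card α) ^ L.length) *
          ((univ : Finset (α × α)).filter fun p => Q p.1 p.2).card := by
          rw [h4]; ring
      _ = _ := by rw [ih]; ring

/-- fixed on `W` with `k` disjoint colliding pairs -/
def FE (Q : α → α → Prop) (W : Finset ι) (f₀ : ι → α) (k : ℕ) (M : ι → α) : Prop :=
  (∀ i ∈ W, M i = f₀ i) ∧ ∃ L : List (ι × ι), L.length = k ∧ Dis L ∧
    (∀ p ∈ L, p.1 ∉ W ∧ p.2 ∉ W) ∧ Cd Q M L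

open Classical in
/-- union bound over the lists of `k` disjoint pairs -/
theorem card_exists_coll (Q : α → α → Prop) (W : Finset ι) (f₀ : ι → α) (k : ℕ) :
    ((univ : Finset (ι → α)).filter (FE Q W f₀ k)).card *
        (Fintype.card α * Fintype.card α) ^ k ≤
      (Fintype.card ι * Fintype.card ι * ((univ : Finset (α × α)).filter fun p =>
        Q p.1 p.2).card) ^ k * Fintype.card α ^ (Fintype.card ι - W.card) := by
  set S : (List.Vector (ι × ι) k) → Finset (ι → α) := fun L =>
    if Dis L.toList ∧ ∀ p ∈ L.toList, p.1 ∉ W ∧ p.2 ∉ W then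
      (univ : Finset (ι → α)).filter (FC Q W f₀ L.toList)
      else ∅ with hS
  have hsub : ((univ : Finset (ι → α)).filter (FE Q W f₀ k)) ⊆
      (univ : Finset (List.Vector (ι × ι) k)).biUnion S := by
    intro M hM
    rw [mem_filter] at hM
    obtain ⟨-, h0, L, h1, h2, h3, h4⟩ := hM
    rw [mem_biUnion]
    refine ⟨⟨L, h1⟩, mem_univ _, ?_⟩
    rw [hS]
    simp only [List.Vector.toList_mk]
    rw [if_pos ⟨h2, h3⟩, mem_filter]
    exact ⟨mem_univ _, h0, h4⟩
  have h1 : ∀ L : List.Vector (ι × ι) k, (S L).card * (Fintype.card α * Fintype.card α) ^ k ≤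
      ((univ : Finset (α × α)).filter fun p => Q p.1 p.2).card ^ k *
        Fintype.card α ^ (Fintype.card ι - W.card) := by
    intro L
    by_cases hd : Dis L.toList ∧ ∀ p ∈ L.toList, p.1 ∉ W ∧ p.2 ∉ W
    · have h2 := card_coll (α := α) Q W f₀ L.toList hd.1 hd.2
      rw [List.Vector.toList_length] at h2
      rw [hS]
      simp only
      rw [if_pos hd, h2]
    · rw [hS]
      simp only
      rw [if_neg hd, card_empty, zero_mul]
      exact Nat.zero_le _
  calc _ ≤ ((univ : Finset (List.Vector (ι × ι) k)).biUnion S).card *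
        (Fintype.card α * Fintype.card α) ^ k := Nat.mul_le_mul_right _ (card_le_card hsub)
    _ ≤ (∑ L : List.Vector (ι × ι) k, (S L).card) * (Fintype.card α * Fintype.card α) ^ k :=
        Nat.mul_le_mul_right _ card_biUnion_le
    _ = ∑ L : List.Vector (ι × ι) k, (S L).card * (Fintype.card α * Fintype.card α) ^ k := by
        rw [Finset.sum_mul]
    _ ≤ ∑ _L : List.Vector (ι × ι) k, ((univ : Finset (α × α)).filter fun p =>
          Q p.1 p.2).card ^ k * Fintype.card α ^ (Fintype.card ι - W.card) :=
        Finset.sum_le_sum fun L _ => h1 L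
    _ = _ := by
        rw [Finset.sum_const, card_univ, card_vector, Fintype.card_prod, smul_eq_mul]
        ring

/-! ### Many collided rows give many disjoint colliding pairs -/

/-- large and equal values -/
def Eqv (val : α → ℕ) (v : ℕ) (x y : α) : Prop := v ≤ val x ∧ val x = val y

open Classical in
/-- the rows outside `W` which collide with another row outside `W` -/
noncomputable def hit (val : α → ℕ) (v : ℕ) (W : Finset ι) (M : ι → α) : Finset ι :=
  univ.filter fun b : ι => b ∉ W ∧ v ≤ val (M b) ∧ ∃ b' ∉ W, b' ≠ b ∧ val (M b') = val (M b)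

theorem length_pairs (L : List (ι × ι)) :
    (L.flatMap fun p => [p.1, p.2]).length = 2 * L.length := by
  induction L with
  | nil => rfl
  | cons p L ih =>
    rw [List.flatMap_cons, List.length_append, ih, List.length_cons]
    simp only [List.length_cons, List.length_nil]
    omega

theorem dis_length {L : List (ι × ι)} (hL : Dis L) : L.length ≤ Fintype.card ι := by
  have h1 : (L.flatMap fun p => [p.1, p.2]).length ≤ Fintype.card ι := hL.length_le_card
  rw [length_pairs] at h1
  omega

theorem dis_sub {L L' : List (ι × ι)} (h : L'.Sublist L) (hL : Dis L) : Dis L' :=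
  hL.sublist (h.flatMap _)

/-- a list of disjoint colliding pairs outside `W` -/
def Good (val : α → ℕ) (v : ℕ) (W : Finset ι) (M : ι → α) (L : List (ι × ι)) : Prop :=
  Dis L ∧ (∀ p ∈ L, p.1 ∉ W ∧ p.2 ∉ W) ∧ Cd (Eqv val v) M L

/-- If there are no `k` disjoint colliding pairs, less than `3 k` rows collide. -/
theorem card_hit_lt (val : α → ℕ) (v : ℕ) (W : Finset ι) (M : ι → α) (k : ℕ)
    (hk : ¬ ∃ L : List (ι × ι), L.length = k ∧ Good val v W M L) :
    (hit val v W M).card < 3 * k := by
  classical
  -- a longest list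
  obtain ⟨m, ⟨L, hLm, hLd, hLW, hLc⟩, hmax⟩ : ∃ m : ℕ, (∃ L : List (ι × ι), L.length = m ∧
      Good val v W M L) ∧ ∀ m' : ℕ, (∃ L : List (ι × ι),
      L.length = m' ∧ Good val v W M L) → m' ≤ m := by
    have h0 : ∃ m : ℕ, ∃ L : List (ι × ι), L.length = m ∧ Good val v W M L :=
      ⟨0, [], rfl, List.nodup_nil, by intro p hp; simp at hp, by intro p hp; simp at hp⟩
    have hb : ∀ m : ℕ, (∃ L : List (ι × ι), L.length = m ∧ Good val v W M L) →
        m ≤ Fintype.card ι := by
      rintro m ⟨L, h1, h2, -⟩
      rw [← h1]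
      exact dis_length h2
    obtain ⟨m0, hm0⟩ := h0
    have hm0' := hb m0 hm0
    refine ⟨Nat.findGreatest (fun m => ∃ L : List (ι × ι), L.length = m ∧ Good val v W M L)
        (Fintype.card ι),
        Nat.findGreatest_spec (P := fun m => ∃ L : List (ι × ι), L.length = m ∧
        Good val v W M L) hm0' hm0, fun m' hm' => Nat.le_findGreatest (hb m' hm') hm'⟩
  have hmk : m < k := by
    by_contra hc
    push Not at hc
    apply hk
    refine ⟨L.take k, ?_, dis_sub (List.take_sublist k L) hLd, fun p hp =>
      hLW p (List.mem_of_mem_take hp), fun p hp => hLc p (List.mem_of_mem_take hp)⟩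
    rw [List.length_take, hLm]
    omega
  -- the covered rows
  set U : Finset ι := (L.flatMap fun p => [p.1, p.2]).toFinset with hU
  have hUcard : U.card ≤ 2 * m := by
    refine le_trans (List.toFinset_card_le _) ?_
    rw [length_pairs, hLm]
  have hUmem : ∀ b, b ∈ U ↔ ∃ p ∈ L, b = p.1 ∨ b = p.2 := by
    intro b
    rw [hU, List.mem_toFinset, List.mem_flatMap]
    simp only [List.mem_cons, List.not_mem_nil, or_false]
  -- two uncovered rows do not collide
  have hnew : ∀ b c : ι, b ∉ W → c ∉ W → b ∉ U → c ∉ U → b ≠ c → v ≤ val (M b) →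
      val (M b) ≠ val (M c) := by
    intro b c hbW hcW hb hc hne hv hval
    have h3 := hmax (m + 1) ⟨(b, c) :: L, by rw [List.length_cons, hLm], ?_, ?_, ?_⟩
    · omega
    · rw [dis_cons]
      refine ⟨hne, fun q hq => ⟨?_, ?_, ?_, ?_⟩, hLd⟩
      · intro h; exact hb ((hUmem b).2 ⟨q, hq, Or.inl h⟩)
      · intro h; exact hb ((hUmem b).2 ⟨q, hq, Or.inr h⟩)
      · intro h; exact hc ((hUmem c).2 ⟨q, hq, Or.inl h⟩)
      · intro h; exact hc ((hUmem c).2 ⟨q, hq, Or.inr h⟩)
    · intro q hq
      rw [List.mem_cons] at hq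
      rcases hq with rfl | hq
      · exact ⟨hbW, hcW⟩
      · exact hLW q hq
    · intro q hq
      rw [List.mem_cons] at hq
      rcases hq with rfl | hq
      · exact ⟨hv, hval⟩
      · exact hLc q hq
  have hout : ((hit val v W M) \ U).card ≤ m := by
    have h1 : (((hit val v W M) \ U).image fun b => val (M b)) ⊆
        (L.map fun p => val (M p.1)).toFinset := by
      intro x hx
      rw [mem_image] at hx
      obtain ⟨b, hb, rfl⟩ := hx
      rw [mem_sdiff, hit, mem_filter] at hb
      obtain ⟨⟨-, hbW, hPb, b', hbW', hne, hf⟩, hbU⟩ := hb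
      by_cases hb' : b' ∈ U
      · obtain ⟨p, hp, hp'⟩ := (hUmem b').1 hb'
        rw [List.mem_toFinset, List.mem_map]
        refine ⟨p, hp, ?_⟩
        have h2 := hLc p hp
        rcases hp' with rfl | rfl
        · exact hf
        · rw [h2.2]; exact hf
      · exact absurd hf.symm (hnew b b' hbW hbW' hbU hb' (Ne.symm hne) hPb)
    have h2 : Set.InjOn (fun b => val (M b)) (((hit val v W M) \ U : Finset ι) : Set ι) := by
      intro b hb c hc hbc
      by_contra hne
      rw [mem_coe, mem_sdiff, hit, mem_filter] at hb hc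
      exact hnew b c hb.1.2.1 hc.1.2.1 hb.2 hc.2 hne hb.1.2.2.1 hbc
    calc _ = (((hit val v W M) \ U).image fun b => val (M b)).card :=
          (card_image_of_injOn h2).symm
      _ ≤ (L.map fun p => val (M p.1)).toFinset.card := card_le_card h1
      _ ≤ (L.map fun p => val (M p.1)).length := List.toFinset_card_le _
      _ = m := by rw [List.length_map, hLm]
  have h5 : (hit val v W M).card ≤ U.card + ((hit val v W M) \ U).card := by
    have h6 : hit val v W M ⊆ U ∪ ((hit val v W M) \ U) := by
      intro b hb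
      rw [mem_union, mem_sdiff]
      tauto
    exact (card_le_card h6).trans (card_union_le _ _)
  omega

end Pool.Agent.Lib.MP_5bc52d_co.TA.Coll

namespace Pool.Agent.Lib.MP_5bc52d_co.TA

open Finset

open Classical in
/-- Few functions `f`, fixed on `W`, have `3 k` rows with a value at least `v` which is the value of
another row. -/
theorem coll_pos (ι β : Type) [Fintype ι] [Fintype β] (val : β → ℕ) (v k : ℕ) (ρ : ℝ)
    (hρ0 : 0 ≤ ρ)
    (hρ : ((univ.filter fun p : β × β => v ≤ val p.1 ∧ val p.1 = val p.2).card : ℝ) ≤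
      ρ * (Fintype.card β : ℝ) ^ 2) (W : Finset ι) (f₀ : ι → β) :
    ((univ.filter fun f : ι → β => (∀ i ∈ W, f i = f₀ i) ∧
      3 * k ≤ (univ.filter fun b : ι => b ∉ W ∧ v ≤ val (f b) ∧
        ∃ b' ∉ W, b' ≠ b ∧ val (f b') = val (f b)).card).card : ℝ) ≤
      ((Fintype.card ι : ℝ) ^ 2 * ρ) ^ k * (Fintype.card β : ℝ) ^ (Fintype.card ι - W.card) := by
  set S := univ.filter fun f : ι → β => (∀ i ∈ W, f i = f₀ i) ∧
      3 * k ≤ (univ.filter fun b : ι => b ∉ W ∧ v ≤ val (f b) ∧
        ∃ b' ∉ W, b' ≠ b ∧ val (f b') = val (f b)).card with hS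
  have hR0 : 0 ≤ ((Fintype.card ι : ℝ) ^ 2 * ρ) ^ k *
      (Fintype.card β : ℝ) ^ (Fintype.card ι - W.card) := by positivity
  -- the empty case
  rcases Nat.eq_zero_or_pos (Fintype.card β) with hβ | hβ
  · rcases isEmpty_or_nonempty ι with hι | hι
    · rcases Nat.eq_zero_or_pos k with rfl | hk
      · have h1 : S.card ≤ 1 := by
          refine (card_le_univ _).trans ?_
          rw [Fintype.card_fun, Fintype.card_eq_zero (α := ι), pow_zero]
        have h2 : Fintype.card ι - W.card = 0 := by
          rw [Fintype.card_eq_zero (α := ι), Nat.zero_sub]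
        rw [pow_zero, one_mul, h2, pow_zero]
        exact_mod_cast h1
      · have h1 : S = ∅ := by
          rw [hS, filter_eq_empty_iff]
          rintro f - ⟨-, h⟩
          have h2 : (univ.filter fun b : ι => b ∉ W ∧ v ≤ val (f b) ∧
            ∃ b' ∉ W, b' ≠ b ∧ val (f b') = val (f b)).card ≤ Fintype.card ι := card_le_univ _
          rw [Fintype.card_eq_zero (α := ι)] at h2
          omega
        rw [h1, card_empty, Nat.cast_zero]
        exact hR0
    · have hβ' : IsEmpty β := Fintype.card_eq_zero_iff.1 hβ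
      have h1 : S = ∅ := by
        rw [eq_empty_iff_forall_notMem]
        intro f
        exact (hβ'.false (f hι.some)).elim
      rw [h1, card_empty, Nat.cast_zero]
      exact hR0
  · have ha0 : (0 : ℝ) < Fintype.card β := by exact_mod_cast hβ
    set T := (univ : Finset (ι → β)).filter (Coll.FE (Coll.Eqv val v) W f₀ k) with hT
    have hsub : S ⊆ T := by
      intro f hf
      rw [hS, mem_filter] at hf
      rw [hT, mem_filter]
      refine ⟨mem_univ _, hf.2.1, ?_⟩
      by_contra hc
      have h1 := Coll.card_hit_lt val v W f k hc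
      have h2 : Coll.hit val v W f = (univ.filter fun b : ι => b ∉ W ∧ v ≤ val (f b) ∧
          ∃ b' ∉ W, b' ≠ b ∧ val (f b') = val (f b)) := by
        ext b
        rw [Coll.hit, mem_filter]
      rw [h2] at h1
      omega
    have h1 : (S.card : ℝ) ≤ T.card := by exact_mod_cast card_le_card hsub
    have h2 := Coll.card_exists_coll (ι := ι) (Coll.Eqv val v) W f₀ k
    have h3 : (((univ : Finset (β × β)).filter fun p => Coll.Eqv val v p.1 p.2).card : ℝ) ≤
        ρ * (Fintype.card β : ℝ) ^ 2 := by
      have e : ((univ : Finset (β × β)).filter fun p => Coll.Eqv val v p.1 p.2) =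
          (univ.filter fun p : β × β => v ≤ val p.1 ∧ val p.1 = val p.2) := by
        ext p
        rw [mem_filter, mem_filter]
        exact Iff.rfl
      rw [e]
      exact hρ
    have h4 : (T.card : ℝ) * ((Fintype.card β : ℝ) * Fintype.card β) ^ k ≤
        ((Fintype.card ι : ℝ) * Fintype.card ι *
          ((univ : Finset (β × β)).filter fun p => Coll.Eqv val v p.1 p.2).card) ^ k *
          (Fintype.card β : ℝ) ^ (Fintype.card ι - W.card) := by
      rw [hT]
      exact_mod_cast h2
    have h5 : ((Fintype.card ι : ℝ) * Fintype.card ι *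
          ((univ : Finset (β × β)).filter fun p => Coll.Eqv val v p.1 p.2).card) ^ k ≤
        ((Fintype.card ι : ℝ) ^ 2 * ρ) ^ k * ((Fintype.card β : ℝ) * Fintype.card β) ^ k := by
      rw [← mul_pow]
      apply pow_le_pow_left₀ (by positivity)
      calc _ ≤ (Fintype.card ι : ℝ) * Fintype.card ι * (ρ * (Fintype.card β : ℝ) ^ 2) :=
            mul_le_mul_of_nonneg_left h3 (by positivity)
        _ = _ := by ring
    have hpos : (0 : ℝ) < ((Fintype.card β : ℝ) * Fintype.card β) ^ k := by positivity
    have h6 : (T.card : ℝ) * ((Fintype.card β : ℝ) * Fintype.card β) ^ k ≤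
        (((Fintype.card ι : ℝ) ^ 2 * ρ) ^ k * (Fintype.card β : ℝ) ^ (Fintype.card ι - W.card)) *
          ((Fintype.card β : ℝ) * Fintype.card β) ^ k := by
      refine h4.trans ?_
      calc _ ≤ (((Fintype.card ι : ℝ) ^ 2 * ρ) ^ k *
            ((Fintype.card β : ℝ) * Fintype.card β) ^ k) *
            (Fintype.card β : ℝ) ^ (Fintype.card ι - W.card) :=
            mul_le_mul_of_nonneg_right h5 (by positivity)
        _ = _ := by ring
    exact h1.trans (le_of_mul_le_mul_right h6 hpos)

theorem coll : CollLemma := fun ι β _ _ val v k ρ hρ0 hρ W f₀ =>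
  coll_pos ι β val v k ρ hρ0 hρ W f₀

end Pool.Agent.Lib.MP_5bc52d_co.TA
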