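import Mathlib
import Pool.Agent.Lib.MP_5bc52d_co.AA.Bad
import Pool.Agent.Lib.MP_5bc52d_co.TA.Graph

/-!
# Almost all layered orders have typical layers
-/

namespace Pool.Agent.Lib.MP_5bc52d_co.TA

open Finset AA

/-- the layers can be chosen typical -/
def GoodT (δ : ℝ) (I T z K F n : ℕ) (r : Fin n → Fin n → Prop) : Prop :=
  ∃ A B C : Finset (Fin n), Trip δ n (A, B, C) ∧
    (∀ x y, r x y → (x ∈ A ∧ y ∈ B) ∨ (x ∈ B ∧ y ∈ C) ∨ (x ∈ A ∧ y ∈ C)) ∧
    (∀ a ∈ A, ∀ c ∈ C, r a c) ∧ Typ r A B C I T z K F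

open Classical in
/-- Almost all layered orders have typical layers. -/
theorem typ_count (hg : GraphBound) (ht : TypBound) (δ ε : ℝ) (hδ : 0 < δ) (hε : 0 < ε)
    (I K F : ℕ) :
    ∃ N : ℕ, ∀ n ≥ N,
      ((Finset.univ.filter fun r : Fin n → Fin n → Prop =>
        Layered δ n r ∧
          ¬ GoodT δ I (3 * Nat.log 2 n) (Nat.log 2 n / 20) K F n r).card : ℝ) ≤
        ε * (Finset.univ.filter fun r : Fin n → Fin n → Prop => Layered δ n r).card := by
  set η : ℝ := min (1 / 2) (ε / 2) with hη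
  have hη0 : 0 < η := lt_min (by norm_num) (by positivity)
  have hη1 : η ≤ 1 / 2 := min_le_left _ _
  have hη2 : η ≤ ε / 2 := min_le_right _ _
  obtain ⟨N1, h1⟩ := hg δ (η / 2) 0 0 hδ (by positivity)
  obtain ⟨N2, h2⟩ := ht δ (η / 2) I K F hδ (by positivity)
  refine ⟨max (max N1 N2) 1, fun n hn => ?_⟩
  have hn1 : N1 ≤ n := le_trans (le_trans (le_max_left _ _) (le_max_left _ _)) hn
  have hn2 : N2 ≤ n := le_trans (le_trans (le_max_right _ _) (le_max_left _ _)) hn
  have hn3 : 1 ≤ n := le_trans (le_max_right _ _) hn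
  have hnpos : (0 : ℝ) < n := by exact_mod_cast hn3
  set T := 3 * Nat.log 2 n with hT
  set z := Nat.log 2 n / 20 with hz
  -- the sets
  set J : Finset (Finset (Fin n) × Finset (Fin n) × Finset (Fin n)) :=
    Finset.univ.filter fun t => Trip δ n t with hJ
  set isD : (Finset (Fin n) × Finset (Fin n) × Finset (Fin n)) →
      (Finset (Fin n × Fin n) × Finset (Fin n × Fin n)) → Prop := fun t E =>
    Deg (ltE t.1 t.2.1 t.2.2 E) t.1 t.2.1 t.2.2 (δ / 4 * n) ∧
      Com (ltE t.1 t.2.1 t.2.2 E) t.2.1 t.2.2 0 0 with hisD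
  set isT : (Finset (Fin n) × Finset (Fin n) × Finset (Fin n)) →
      (Finset (Fin n × Fin n) × Finset (Fin n × Fin n)) → Prop := fun t E =>
    Typ (ltE t.1 t.2.1 t.2.2 E) t.1 t.2.1 t.2.2 I T z K F with hisT
  set isG : (Finset (Fin n) × Finset (Fin n) × Finset (Fin n)) →
      (Finset (Fin n × Fin n) × Finset (Fin n × Fin n)) → Prop := fun t E =>
    isD t E ∧ isT t E with hisG
  set G := J.sigma fun t => (gr t).filter fun E => isG t E with hG
  set H := J.sigma fun t => (gr t).filter fun E => ¬ isG t E with hH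
  set Φ : (Σ _ : Finset (Fin n) × Finset (Fin n) × Finset (Fin n),
      (Finset (Fin n × Fin n) × Finset (Fin n × Fin n))) → (Fin n → Fin n → Prop) :=
    fun p => ltE p.1.1 p.1.2.1 p.1.2.2 p.2 with hΦ
  set R : Finset (Fin n → Fin n → Prop) := Finset.univ.filter fun r => Layered δ n r with hR
  -- bad triples are rare
  have hbad : (H.card : ℝ) ≤ η * ((G.card : ℝ) + H.card) := by
    have e1 : (G.card : ℝ) + H.card = ∑ t ∈ J, ((gr t).card : ℝ) := by
      rw [hG, hH, Finset.card_sigma, Finset.card_sigma]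
      push_cast
      rw [← Finset.sum_add_distrib]
      apply Finset.sum_congr rfl
      intro t _
      rw [← Finset.card_filter_add_card_filter_not (s := gr t) (fun E => isG t E)]
      push_cast
      rfl
    rw [e1, Finset.mul_sum, hH, Finset.card_sigma]
    push_cast
    apply Finset.sum_le_sum
    intro t ht
    rw [hJ, Finset.mem_filter] at ht
    obtain ⟨-, -, q1, q2, q3, q4, q5, q6⟩ := ht
    have g1 := h1 n hn1 t.1 t.2.1 t.2.2 q1 q2 q3 q4 q5 q6
    have g2 := h2 n hn2 t.1 t.2.1 t.2.2 q1 q2 q3 q4 q5 q6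
    have g3 : ((gr t).filter fun E => ¬ isG t E).card ≤
        ((gr t).filter fun E => ¬ isD t E).card + ((gr t).filter fun E => ¬ isT t E).card := by
      refine le_trans (Finset.card_le_card ?_) (Finset.card_union_le _ _)
      intro E hE
      rw [Finset.mem_filter] at hE
      rw [Finset.mem_union, Finset.mem_filter, Finset.mem_filter]
      by_cases h : isD t E
      · exact Or.inr ⟨hE.1, fun h' => hE.2 ⟨h, h'⟩⟩
      · exact Or.inl ⟨hE.1, h⟩
    have g4 : (((gr t).filter fun E => ¬ isG t E).card : ℝ) ≤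
        (((gr t).filter fun E => ¬ isD t E).card : ℝ) +
          (((gr t).filter fun E => ¬ isT t E).card : ℝ) := by
      exact_mod_cast g3
    have g1' : (((gr t).filter fun E => ¬ isD t E).card : ℝ) ≤
        η / 2 * (2 ^ (t.1.card * t.2.1.card) * 2 ^ (t.2.1.card * t.2.2.card)) := by
      refine le_trans (le_of_eq ?_) g1
      rfl
    have g2' : (((gr t).filter fun E => ¬ isT t E).card : ℝ) ≤
        η / 2 * (2 ^ (t.1.card * t.2.1.card) * 2 ^ (t.2.1.card * t.2.2.card)) := by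
      refine le_trans (le_of_eq ?_) g2
      rfl
    rw [card_gr]
    push_cast
    linarith
  have hinj : Set.InjOn Φ (G : Set _) := by
    rintro ⟨t, E⟩ hp ⟨t', E'⟩ hp' heq
    rw [Finset.mem_coe, hG, Finset.mem_sigma] at hp hp'
    obtain ⟨ht, hE⟩ := hp
    obtain ⟨ht', hE'⟩ := hp'
    simp only at ht hE ht' hE'
    rw [Finset.mem_filter] at hE hE' ht ht'
    have ht := ht.2
    have ht' := ht'.2
    obtain ⟨hEg, ⟨hED, -⟩, -⟩ := hE
    obtain ⟨hEg', ⟨hED', -⟩, -⟩ := hE'
    have heq' : ltE t.1 t.2.1 t.2.2 E = ltE t'.1 t'.2.1 t'.2.2 E' := heq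
    have hd : 0 < δ / 4 * n := by positivity
    have hne : t.1.Nonempty := by
      rw [← Finset.card_pos]
      have : (0 : ℝ) < t.1.card := lt_of_lt_of_le (by positivity) ht.2.2.2.2.1
      exact_mod_cast this
    have hne' : t'.1.Nonempty := by
      rw [← Finset.card_pos]
      have : (0 : ℝ) < t'.1.card := lt_of_lt_of_le (by positivity) ht'.2.2.2.2.1
      exact_mod_cast this
    have hl' := layR_ltE ht' E'
    rw [← heq'] at hl' hED'
    obtain ⟨a1, a2, a3⟩ := layers_eq (layR_ltE ht E) hl' hd hd hED hED' hne hne'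
    have htt : t = t' := Prod.ext a1 (Prod.ext a2 a3)
    subst htt
    have hEE : E = E' := graph_eq ht.2.1 ht.2.2.1 hEg hEg' heq'
    rw [hEE]
  have himR : ∀ p, p ∈ G → Φ p ∈ R := by
    intro p hp
    rw [hG, Finset.mem_sigma, hJ, Finset.mem_filter] at hp
    rw [hR, Finset.mem_filter]
    have hl := layR_ltE hp.1.2 p.2
    exact ⟨Finset.mem_univ _, p.1.1, p.1.2.1, p.1.2.2, hp.1.2, hl.rel, hl.full⟩
  have hGR : (G.card : ℝ) ≤ R.card := by
    have := Finset.card_le_card_of_injOn Φ (fun p hp => himR p hp) hinj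
    exact_mod_cast this
  have hHR : (H.card : ℝ) ≤ 2 * η * R.card := by
    have h3 : (H.card : ℝ) ≤ 2 * η * G.card := by
      have h4 : η * (H.card : ℝ) ≤ 1 / 2 * H.card :=
        mul_le_mul_of_nonneg_right hη1 (Nat.cast_nonneg _)
      nlinarith
    refine h3.trans (mul_le_mul_of_nonneg_left hGR (by positivity))
  have hle : (Finset.univ.filter fun r : Fin n → Fin n → Prop =>
        Layered δ n r ∧ ¬ GoodT δ I T z K F n r).card ≤ H.card := by
    refine le_trans (Finset.card_le_card ?_) (Finset.card_image_le (f := Φ))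
    intro r hr
    rw [Finset.mem_filter] at hr
    obtain ⟨t, ht, E, hE, hEr⟩ := exists_graph hr.2.1
    rw [Finset.mem_image]
    refine ⟨⟨t, E⟩, ?_, hEr⟩
    rw [hH, Finset.mem_sigma, hJ, Finset.mem_filter, Finset.mem_filter]
    refine ⟨⟨Finset.mem_univ _, ht⟩, hE, fun hg => hr.2.2 ?_⟩
    have hl := layR_ltE ht E
    rw [← hEr]
    exact ⟨t.1, t.2.1, t.2.2, ht, hl.rel, hl.full, hg.2⟩
  calc _ ≤ (H.card : ℝ) := by exact_mod_cast hle
    _ ≤ 2 * η * R.card := hHR
    _ ≤ ε * R.card := mul_le_mul_of_nonneg_right (by linarith) (Nat.cast_nonneg _)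

end Pool.Agent.Lib.MP_5bc52d_co.TA
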