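import Mathlib
import Pool.Agent.Lib.MP_5bc52d_co.TA.Skel

/-!
# Covering a set of columns by rows with unique numbers of neighbours
-/

open Finset

set_option linter.unusedSectionVars false

namespace Pool.Agent.Lib.MP_5bc52d_co.TA

open Pool.Agent.Lib.MP_5bc52d_co.Key Pool.Agent.Lib.MP_5bc52d_co.Cut

theorem mem_QO {V : Type*} {adj : V → V → Prop} {Y W D : Finset V} {y : V} :
    y ∈ QO adj Y W D ↔ y ∈ Y ∧ y ∉ D ∧ ∀ w ∈ W, ¬ adj w y := by
  classical
  rw [QO]
  exact @Finset.mem_filter _ _ _ _ _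

variable {P : Type*} [Fintype P] [DecidableEq P] [PartialOrder P]

/-- a set is connected if its elements in `X` have common neighbours and all others are
neighbours of elements of `X` -/
theorem cnn_of {U X Y : Finset P} (hU : U = X ∪ Y) (hX : X.Nonempty)
    (h1 : ∀ x ∈ X, ∀ x' ∈ X, x ≠ x' → ∃ y ∈ Y, (x < y ∨ y < x) ∧ (x' < y ∨ y < x'))
    (h2 : ∀ y ∈ Y, ∃ x ∈ X, x < y ∨ y < x) : LinTerm.Cnn U := by
  subst hU
  have key : ∀ S T : Finset P, S ∪ T = X ∪ Y → T.Nonempty → Disjoint S T →
      (∀ a ∈ S, ∀ b ∈ T, ¬ a < b ∧ ¬ b < a) → (∃ x ∈ X, x ∈ S) → False := by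
    rintro S T hST ⟨t, ht⟩ hd hno ⟨x, hxX, hxS⟩
    have hmem : ∀ y, y ∈ X ∨ y ∈ Y → y ∈ S ∨ y ∈ T := fun y hy => by
      rw [← Finset.mem_union, hST, Finset.mem_union]
      exact hy
    have hstep : ∀ a b, a ∈ S → (b ∈ X ∨ b ∈ Y) → (a < b ∨ b < a) → b ∈ S := by
      intro a b ha hb hab
      rcases hmem b hb with h | h
      · exact h
      · rcases hab with h' | h'
        · exact absurd h' (hno a ha b h).1
        · exact absurd h' (hno a ha b h).2
    have hXS : ∀ x' ∈ X, x' ∈ S := by
      intro x' hx'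
      by_cases hxx : x = x'
      · exact hxx ▸ hxS
      · obtain ⟨y, hy, hxy, hx'y⟩ := h1 x hxX x' hx' hxx
        exact hstep y x' (hstep x y hxS (Or.inr hy) hxy) (Or.inl hx') hx'y.symm
    have htU : t ∈ X ∪ Y := by
      rw [← hST]
      exact Finset.mem_union_right _ ht
    have htS : t ∈ S := by
      rcases Finset.mem_union.mp htU with h | h
      · exact hXS t h
      · obtain ⟨x', hx', hxt⟩ := h2 t h
        exact hstep x' t (hXS x' hx') (Or.inr h) hxt
    exact Finset.disjoint_left.mp hd htS ht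
  refine ⟨hX.mono Finset.subset_union_left, fun S T hST hS hT hd hno => ?_⟩
  obtain ⟨x, hx⟩ := hX
  have hxU : x ∈ S ∪ T := by
    rw [hST]
    exact Finset.mem_union_left _ hx
  rcases Finset.mem_union.mp hxU with h | h
  · exact key S T hST hT hd hno ⟨x, hx, h⟩
  · exact key T S (by rw [Finset.union_comm]; exact hST) hS hd.symm
      (fun a ha b hb => ⟨(hno b hb a ha).2, (hno b hb a ha).1⟩) ⟨x, hx, h⟩

/-- **D0.** -/
theorem one_side {ω : P → ℕ} (hω : Function.Injective ω) : OneSide ω := by
  classical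
  intro k U X hX hC h
  have hlow : Low (LinTerm.OneSide.rl (P := P)) U := fun a ha b hb c hc hab hbc =>
    (hX a ha b hb hab).2 (hX b hb c hc hbc).1
  have hmx : ∀ x, x ∈ LinTerm.OneSide.Mx (Cut.wt ω (!k)) U ↔ x ∈ U ∧ Mn ω k U x := by
    intro x
    rw [LinTerm.OneSide.mem_Mx, Mn]
    refine and_congr Iff.rfl (forall₃_congr fun a _ _ => ?_)
    rw [wt_not, Pi.neg_apply, Pi.neg_apply, neg_lt_neg_iff]
  refine LinTerm.OneSide.exists_word hlow hω (!k) hC ?_
  by_cases hT : LinTerm.OneSide.Tp U = ∅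
  · right
    rw [hT]
    exact Finset.disjoint_empty_right _
  · rcases h with h | h
    · right
      rw [Finset.disjoint_left]
      intro x hx hx'
      obtain ⟨hxU, a, ha, hax⟩ := LinTerm.OneSide.mem_Tp.mp hx'
      exact (hX a ha x hxU hax).2 (h x hxU ((hmx x).mp hx).2)
    · left
      intro x hx
      obtain ⟨hxU, hxm⟩ := (hmx x).mp hx
      rw [LinTerm.OneSide.mem_Tp]
      refine ⟨hxU, ?_⟩
      by_contra hno
      push Not at hno
      have hne : (U.erase x).Nonempty := by
        obtain ⟨t, ht⟩ := Finset.nonempty_iff_ne_empty.mpr hT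
        obtain ⟨htU, a, ha, hat⟩ := LinTerm.OneSide.mem_Tp.mp ht
        refine ⟨t, Finset.mem_erase.mpr ⟨?_, htU⟩⟩
        rintro rfl
        exact hno a ha hat
      have h1 := hC.2 {x} (U.erase x) (by
        rw [Finset.union_comm, ← Finset.insert_eq_of_mem hxU, ← Finset.insert_erase hxU]
        ext y
        simp only [Finset.mem_union, Finset.mem_erase, Finset.mem_singleton, Finset.mem_insert]
        tauto) (Finset.singleton_nonempty x) hne (by
        rw [Finset.disjoint_singleton_left]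
        exact Finset.notMem_erase x U)
      push Not at h1
      obtain ⟨a, ha, b, hb, hab⟩ := h1
      rw [Finset.mem_singleton] at ha
      subst ha
      have hbU := Finset.mem_of_mem_erase hb
      have h2 : a < b := by
        by_contra h3
        exact hno b hbU (hab h3)
      exact h a hxU hxm (hX a hxU b hbU h2).1

section cover
variable {d : Bool} {adj : P → P → Prop} {X Y D W : Finset P}

/-- the rest after the rows in `W` -/
noncomputable def UW (adj : P → P → Prop) (X Y D W : Finset P) : Finset P :=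
  (X \ W) ∪ QO adj Y W D

theorem mem_UW {y : P} : y ∈ UW adj X Y D W ↔
    (y ∈ X ∧ y ∉ W) ∨ (y ∈ Y ∧ y ∉ D ∧ ∀ w ∈ W, ¬ adj w y) := by
  rw [UW, Finset.mem_union, Finset.mem_sdiff, mem_QO]

/-- the conditions on the relation -/
def Rel (d : Bool) (adj : P → P → Prop) (X Y D : Finset P) : Prop :=
  ∀ x ∈ X ∪ (Y \ D), ∀ y ∈ X ∪ (Y \ D), dr d x y ↔ x ∈ X ∧ y ∈ Y ∧ adj x y

theorem UW_sub : UW adj X Y D W ⊆ X ∪ (Y \ D) := by
  intro y hy
  rw [Finset.mem_union, Finset.mem_sdiff]
  rcases mem_UW.mp hy with h | h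
  · exact Or.inl h.1
  · exact Or.inr ⟨h.1, h.2.1⟩

theorem Rel.comp (hR : Rel d adj X Y D) {u v : P} (hu : u ∈ X ∪ (Y \ D))
    (hv : v ∈ X ∪ (Y \ D)) :
    (u < v ∨ v < u) ↔ (u ∈ X ∧ v ∈ Y ∧ adj u v) ∨ (v ∈ X ∧ u ∈ Y ∧ adj v u) := by
  have h1 := hR u hu v hv
  have h2 := hR v hv u hu
  cases d
  · change (v < u ↔ _) at h1
    change (u < v ↔ _) at h2
    rw [h1, h2, or_comm]
  · change (u < v ↔ _) at h1
    change (v < u ↔ _) at h2
    rw [h1, h2]

open Classical in
/-- the neighbours of `x` in the rest -/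
noncomputable def Nb (adj : P → P → Prop) (Y D W : Finset P) (x : P) : Finset P :=
  (QO adj Y W D).filter fun y => adj x y

theorem mem_Nb {x y : P} : y ∈ Nb adj Y D W x ↔ y ∈ QO adj Y W D ∧ adj x y := by
  classical
  rw [Nb, Finset.mem_filter]

/-- the star of `x` -/
noncomputable def star (adj : P → P → Prop) (Y D W : Finset P) (x : P) : Finset P :=
  insert x (Nb adj Y D W x)

theorem mem_star {x y : P} : y ∈ star adj Y D W x ↔ y = x ∨ (y ∈ QO adj Y W D ∧ adj x y) := by
  rw [star, Finset.mem_insert, mem_Nb]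

theorem QO_sub : QO adj Y W D ⊆ Y := fun _ hy => (mem_QO.mp hy).1

theorem card_star (hd : Disjoint X Y) {x : P} (hx : x ∈ X) :
    (star adj Y D W x).card = (Nb adj Y D W x).card + 1 := by
  rw [star, Finset.card_insert_of_notMem]
  intro h
  exact Finset.disjoint_left.mp hd hx (QO_sub (mem_Nb.mp h).1)

theorem star_sub {x : P} (hx : x ∈ X) (hxW : x ∉ W) :
    star adj Y D W x ⊆ UW adj X Y D W := by
  intro y hy
  rcases mem_star.mp hy with h | h
  · subst h
    exact mem_UW.mpr (Or.inl ⟨hx, hxW⟩)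
  · exact mem_UW.mpr (Or.inr (mem_QO.mp h.1))

theorem UW_sdiff_star (hd : Disjoint X Y) {b : P} (hb : b ∈ X) :
    UW adj X Y D W \ star adj Y D W b = UW adj X Y D (insert b W) := by
  ext y
  rw [Finset.mem_sdiff, mem_UW, mem_UW, mem_star, mem_QO]
  constructor
  · rintro ⟨h1, h2⟩
    rw [not_or] at h2
    rcases h1 with h | h
    · exact Or.inl ⟨h.1, fun hy => (Finset.mem_insert.mp hy).elim h2.1 h.2⟩
    · refine Or.inr ⟨h.1, h.2.1, fun w hw => ?_⟩
      rcases Finset.mem_insert.mp hw with hw | hw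
      · subst hw
        exact fun ha => h2.2 ⟨h, ha⟩
      · exact h.2.2 w hw
  · rintro (⟨h1, h2⟩ | ⟨h1, h2, h3⟩)
    · rw [Finset.mem_insert, not_or] at h2
      refine ⟨Or.inl ⟨h1, h2.2⟩, ?_⟩
      rintro (h | h)
      · exact h2.1 h
      · exact Finset.disjoint_left.mp hd h1 h.1.1
    · refine ⟨Or.inr ⟨h1, h2, fun w hw => h3 w (Finset.mem_insert_of_mem hw)⟩, ?_⟩
      rintro (h | h)
      · subst h
        exact Finset.disjoint_left.mp hd hb h1
      · exact h3 b (Finset.mem_insert_self b W) h.2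

theorem star_cl (hd : Disjoint X Y) (hR : Rel d adj X Y D) {b : P} (hb : b ∈ X) (hbW : b ∉ W) :
    Cl d (UW adj X Y D W) (star adj Y D W b) := by
  refine ⟨star_sub hb hbW, fun x hx y hy hxy => ?_⟩
  have hxU := UW_sub (star_sub (adj := adj) (Y := Y) (D := D) hb hbW hx)
  obtain ⟨h1, h2, h3⟩ := (hR x hxU y (UW_sub hy)).mp hxy
  rcases mem_star.mp hx with h | h
  · subst h
    refine mem_star.mpr (Or.inr ⟨?_, h3⟩)
    rcases mem_UW.mp hy with h | h
    · exact absurd h2 (Finset.disjoint_left.mp hd h.1)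
    · exact mem_QO.mpr h
  · exact absurd (QO_sub h.1) (Finset.disjoint_left.mp hd h1)

theorem star_nz {ω : P → ℕ} (h1 : OneSide ω) (hd : Disjoint X Y) (hR : Rel d adj X Y D) {b : P}
    (hb : b ∈ X) (hbW : b ∉ W) : Nz ω (star adj Y D W b) := by
  classical
  set S := star adj Y D W b with hS
  have hsub : S ⊆ X ∪ (Y \ D) := (star_sub hb hbW).trans UW_sub
  have hbS : b ∈ S := mem_star.mpr (Or.inl rfl)
  -- the relations in the star
  have hcomp : ∀ u ∈ S, ∀ v ∈ S, (u < v ∨ v < u) → (u = b ∧ v ≠ b) ∨ (v = b ∧ u ≠ b) := by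
    intro u hu v hv huv
    rcases (hR.comp (hsub hu) (hsub hv)).mp huv with h | h
    · left
      refine ⟨?_, ?_⟩
      · rcases mem_star.mp hu with h' | h'
        · exact h'
        · exact absurd (QO_sub h'.1) (Finset.disjoint_left.mp hd h.1)
      · rintro rfl
        exact Finset.disjoint_left.mp hd hb h.2.1
    · right
      refine ⟨?_, ?_⟩
      · rcases mem_star.mp hv with h' | h'
        · exact h'
        · exact absurd (QO_sub h'.1) (Finset.disjoint_left.mp hd h.1)
      · rintro rfl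
        exact Finset.disjoint_left.mp hd hb h.2.1
  have hleaf : ∀ y ∈ S, y ≠ b → (b < y ∨ y < b) := by
    intro y hy hne
    rcases mem_star.mp hy with h | h
    · exact absurd h hne
    · exact (hR.comp (hsub hbS) (hsub hy)).mpr (Or.inl ⟨hb, QO_sub h.1, h.2⟩)
  have hC : LinTerm.Cnn S := by
    refine cnn_of (X := {b}) (Y := S.erase b) ?_ (Finset.singleton_nonempty b) ?_ ?_
    · rw [← Finset.insert_eq, Finset.insert_erase hbS]
    · intro x hx x' hx' hne
      rw [Finset.mem_singleton] at hx hx'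
      exact absurd (hx.trans hx'.symm) hne
    · intro y hy
      rw [Finset.mem_erase] at hy
      exact ⟨b, Finset.mem_singleton_self b, hleaf y hy.2 hy.1⟩
  -- local minima
  have hmin : (∀ x ∈ S, Mn ω true S x → x = b) ∨ (∀ x ∈ S, Mn ω true S x → x ≠ b) := by
    by_cases h : Mn ω true S b
    · left
      intro x hx hxm
      by_contra hne
      have h2 := h x hx (hleaf x hx hne)
      have h3 := hxm b hbS (hleaf x hx hne).symm
      omega
    · right
      rintro x hx hxm rfl
      exact h hxm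
  -- which elements are below
  cases d
  · -- the leaves are below
    refine h1 true S (S.erase b) ?_ hC ?_
    · intro x hx y hy hxy
      have h2 := (hR y (hsub hy) x (hsub hx)).mp hxy
      have hyb : y = b := by
        rcases mem_star.mp hy with h' | h'
        · exact h'
        · exact absurd (QO_sub h'.1) (Finset.disjoint_left.mp hd h2.1)
      subst hyb
      exact ⟨Finset.mem_erase.mpr ⟨fun h => by rw [h] at hxy; exact lt_irrefl _ hxy, hx⟩,
        Finset.notMem_erase _ _⟩
    · rcases hmin with h | h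
      · right
        intro x hx hxm
        rw [h x hx hxm]
        exact Finset.notMem_erase _ _
      · left
        intro x hx hxm
        exact Finset.mem_erase.mpr ⟨h x hx hxm, hx⟩
  · -- the leaves are above
    refine h1 true S {b} ?_ hC ?_
    · intro x hx y hy hxy
      have h2 := (hR x (hsub hx) y (hsub hy)).mp hxy
      have hxb : x = b := by
        rcases mem_star.mp hx with h' | h'
        · exact h'
        · exact absurd (QO_sub h'.1) (Finset.disjoint_left.mp hd h2.1)
      subst hxb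
      refine ⟨Finset.mem_singleton_self _, ?_⟩
      rw [Finset.mem_singleton]
      rintro rfl
      exact lt_irrefl _ hxy
    · rcases hmin with h | h
      · left
        intro x hx hxm
        exact Finset.mem_singleton.mpr (h x hx hxm)
      · right
        intro x hx hxm hx'
        exact h x hx hxm (Finset.mem_singleton.mp hx')

/-- a connected closed set with the size of the star is the star -/
theorem star_unique (hd : Disjoint X Y) (hR : Rel d adj X Y D) {b : P} (hb : b ∈ X)
    (hbW : b ∉ W) (hpos : (Nb adj Y D W b).card ≠ 0)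
    (huniq : ∀ b' ∈ X, b' ∉ W → b' ≠ b → (Nb adj Y D W b').card ≠ (Nb adj Y D W b).card)
    (hun : ∀ x ∈ X, x ∉ W → ∀ x' ∈ X, x' ∉ W → x ≠ x' →
      (Nb adj Y D W b).card ≤ (Nb adj Y D W x ∪ Nb adj Y D W x').card)
    {F : Finset P} (hF : Cl d (UW adj X Y D W) F) (hC : LinTerm.Cnn F)
    (hcard : F.card = (star adj Y D W b).card) : F = star adj Y D W b := by
  classical
  rw [card_star hd hb] at hcard
  have hsub : ∀ y ∈ F, y ∈ X ∪ (Y \ D) := fun y hy => UW_sub (hF.1 hy)
  have hNb : ∀ x ∈ F, x ∈ X → Nb adj Y D W x ⊆ F := by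
    intro x hx hxX y hy
    obtain ⟨hy1, hy2⟩ := mem_Nb.mp hy
    have hyU : y ∈ UW adj X Y D W := mem_UW.mpr (Or.inr (mem_QO.mp hy1))
    exact hF.2 x hx y hyU ((hR x (hsub x hx) y (UW_sub hyU)).mpr ⟨hxX, QO_sub hy1, hy2⟩)
  have hXW : ∀ x ∈ F, x ∈ X → x ∉ W := by
    intro x hx hxX
    rcases mem_UW.mp (hF.1 hx) with h | h
    · exact h.2
    · exact absurd h.1 (Finset.disjoint_left.mp hd hxX)
  have hQ : ∀ y ∈ F, y ∉ X → y ∈ QO adj Y W D := by
    intro y hy hyX
    rcases mem_UW.mp (hF.1 hy) with h | h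
    · exact absurd h.1 hyX
    · exact mem_QO.mpr h
  -- an element of `F` outside `X` is adjacent to an element of `F` in `X`
  have hadj : ∀ y ∈ F, y ∉ X → 1 < F.card → ∃ x ∈ F, x ∈ X ∧ adj x y := by
    intro y hy hyX hc
    by_contra hno
    push Not at hno
    have hne : (F.erase y).Nonempty := by
      rw [← Finset.card_pos, Finset.card_erase_of_mem hy]
      omega
    refine hC.2 {y} (F.erase y) ?_ (Finset.singleton_nonempty y) hne ?_ ?_
    · rw [← Finset.insert_eq, Finset.insert_erase hy]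
    · rw [Finset.disjoint_singleton_left]
      exact Finset.notMem_erase y F
    · intro a ha c hc
      rw [Finset.mem_singleton] at ha
      subst ha
      have hcF := Finset.mem_of_mem_erase hc
      rw [← not_or, hR.comp (hsub a hy) (hsub c hcF)]
      rintro (h | h)
      · exact hyX h.1
      · exact hno c hcF h.1 h.2.2
  have hc1 : 1 < F.card := by omega
  -- there is a row
  obtain ⟨x, hxF, hxX⟩ : ∃ x ∈ F, x ∈ X := by
    obtain ⟨y, hy⟩ := hC.1
    by_cases hyX : y ∈ X
    · exact ⟨y, hy, hyX⟩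
    · obtain ⟨x, hx, hxX, -⟩ := hadj y hy hyX hc1
      exact ⟨x, hx, hxX⟩
  -- only one row
  have hone : ∀ x' ∈ F, x' ∈ X → x' = x := by
    intro x' hx'F hx'X
    by_contra hne
    have h1 := hun x' hx'X (hXW x' hx'F hx'X) x hxX (hXW x hxF hxX) hne
    have h2 : insert x' (insert x (Nb adj Y D W x' ∪ Nb adj Y D W x)) ⊆ F := by
      rw [Finset.insert_subset_iff, Finset.insert_subset_iff]
      exact ⟨hx'F, hxF, Finset.union_subset (hNb x' hx'F hx'X) (hNb x hxF hxX)⟩
    have hnot : ∀ u ∈ X, u ∉ Nb adj Y D W x' ∪ Nb adj Y D W x := by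
      intro u hu h
      rcases Finset.mem_union.mp h with h | h
      · exact Finset.disjoint_left.mp hd hu (QO_sub (mem_Nb.mp h).1)
      · exact Finset.disjoint_left.mp hd hu (QO_sub (mem_Nb.mp h).1)
    have h3 := Finset.card_le_card h2
    rw [Finset.card_insert_of_notMem, Finset.card_insert_of_notMem (hnot x hxX)] at h3
    · omega
    · rw [Finset.mem_insert, not_or]
      exact ⟨hne, hnot x' hx'X⟩
  have hFx : F = star adj Y D W x := by
    apply Finset.Subset.antisymm
    · intro y hy
      rw [mem_star]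
      by_cases hyX : y ∈ X
      · exact Or.inl (hone y hy hyX)
      · obtain ⟨x', hx', hx'X, hx'y⟩ := hadj y hy hyX hc1
        rw [hone x' hx' hx'X] at hx'y
        exact Or.inr ⟨hQ y hy hyX, hx'y⟩
    · rw [star, Finset.insert_subset_iff]
      exact ⟨hxF, hNb x hxF hxX⟩
  by_cases hxb : x = b
  · rw [hFx, hxb]
  · exfalso
    have h1 := huniq x hxX (hXW x hxF hxX) hxb
    rw [hFx, card_star hd hxX] at hcard
    omega

/-- **D1.** -/
theorem cover {ω : P → ℕ} (h1 : OneSide ω) {Φ : Finset P → Finset ℕ → Prop}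
    (hΦ : Peeling ω Φ) : Cover ω Φ := by
  obtain rfl : ‹DecidableEq P› = (fun a b => Classical.propDecidable (a = b)) :=
    Subsingleton.elim _ _
  classical
  intro d adj X₀ Y₀ FR I T z K F hN hB X D R hX hD hXY hRX hFR hrel Z hZ hZc hend a ha
  have key : ∀ (j : ℕ) (W : Finset P), W ⊆ R → W.card + j ≤ I → ∀ Df : Finset ℕ,
      Df.card ≤ 2 ^ W.card → Φ (UW adj X Y₀ D W) Df → ∀ Z' ⊆ QO adj Y₀ W D, Z'.card ≤ j * z →
      (∀ y ∈ Z, y ∉ Z' → ∃ w ∈ W, adj w y) → False := by
    intro j
    induction j with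
    | zero =>
      intro W hW hWj Df hDf hΦD Z' hZ' hZ'c hcov
      rw [Nat.zero_mul, Nat.le_zero, Finset.card_eq_zero] at hZ'c
      subst hZ'c
      exact hΦ.stop _ _ hΦD (hend W hW hWj (fun y hy => hcov y hy (Finset.notMem_empty y)))
    | succ j ih =>
      intro W hW hWj Df hDf hΦD Z' hZ' hZ'c hcov
      have hWX : W ⊆ X₀ := (hW.trans hRX).trans hX
      obtain ⟨Z₁, hZ₁, hZ₁c⟩ := Finset.exists_subset_card_eq (min_le_right z Z'.card)
      obtain ⟨S, hS, hSc, hSZ, hSu⟩ := hB.uniq W hWX D (by omega) hD R hFR Z₁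
        (hZ₁.trans hZ') (by rw [hZ₁c]; exact min_le_left _ _)
      set U := UW adj X Y₀ D W with hU
      set deg : P → ℕ := fun x => (Nb adj Y₀ D W x).card with hdeg
      have hSX : ∀ b ∈ S, b ∈ X ∧ b ∉ W := fun b hb =>
        ⟨hRX (Finset.mem_sdiff.mp (hS hb)).1, (Finset.mem_sdiff.mp (hS hb)).2⟩
      have hSu' : ∀ b ∈ S, ∀ b' ∈ X, b' ∉ W → b' ≠ b → deg b' ≠ deg b := by
        intro b hb b' hb' hb'W hne
        exact hSu b hb b' (Finset.mem_sdiff.mpr ⟨hX hb', hb'W⟩) hne
      -- choose `b`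
      obtain ⟨b, hbS, hbad⟩ : ∃ b ∈ S, deg b ∉ insert 0 (Df.image (fun a => a - 1) ∪
          Df.image (fun a => U.card - a - 1)) := by
        by_contra hno
        push Not at hno
        have h2 := Finset.card_le_card_of_injOn deg hno (by
          intro x hx y hy hxy
          by_contra hne
          exact hSu' y hy x (hSX x hx).1 (hSX x hx).2 hne hxy)
        have h3 := Finset.card_insert_le 0 (Df.image (fun a => a - 1) ∪
          Df.image (fun a => U.card - a - 1))
        have h4 := Finset.card_union_le (Df.image (fun a => a - 1))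
          (Df.image (fun a => U.card - a - 1))
        have h5 := Finset.card_image_le (s := Df) (f := fun a => a - 1)
        have h6 := Finset.card_image_le (s := Df) (f := fun a => U.card - a - 1)
        have h7 := hN.forb
        have h8 : 2 ^ W.card ≤ 2 ^ I := Nat.pow_le_pow_right (by norm_num) (by omega)
        rw [pow_succ] at h7
        omega
      rw [Finset.mem_insert, Finset.mem_union, Finset.mem_image, Finset.mem_image, not_or,
        not_or] at hbad
      obtain ⟨hb0, hb1, hb2⟩ := hbad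
      push Not at hb1 hb2
      obtain ⟨hbX, hbW⟩ := hSX b hbS
      have hcs : (star adj Y₀ D W b).card = deg b + 1 := card_star hXY hbX
      obtain ⟨D', hD'c, hD'⟩ := hΦ.step d U (star adj Y₀ D W b) Df hΦD
        (star_cl hXY hrel hbX hbW) (star_nz h1 hXY hrel hbX hbW)
        (fun F' hF' hC' hc' => star_unique hXY hrel hbX hbW hb0 (hSu' b hbS) (by
          intro x hx hxW x' hx' hx'W hne
          have h2 := hB.union W hWX D (by omega) hD x (Finset.mem_sdiff.mpr ⟨hX hx, hxW⟩) x'
            (Finset.mem_sdiff.mpr ⟨hX hx', hx'W⟩) b (Finset.mem_sdiff.mpr ⟨hX hbX, hbW⟩) hne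
          refine le_trans (le_of_eq ?_) (h2.trans (le_of_eq ?_))
          · rfl
          · rw [Nb, Nb, ← Finset.filter_or]) hF' hC' hc')
        (by
          intro a ha
          rw [hcs]
          have h2 := hb1 a ha
          have h3 := hb2 a ha
          omega)
      rw [hU, UW_sdiff_star hXY hbX] at hD'
      have hcW : (insert b W).card = W.card + 1 := Finset.card_insert_of_notMem hbW
      refine ih (insert b W) (Finset.insert_subset_iff.mpr
        ⟨(Finset.mem_sdiff.mp (hS hbS)).1, hW⟩) (by omega) D' ?_ hD'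
        ((Z' \ Z₁).filter fun y => ¬ adj b y) ?_ ?_ ?_
      · rw [hcW, pow_succ]
        omega
      · intro y hy
        obtain ⟨hy1, hy2⟩ := Finset.mem_filter.mp hy
        have h2 := mem_QO.mp (hZ' (Finset.mem_sdiff.mp hy1).1)
        refine mem_QO.mpr ⟨h2.1, h2.2.1, fun w hw => ?_⟩
        rcases Finset.mem_insert.mp hw with h | h
        · exact h ▸ hy2
        · exact h2.2.2 w h
      · refine (Finset.card_filter_le _ _).trans ?_
        have h2 := Finset.card_sdiff_of_subset hZ₁
        rw [Nat.succ_mul] at hZ'c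
        rcases le_total z Z'.card with h | h
        · rw [min_eq_left h] at hZ₁c
          omega
        · rw [min_eq_right h] at hZ₁c
          omega
      · intro y hy hyn
        by_cases hby : adj b y
        · exact ⟨b, Finset.mem_insert_self b W, hby⟩
        · by_cases hyZ₁ : y ∈ Z₁
          · exact ⟨b, Finset.mem_insert_self b W, hSZ b hbS y hyZ₁⟩
          · by_cases hyZ' : y ∈ Z'
            · exact absurd (Finset.mem_filter.mpr ⟨Finset.mem_sdiff.mpr ⟨hyZ', hyZ₁⟩, hby⟩) hyn
            · obtain ⟨w, hw, hwy⟩ := hcov y hy hyZ'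
              exact ⟨w, Finset.mem_insert_of_mem hw, hwy⟩
  have hU0 : UW adj X Y₀ D ∅ = X ∪ (Y₀ \ D) := by
    ext y
    rw [mem_UW, Finset.mem_union, Finset.mem_sdiff]
    simp
  refine key I ∅ (Finset.empty_subset _) (by simp) {a} (by simp) (hU0 ▸ ha) Z ?_ hZc
    (fun y hy hyn => absurd hy hyn)
  intro y hy
  have h2 := Finset.mem_sdiff.mp (hZ hy)
  exact mem_QO.mpr ⟨h2.1, h2.2, fun w hw => absurd hw (Finset.notMem_empty w)⟩

end cover

end Pool.Agent.Lib.MP_5bc52d_co.TA
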