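import Mathlib
import Pool.Agent.Lib.MP_5bc52d_co.AA.Final
import Pool.Agent.Lib.MP_5bc52d_co.TA.CountT

/-!
# Almost all posets with three layers are irreducible for every labelling: the final count
-/

namespace Pool.Agent.Lib.MP_5bc52d_co.TA

open Finset AA Cut

/-- The generating function of the partial order `r` on `Fin n` with the labels `w`. -/
noncomputable def GenL {n : ℕ} (r : Fin n → Fin n → Prop) (w : Fin n → ℕ) : R :=
  fun m : ℕ →₀ ℕ =>
    ((Nat.card {f : Fin n → ℕ //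
      (∀ a b : Fin n, r a b → f a ≤ f b ∧ (w b < w a → f a < f b)) ∧
        ∑ i : Fin n, Finsupp.single (f i) 1 = m} : ℕ) : ℚ)

section
variable {Q : Subring R} (hQ : ∀ F : R, F ∈ Q ↔ IsQS F)

open Classical in
/-- The deterministic part: typical posets with three layers are irreducible for all labels. -/
def Det : Prop :=
  ∃ N I K F : ℕ, ∀ n ≥ N, ∀ (V : Type) [Fintype V] [DecidableEq V] [PartialOrder V]
    (A B C : Finset V), Lay A B C → A.Nonempty → B.Nonempty → C.Nonempty →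
    Typ (fun x y : V => x < y) A B C I (3 * Nat.log 2 n) (Nat.log 2 n / 20) K F →
    ∀ w : V → ℕ, Function.Injective w → Irreducible (GamQ hQ w (Finset.univ : Finset V))

/-- all labels give an irreducible generating function -/
def IrrL (Q : Subring R) {n : ℕ} (r : Fin n → Fin n → Prop) : Prop :=
  ∀ w : Fin n → ℕ, Function.Injective w → ∃ G : Q, (G : R) = GenL r w ∧ Irreducible G

theorem gam_pos {n : ℕ} {r : Fin n → Fin n → Prop} (h1 : ∀ x, ¬ r x x)
    (h2 : ∀ x y z, r x y → r y z → r x z) (w : Fin n → ℕ) :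
    letI := posOrder h1 h2
    Gam (fun x : Pos r => w x) (Finset.univ : Finset (Pos r)) = GenL r w := by
  let _ := posOrder h1 h2
  funext m
  change (Nat.card (Sol _ (Finset.univ : Finset (Pos r)) m) : ℚ) = (Nat.card _ : ℚ)
  congr 1
  refine Nat.card_congr ⟨fun g => ⟨fun x => g.1 x, ?_⟩, fun f => ⟨fun x => f.1 x, ?_⟩,
    ?_, ?_⟩
  · obtain ⟨g, hg⟩ := g
    refine ⟨fun a b hab => ?_, ?_⟩
    · exact hg.2.1 a (Finset.mem_univ _) b (Finset.mem_univ _) hab
    · exact hg.2.2
  · obtain ⟨f, hf⟩ := f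
    refine ⟨fun p hp => absurd (Finset.mem_univ p) hp, fun a _ b _ hab => ?_, ?_⟩
    · exact hf.1 a b hab
    · exact hf.2
  · intro g
    rfl
  · intro f
    rfl

theorem GoodT.irr (n N I K F : ℕ) (hD : ∀ n ≥ N, ∀ (V : Type) [Fintype V] [DecidableEq V]
    [PartialOrder V] (A B C : Finset V), Lay A B C → A.Nonempty → B.Nonempty → C.Nonempty →
    Typ (fun x y : V => x < y) A B C I (3 * Nat.log 2 n) (Nat.log 2 n / 20) K F →
    ∀ w : V → ℕ, Function.Injective w → Irreducible (GamQ hQ w (Finset.univ : Finset V)))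
    (hn : N ≤ n) (hn' : 1 ≤ n) {δ : ℝ} (hδ : 0 < δ) {r : Fin n → Fin n → Prop}
    (hr : GoodT δ I (3 * Nat.log 2 n) (Nat.log 2 n / 20) K F n r) : IrrL Q r := by
  obtain ⟨A, B, C, hT, hr1, hr2, ht⟩ := hr
  intro w hw
  have hlay : LayR r A B C := ⟨hT.1, hT.2.1, hT.2.2.1, hT.2.2.2.1, hr1, hr2⟩
  have ha : ∀ x, ¬ r x x := layR_irrefl hlay
  have hb : ∀ x y z, r x y → r y z → r x z := layR_trans hlay
  let _ := posOrder ha hb
  have hnpos : (0 : ℝ) < n := by exact_mod_cast hn'
  have hne : ∀ S : Finset (Fin n), δ * n ≤ S.card → S.Nonempty := by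
    intro S hS
    rw [← Finset.card_pos]
    have : (0 : ℝ) < S.card := lt_of_lt_of_le (by positivity) hS
    exact_mod_cast this
  have h := hD n hn (Pos r) A B C ⟨hT.1, hT.2.1, hT.2.2.1, hT.2.2.2.1, hr1, hr2⟩
    (hne A hT.2.2.2.2.1) (hne B hT.2.2.2.2.2.1) (hne C hT.2.2.2.2.2.2) ht
    (fun x : Pos r => w x) hw
  exact ⟨_, gam_pos ha hb w, h⟩

open Classical in
/-- Almost all layered orders have an irreducible generating function for all labels. -/
theorem almost_all_labels (hD : Det hQ) (hG : GraphBound) (hT : TypBound) (δ ε : ℝ)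
    (hδ : 0 < δ) (hε : 0 < ε) :
    ∃ N : ℕ, ∀ n ≥ N,
      ((Finset.univ.filter fun r : Fin n → Fin n → Prop =>
        Layered δ n r ∧ ¬ IrrL Q r).card : ℝ) ≤
      ε * (Finset.univ.filter fun r : Fin n → Fin n → Prop => Layered δ n r).card := by
  obtain ⟨N1, I, K, F, h1⟩ := hD
  obtain ⟨N2, h2⟩ := typ_count hG hT δ ε hδ hε I K F
  refine ⟨max (max N1 N2) 1, fun n hn => ?_⟩
  have hn1 : N1 ≤ n := le_trans (le_trans (le_max_left _ _) (le_max_left _ _)) hn
  have hn2 : N2 ≤ n := le_trans (le_trans (le_max_right _ _) (le_max_left _ _)) hn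
  have hn3 : 1 ≤ n := le_trans (le_max_right _ _) hn
  refine le_trans ?_ (h2 n hn2)
  have h3 : (Finset.univ.filter fun r : Fin n → Fin n → Prop => Layered δ n r ∧ ¬ IrrL Q r) ⊆
      (Finset.univ.filter fun r : Fin n → Fin n → Prop => Layered δ n r ∧
        ¬ GoodT δ I (3 * Nat.log 2 n) (Nat.log 2 n / 20) K F n r) := by
    intro r hr
    simp only [Finset.mem_filter, Finset.mem_univ, true_and] at hr ⊢
    exact ⟨hr.1, fun h => hr.2 (GoodT.irr hQ n N1 I K F h1 hn1 hn3 hδ h)⟩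
  exact_mod_cast Finset.card_le_card h3

end

end Pool.Agent.Lib.MP_5bc52d_co.TA
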