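import Mathlib
import Pool.Agent.Lib.MP_5bc52d_co.TA.Skel
import Pool.Agent.Lib.MP_5bc52d_co.LinTerm.PeelDec

/-!
# The peeling lemmas hold for every labelled poset
-/

open Finset Polynomial

set_option linter.unusedSectionVars false

namespace Pool.Agent.Lib.MP_5bc52d_co.TA

open Pool.Agent.Lib.MP_5bc52d_co.Key Pool.Agent.Lib.MP_5bc52d_co.Cut

variable {Q : Subring R} (hQ : ∀ F : R, F ∈ Q ↔ IsQS F)

/-- **P.** The peeling lemmas. -/
theorem peels : Peels hQ := by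
  intro V _ _ _ ω hω
  refine ⟨fun U D => GamQ hQ ω U ∈ LinTerm.Dec.Decs Q U.card D ∧
    ∀ a ∈ D, 0 < a ∧ a < U.card, ⟨fun U D h => h.2, ?_, ?_⟩, ?_⟩
  · intro d U F D hΦ hcl hnz huniq hD
    obtain ⟨hΦ1, hΦ2⟩ := hΦ
    have hc : (U \ F).card = U.card - F.card := Finset.card_sdiff_of_subset hcl.1
    have hS : ∀ a ∈ D, 0 < a ∧ a < U.card ∧ a ≠ F.card ∧ U.card - a ≠ F.card :=
      fun a ha => ⟨(hΦ2 a ha).1, (hΦ2 a ha).2, (hD a ha).1, (hD a ha).2⟩
    cases d with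
    | true =>
      obtain ⟨S', h1, h2, h3⟩ := LinTerm.Dec.peel_up hQ hω hcl.1
        (fun a ha b hb hba => hcl.2 b hb a ha hba) hnz
        (fun F' hF' hup' hC' hcard' =>
          huniq F' ⟨hF', fun x hx y hy hxy => hup' y hy x hx hxy⟩ hC' hcard') hS hΦ1
      refine ⟨S', h1, ?_, ?_⟩
      · rw [hc]
        exact h3
      · rw [hc]
        exact h2
    | false =>
      obtain ⟨S', h1, h2, h3⟩ := LinTerm.Dec.peel_dn hQ hω hcl.1
        (fun a ha b hb hba => hcl.2 b hb a ha hba) hnz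
        (fun F' hF' hup' hC' hcard' =>
          huniq F' ⟨hF', fun x hx y hy hxy => hup' y hy x hx hxy⟩ hC' hcard') hS hΦ1
      refine ⟨S', h1, ?_, ?_⟩
      · rw [hc]
        exact h3
      · rw [hc]
        exact h2
  · rintro U D ⟨h1, h2⟩ hnz
    exact LinTerm.Dec.not_dec hQ hω hnz h2 h1
  · intro U hU hirr
    obtain ⟨a, ha0, ha1, ha⟩ := LinTerm.Dec.exists_dec hQ ω hU hirr
    refine ⟨a, ha, fun b hb => ?_⟩
    rw [Finset.mem_singleton] at hb
    subst hb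
    exact ⟨ha0, ha1⟩

end Pool.Agent.Lib.MP_5bc52d_co.TA
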