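import Mathlib
import Pool.Agent.Lib.MP_5bc52d_co.TA.Cover
import Pool.Agent.Lib.MP_5bc52d_co.TA.Peels
import Pool.Agent.Lib.MP_5bc52d_co.TA.Final

/-!
# The deterministic part: the case distinction
-/

open Finset

set_option linter.unusedSectionVars false

namespace Pool.Agent.Lib.MP_5bc52d_co.TA

open Pool.Agent.Lib.MP_5bc52d_co.Key Pool.Agent.Lib.MP_5bc52d_co.Cut

section comb
variable {P : Type*} [Fintype P] [DecidableEq P] [PartialOrder P] {ω : P → ℕ} {k : Bool}

theorem Lo_lt {x a b : P} (hx : x ∈ Lo ω k univ) (hab : a < b) (hb : b = x ∨ b < x) :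
    Cut.wt ω k a < Cut.wt ω k b :=
  (mem_AL.mp hx).2 a (mem_univ a) b (mem_univ b) hab hb

theorem Hi_lt {x a b : P} (hx : x ∈ Hi ω k univ) (hab : a < b) (ha : a = x ∨ x < a) :
    Cut.wt ω k a < Cut.wt ω k b := by
  have h := (mem_AL.mp hx).2 b (mem_univ b) a (mem_univ a) hab ha
  rw [wt_not, Pi.neg_apply, Pi.neg_apply] at h
  omega

end comb

section pairs
variable {V : Type*} [Fintype V] [DecidableEq V] [PartialOrder V] {A B C : Finset V}
  {I T z K F : ℕ}

/-- a common upper neighbour -/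
theorem Typ.upC (hT : Typ (fun x y : V => x < y) A B C I T z K F) {b b' : V} (hb : b ∈ B)
    (hb' : b' ∈ B) : ∃ c ∈ C, b < c ∧ b' < c := by
  classical
  obtain ⟨y, hy, h⟩ := hT.up.pair ∅ (Finset.empty_subset _) ∅ (Nat.zero_le _) (Nat.zero_le _) b
    (by simpa using hb) b' (by simpa using hb')
  exact ⟨y, (mem_QO.mp hy).1, h⟩

/-- a common lower neighbour -/
theorem Typ.dnA (hT : Typ (fun x y : V => x < y) A B C I T z K F) {b b' : V} (hb : b ∈ B)
    (hb' : b' ∈ B) : ∃ a ∈ A, a < b ∧ a < b' := by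
  classical
  obtain ⟨y, hy, h⟩ := hT.down.pair ∅ (Finset.empty_subset _) ∅ (Nat.zero_le _) (Nat.zero_le _) b
    (by simpa using hb) b' (by simpa using hb')
  exact ⟨y, (mem_QO.mp hy).1, h⟩

/-- a common neighbour in the middle layer -/
theorem Typ.midB (hT : Typ (fun x y : V => x < y) A B C I T z K F) {a a' : V}
    (ha : a ∈ A ∨ a ∈ C) (ha' : a' ∈ A ∨ a' ∈ C) :
    ∃ b ∈ B, (a < b ∨ b < a) ∧ (a' < b ∨ b < a') := by
  classical
  obtain ⟨y, hy, h⟩ := hT.mid.pair ∅ (Finset.empty_subset _) ∅ (Nat.zero_le _) (Nat.zero_le _) a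
    (by simpa using ha) a' (by simpa using ha')
  exact ⟨y, (mem_QO.mp hy).1, h⟩

theorem lay_AB (hL : AA.Lay A B C) {a b : V} (ha : a ∈ A) (_hb : b ∈ B) : ¬ b < a := by
  intro h
  rcases hL.rel b a h with h | h | h
  · exact Finset.disjoint_left.mp hL.dAB ha h.2
  · exact Finset.disjoint_left.mp hL.dAC ha h.2
  · exact Finset.disjoint_left.mp hL.dAC ha h.2

theorem lay_BC (hL : AA.Lay A B C) {b c : V} (_hb : b ∈ B) (hc : c ∈ C) : ¬ c < b := by
  intro h
  rcases hL.rel c b h with h | h | h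
  · exact Finset.disjoint_left.mp hL.dAC h.1 hc
  · exact Finset.disjoint_left.mp hL.dBC h.1 hc
  · exact Finset.disjoint_left.mp hL.dAC h.1 hc

end pairs

section alg
variable {Q : Subring R} (hQ : ∀ F : R, F ∈ Q ↔ IsQS F)

/-- **D5.** -/
theorem det_all (h1 : Case1 hQ) (h2 : Case2 hQ) : DetAll hQ := by
  intro V _ _ _ ω hω A B C I T z K F hN hA hC hL hT
  by_cases hcor : ∃ k, Disjoint (Lo ω k univ) (Hi ω k univ)
  · obtain ⟨k, hk⟩ := hcor
    exact h1 V ω hω A B C I T z K F hN hA hC hL hT k hk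
  · push Not at hcor
    obtain ⟨x, hx, hx'⟩ := Finset.not_disjoint_iff.mp (hcor true)
    obtain ⟨y, hy, hy'⟩ := Finset.not_disjoint_iff.mp (hcor false)
    have hwf : ∀ {a b : V}, Cut.wt ω false a < Cut.wt ω false b → ω b < ω a := by
      intro a b h
      simpa using (wt_lt ω false a b).mp h
    have hwt : ∀ {a b : V}, Cut.wt ω true a < Cut.wt ω true b → ω a < ω b := by
      intro a b h
      simpa using (wt_lt ω true a b).mp h
    rcases hL.cover x with hxA | hxB | hxC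
    · rcases hL.cover y with hyA | hyB | hyC
      · exfalso
        obtain ⟨b, hb, h3, h4⟩ := hT.midB (Or.inl hxA) (Or.inl hyA)
        obtain ⟨c, hc, h5, -⟩ := hT.upC hb hb
        have h6 := hwt (Hi_lt hx' h5 (Or.inr (h3.resolve_right (lay_AB hL hxA hb))))
        have h7 := hwf (Hi_lt hy' h5 (Or.inr (h4.resolve_right (lay_AB hL hyA hb))))
        omega
      · exact h2 V ω hω A B C I T z K F hN hA hC hL hT true x y (Or.inl ⟨hxA, hx'⟩) hyB hy hy'
      · exfalso
        have h3 := hL.full x hxA y hyC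
        have h4 := hwt (Hi_lt hx' h3 (Or.inl rfl))
        have h5 := hwf (Lo_lt hy h3 (Or.inl rfl))
        omega
    · rcases hL.cover y with hyA | hyB | hyC
      · exact h2 V ω hω A B C I T z K F hN hA hC hL hT false y x (Or.inl ⟨hyA, hy'⟩) hxB hx hx'
      · exfalso
        obtain ⟨a, ha, h3, h4⟩ := hT.dnA hxB hyB
        obtain ⟨c, hc, h5, h6⟩ := hT.upC hxB hyB
        have h7 := hwt (Lo_lt hx h3 (Or.inl rfl))
        have h8 := hwt (Hi_lt hx' h5 (Or.inl rfl))
        have h9 := hwf (Lo_lt hy h4 (Or.inl rfl))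
        have h10 := hwf (Hi_lt hy' h6 (Or.inl rfl))
        omega
      · exact h2 V ω hω A B C I T z K F hN hA hC hL hT false y x (Or.inr ⟨hyC, hy⟩) hxB hx hx'
    · rcases hL.cover y with hyA | hyB | hyC
      · exfalso
        have h3 := hL.full y hyA x hxC
        have h4 := hwt (Lo_lt hx h3 (Or.inl rfl))
        have h5 := hwf (Hi_lt hy' h3 (Or.inl rfl))
        omega
      · exact h2 V ω hω A B C I T z K F hN hA hC hL hT true x y (Or.inr ⟨hxC, hx⟩) hyB hy hy'
      · exfalso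
        obtain ⟨b, hb, h3, h4⟩ := hT.midB (Or.inr hxC) (Or.inr hyC)
        obtain ⟨a, ha, h5, -⟩ := hT.dnA hb hb
        have h6 := hwt (Lo_lt hx h5 (Or.inr (h3.resolve_left (lay_BC hL hb hxC))))
        have h7 := hwf (Lo_lt hy h5 (Or.inr (h4.resolve_left (lay_BC hL hb hyC))))
        omega

theorem num_large {n : ℕ} (hn : 2 ^ 40 ≤ n) :
    Num 120 (3 * Nat.log 2 n) (Nat.log 2 n / 20) 4 (2 ^ 121 + 2) := by
  have h : 40 ≤ Nat.log 2 n := Nat.le_log_of_pow_le (by norm_num) hn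
  exact ⟨by omega, by omega, le_rfl, le_rfl⟩

/-- The deterministic part in the form used in the final count. -/
theorem det (h1 : Case1 hQ) (h2 : Case2 hQ) : Det hQ := by
  refine ⟨2 ^ 40, 120, 4, 2 ^ 121 + 2, fun n hn V _ _ _ A B C hL hA _ hC hT w hw => ?_⟩
  exact det_all hQ h1 h2 V w hw A B C 120 _ _ 4 _ (num_large hn) hA hC hL hT

end alg

end Pool.Agent.Lib.MP_5bc52d_co.TA
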