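import Mathlib
import Pool.Agent.Lib.MP_5bc52d_co.TA.Graph

/-!
# Many rows with values in a given set
-/

namespace Pool.Agent.Lib.MP_5bc52d_co.TA

open Finset

open Classical in
theorem many : ManyLemma := by
  intro ι β _ _ M m q hq hM W R f₀ hRW
  set t : ι → Finset β := fun i => if i ∈ W then {f₀ i} else univ with ht
  set h : ι → β → ℝ := fun i x => if i ∈ R ∧ x ∈ M then Real.exp (-1) else 1 with hh
  have hset : (univ.filter fun f : ι → β => (∀ i ∈ W, f i = f₀ i) ∧
      (R.filter fun b => f b ∈ M).card < m) =
      (Fintype.piFinset t).filter (fun f => (R.filter fun b => f b ∈ M).card < m) := by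
    ext f
    simp only [mem_filter, mem_univ, true_and, Fintype.mem_piFinset, ht]
    refine and_congr_left fun _ => ⟨fun h1 i => ?_, fun h1 i hi => ?_⟩
    · by_cases hi : i ∈ W
      · simp [hi, h1 i hi]
      · simp [hi]
    · have := h1 i
      simpa [hi] using this
  have hprod : ∀ f : ι → β, ∏ i, h i (f i) =
      Real.exp (-((R.filter fun b => f b ∈ M).card : ℝ)) := by
    intro f
    have e1 : ∏ i, h i (f i) = ∏ i ∈ R.filter (fun b => f b ∈ M), Real.exp (-1) := by
      rw [hh]
      rw [prod_ite]
      simp only [prod_const_one, mul_one]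
      refine prod_congr ?_ fun _ _ => rfl
      ext i
      simp
    rw [e1, prod_const, ← Real.exp_nat_mul]
    congr 1
    ring
  have h1 : ((((Fintype.piFinset t).filter
      (fun f => (R.filter fun b => f b ∈ M).card < m)).card : ℕ) : ℝ) ≤
      ∑ f ∈ Fintype.piFinset t, Real.exp m * ∏ i, h i (f i) := by
    rw [card_eq_sum_ones, Nat.cast_sum, sum_filter]
    refine sum_le_sum fun f _ => ?_
    rw [hprod f, ← Real.exp_add]
    split_ifs with h2
    · have : (0 : ℝ) ≤ m + -((R.filter fun b => f b ∈ M).card : ℝ) := by
        have : ((R.filter fun b => f b ∈ M).card : ℝ) ≤ m := by exact_mod_cast h2.le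
        linarith
      simpa using Real.one_le_exp this
    · exact (Real.exp_pos _).le
  have h2 : ∑ f ∈ Fintype.piFinset t, Real.exp m * ∏ i, h i (f i) =
      Real.exp m * ∏ i, ∑ x ∈ t i, h i x := by
    rw [← mul_sum, prod_univ_sum]
  have hb : ∀ i, 0 ≤ ∑ x ∈ t i, h i x := by
    intro i
    refine sum_nonneg fun x _ => ?_
    simp only [hh]
    split_ifs
    · exact (Real.exp_pos _).le
    · exact zero_le_one
  have hexp : 1 - Real.exp (-1) ≥ 1 / 2 := by
    have h3 : Real.exp (-1) ≤ 1 / 2 := by
      rw [Real.exp_neg, one_div]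
      refine inv_anti₀ (by norm_num) ?_
      have := Real.add_one_le_exp (1 : ℝ)
      linarith
    linarith
  have hfac : ∀ i, ∑ x ∈ t i, h i x ≤ if i ∈ W then 1 else
      (if i ∈ R then Real.exp (-(q / 2)) * (Fintype.card β : ℝ) else (Fintype.card β : ℝ)) := by
    intro i
    by_cases hi : i ∈ W
    · have hiR : i ∉ R := fun h3 => Finset.disjoint_left.1 hRW h3 hi
      simp [ht, hh, hi, hiR]
    · by_cases hiR : i ∈ R
      · simp only [ht, hh, hi, hiR, if_false, if_true, true_and]
        have e2 : ∑ x : β, (if x ∈ M then Real.exp (-1) else (1 : ℝ)) =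
            M.card * Real.exp (-1) + ((Fintype.card β : ℝ) - M.card) := by
          rw [sum_ite]
          simp only [sum_const, nsmul_eq_mul, mul_one]
          have e3 : (univ.filter fun x => x ∈ M) = M := by ext; simp
          have e4 : ((univ.filter fun x => x ∉ M).card : ℝ) = (Fintype.card β : ℝ) - M.card := by
            have e5 := Finset.card_filter_add_card_filter_not (s := (univ : Finset β))
              (fun x => x ∈ M)
            rw [e3, card_univ] at e5
            have : ((M.card + (univ.filter fun x => x ∉ M).card : ℕ) : ℝ) = Fintype.card β := by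
              exact_mod_cast e5
            push_cast at this
            linarith
          rw [e3, e4]
        rw [e2]
        have e6 : (1 - q / 2) * (Fintype.card β : ℝ) ≤
            Real.exp (-(q / 2)) * (Fintype.card β : ℝ) := by
          refine mul_le_mul_of_nonneg_right ?_ (Nat.cast_nonneg _)
          have := Real.add_one_le_exp (-(q / 2))
          linarith
        refine le_trans ?_ e6
        have e7 : (1 / 2 : ℝ) * (q * Fintype.card β) ≤ (1 - Real.exp (-1)) * M.card := by
          have e8 : (0 : ℝ) ≤ M.card := Nat.cast_nonneg _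
          calc (1 / 2 : ℝ) * (q * Fintype.card β) ≤ 1 / 2 * M.card := by
                exact mul_le_mul_of_nonneg_left hM (by norm_num)
            _ ≤ (1 - Real.exp (-1)) * M.card := mul_le_mul_of_nonneg_right hexp e8
        nlinarith
      · simp [ht, hh, hi, hiR]
  have h3 : ∏ i, ∑ x ∈ t i, h i x ≤
      Real.exp (-(q / 2) * R.card) * (Fintype.card β : ℝ) ^ (Fintype.card ι - W.card) := by
    refine (prod_le_prod (fun i _ => hb i) fun i _ => hfac i).trans (le_of_eq ?_)
    rw [prod_ite]
    simp only [prod_const_one, one_mul]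
    rw [prod_ite, prod_const, prod_const, mul_pow, ← Real.exp_nat_mul]
    have e1 : ((univ.filter fun i => i ∉ W).filter fun i => i ∈ R) = R := by
      ext i
      simp only [mem_filter, mem_univ, true_and]
      exact ⟨fun h => h.2, fun h => ⟨fun h' => Finset.disjoint_left.1 hRW h h', h⟩⟩
    have e2 := Finset.card_filter_add_card_filter_not (s := univ.filter fun i => i ∉ W)
      (fun i => i ∈ R)
    rw [e1] at e2 ⊢
    have e3 : (univ.filter fun i => i ∉ W).card = Fintype.card ι - W.card := by
      have e4 := Finset.card_filter_add_card_filter_not (s := (univ : Finset ι)) (fun i => i ∈ W)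
      have e5 : (univ.filter fun i => i ∈ W) = W := by ext; simp
      rw [e5, card_univ] at e4
      omega
    rw [e3] at e2
    rw [mul_assoc, ← pow_add, e2]
    congr 2
    ring
  have h4 : Real.exp (m - q / 2 * R.card) = Real.exp m * Real.exp (-(q / 2) * R.card) := by
    rw [← Real.exp_add]
    congr 1
    ring
  rw [hset]
  refine h1.trans ?_
  rw [h2, h4, mul_assoc]
  exact mul_le_mul_of_nonneg_left h3 (Real.exp_pos _).le

end Pool.Agent.Lib.MP_5bc52d_co.TA
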