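import Pool.Agent.Lib.MP_5bc52d_co.TA.Graph
import Pool.Agent.Lib.MP_5bc52d_co.AA.Common

/-!
# Pairs of rows in almost all bipartite graphs
-/

namespace Pool.Agent.Lib.MP_5bc52d_co.TA

open Finset

section chernoff
variable {κ β : Type*} [Fintype κ] [DecidableEq κ] [Fintype β]

open Classical in
/-- Chernoff bound for functions -/
theorem pair_chernoff (E : β → Prop) [DecidablePred E] (p η : ℝ) (hp0 : 0 ≤ p) (hp1 : p ≤ 1)
    (hη0 : 0 ≤ η) (hη1 : η ≤ 1)
    (hE : ((univ.filter E).card : ℝ) ≤ p * Fintype.card β) :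
    ((univ.filter fun F : κ → β => (p + η) * (Fintype.card κ : ℝ) ≤
      ((univ.filter fun y => E (F y)).card : ℝ)).card : ℝ) ≤
      Real.exp (-(η ^ 2 / 4) * Fintype.card κ) * (Fintype.card β : ℝ) ^ Fintype.card κ := by
  set s : ℝ := η / 2 with hs
  set m : ℝ := (Fintype.card κ : ℝ) with hm
  have hm0 : 0 ≤ m := Nat.cast_nonneg _
  have hsum : ∑ F : κ → β, Real.exp (s * ((univ.filter fun y => E (F y)).card : ℝ)) =
      (∑ b : β, if E b then Real.exp s else 1) ^ Fintype.card κ := by
    have h1 : ∀ F : κ → β, Real.exp (s * ((univ.filter fun y => E (F y)).card : ℝ)) =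
        ∏ y : κ, if E (F y) then Real.exp s else 1 := by
      intro F
      rw [prod_ite, prod_const, prod_const_one, mul_one, ← Real.exp_nat_mul, mul_comm]
    rw [sum_congr rfl fun F _ => h1 F]
    have h2 := Finset.prod_univ_sum (fun _ : κ => (univ : Finset β))
      (fun _ b => if E b then Real.exp s else (1 : ℝ))
    rw [prod_const, card_univ, Fintype.piFinset_univ] at h2
    exact h2.symm
  have hb : (∑ b : β, if E b then Real.exp s else 1) ≤
      Fintype.card β * Real.exp (p * (s + s ^ 2)) := by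
    have h1 : (∑ b : β, if E b then Real.exp s else (1 : ℝ)) =
        Fintype.card β + ((univ.filter E).card : ℝ) * (Real.exp s - 1) := by
      have h2 : ∀ b : β, (if E b then Real.exp s else (1 : ℝ)) =
          1 + (if E b then (Real.exp s - 1) else 0) := by
        intro b
        split_ifs
        · ring
        · ring
      rw [sum_congr rfl fun b _ => h2 b, sum_add_distrib, sum_const, card_univ, nsmul_eq_mul,
        mul_one, ← sum_filter, sum_const, nsmul_eq_mul]
    have h2 : Real.exp s - 1 ≤ s + s ^ 2 := by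
      have h3 : |s| ≤ 1 := by
        rw [abs_le]
        constructor <;> linarith
      have h4 := abs_le.mp (Real.abs_exp_sub_one_sub_id_le h3)
      linarith [h4.2]
    have h3 : 0 ≤ Real.exp s - 1 := by
      have := Real.add_one_le_exp s
      linarith
    have h4 : (0 : ℝ) ≤ Fintype.card β := Nat.cast_nonneg _
    have h5 : p * (s + s ^ 2) + 1 ≤ Real.exp (p * (s + s ^ 2)) := Real.add_one_le_exp _
    rw [h1]
    calc (Fintype.card β : ℝ) + ((univ.filter E).card : ℝ) * (Real.exp s - 1)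
        ≤ Fintype.card β + (p * Fintype.card β) * (Real.exp s - 1) := by
          have := mul_le_mul_of_nonneg_right hE h3
          linarith
      _ ≤ Fintype.card β + (p * Fintype.card β) * (s + s ^ 2) := by
          have := mul_le_mul_of_nonneg_left h2 (mul_nonneg hp0 h4)
          linarith
      _ = Fintype.card β * (p * (s + s ^ 2) + 1) := by ring
      _ ≤ _ := mul_le_mul_of_nonneg_left h5 h4
  have hb0 : 0 ≤ (∑ b : β, if E b then Real.exp s else (1 : ℝ)) := by
    apply sum_nonneg
    intro b _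
    split_ifs
    · exact (Real.exp_pos _).le
    · exact zero_le_one
  have h1 : ((univ.filter fun F : κ → β => (p + η) * m ≤
      ((univ.filter fun y => E (F y)).card : ℝ)).card : ℝ) * Real.exp (s * ((p + η) * m)) ≤
      (Fintype.card β : ℝ) ^ Fintype.card κ * Real.exp (p * (s + s ^ 2) * m) := by
    calc _ = ∑ F ∈ univ.filter fun F : κ → β => (p + η) * m ≤
          ((univ.filter fun y => E (F y)).card : ℝ), Real.exp (s * ((p + η) * m)) := by
          rw [sum_const, nsmul_eq_mul]
      _ ≤ ∑ F ∈ univ.filter fun F : κ → β => (p + η) * m ≤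
          ((univ.filter fun y => E (F y)).card : ℝ),
            Real.exp (s * ((univ.filter fun y => E (F y)).card : ℝ)) := by
          apply sum_le_sum
          intro F hF
          apply Real.exp_le_exp.mpr
          exact mul_le_mul_of_nonneg_left (mem_filter.mp hF).2 (by positivity)
      _ ≤ ∑ F : κ → β, Real.exp (s * ((univ.filter fun y => E (F y)).card : ℝ)) :=
          sum_le_univ_sum_of_nonneg fun F => (Real.exp_pos _).le
      _ = _ := hsum
      _ ≤ (Fintype.card β * Real.exp (p * (s + s ^ 2))) ^ Fintype.card κ :=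
          pow_le_pow_left₀ hb0 hb _
      _ = _ := by
          rw [mul_pow, ← Real.exp_nat_mul, ← hm]
          congr 2
          ring
  have h2 : ((univ.filter fun F : κ → β => (p + η) * m ≤
      ((univ.filter fun y => E (F y)).card : ℝ)).card : ℝ) ≤
      ((Fintype.card β : ℝ) ^ Fintype.card κ * Real.exp (p * (s + s ^ 2) * m)) *
        Real.exp (-(s * ((p + η) * m))) := by
    rw [Real.exp_neg, ← div_eq_mul_inv, le_div_iff₀ (Real.exp_pos _)]
    exact h1
  refine h2.trans ?_
  rw [mul_assoc, ← Real.exp_add, mul_comm]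
  refine mul_le_mul_of_nonneg_right (Real.exp_le_exp.mpr ?_) (by positivity)
  have h3 : p * (s + s ^ 2) * m + -(s * ((p + η) * m)) = (p * s ^ 2 - η * s) * m := by ring
  rw [h3]
  refine mul_le_mul_of_nonneg_right ?_ hm0
  rw [hs]
  nlinarith [mul_nonneg (sub_nonneg.mpr hp1) (sq_nonneg η)]

end chernoff

section reg
variable {ι κ : Type*} [Fintype ι] [DecidableEq ι] [Fintype κ] [DecidableEq κ]

/-- the columns adjacent to all rows of `P` and to no row of `A` -/
def pairN (f : ι → Finset κ) (P A : Finset ι) : Finset κ :=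
  univ.filter fun y => (∀ i ∈ P, y ∈ f i) ∧ ∀ i ∈ A, y ∉ f i

/-- the transposed function -/
def pairTr (f : ι → Finset κ) (y : κ) : Finset ι := univ.filter fun i => y ∈ f i

omit [DecidableEq ι] [Fintype κ] in
theorem mem_pairTr {f : ι → Finset κ} {y : κ} {i : ι} : i ∈ pairTr f y ↔ y ∈ f i := by
  rw [pairTr, mem_filter]
  exact ⟨fun h => h.2, fun h => ⟨mem_univ _, h⟩⟩

omit [DecidableEq ι] [Fintype κ] in
theorem pairTr_injective : Function.Injective (pairTr : (ι → Finset κ) → κ → Finset ι) := by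
  intro f g h
  funext i
  ext y
  have h1 : pairTr f y = pairTr g y := congrFun h y
  rw [← mem_pairTr (f := f), ← mem_pairTr (f := g), h1]

theorem pair_card_pat (P A : Finset ι) (h : Disjoint P A) :
    ((univ.filter fun c : Finset ι => P ⊆ c ∧ Disjoint c A).card : ℝ) =
      (1 / 2) ^ (P.card + A.card) * Fintype.card (Finset ι) := by
  have hPA : P ⊆ Aᶜ := by
    intro x hx
    rw [mem_compl]
    exact disjoint_left.mp h hx
  have h1 : (univ.filter fun c : Finset ι => P ⊆ c ∧ Disjoint c A) = Icc P Aᶜ := by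
    ext c
    rw [mem_filter, mem_Icc]
    constructor
    · rintro ⟨-, h1, h2⟩
      refine ⟨h1, ?_⟩
      intro x hx
      rw [mem_compl]
      exact disjoint_left.mp h2 hx
    · rintro ⟨h1, h2⟩
      refine ⟨mem_univ _, h1, ?_⟩
      rw [disjoint_left]
      intro x hx
      exact mem_compl.mp (h2 hx)
  have h2 : P.card ≤ Aᶜ.card := card_le_card hPA
  have h3 : Aᶜ.card = Fintype.card ι - A.card := card_compl A
  have h4 : A.card ≤ Fintype.card ι := card_le_univ A
  rw [h1, card_Icc_finset hPA, Fintype.card_finset]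
  push_cast
  have h5 : (2 : ℝ) ^ Fintype.card ι = 2 ^ (Aᶜ.card - P.card) * 2 ^ (P.card + A.card) := by
    rw [← pow_add]
    congr 1
    omega
  rw [h5, one_div, inv_pow]
  field_simp

open Classical in
theorem pair_up (P A : Finset ι) (h : Disjoint P A) (η : ℝ) (hη0 : 0 ≤ η) (hη1 : η ≤ 1) :
    ((univ.filter fun f : ι → Finset κ => ((1 / 2) ^ (P.card + A.card) + η) *
      (Fintype.card κ : ℝ) ≤ ((pairN f P A).card : ℝ)).card : ℝ) ≤
      Real.exp (-(η ^ 2 / 4) * Fintype.card κ) * (2 ^ Fintype.card κ) ^ Fintype.card ι := by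
  have h1 := pair_chernoff (κ := κ) (fun c : Finset ι => P ⊆ c ∧ Disjoint c A)
    ((1 / 2) ^ (P.card + A.card)) η (by positivity) (pow_le_one₀ (by norm_num) (by norm_num))
    hη0 hη1 (by
      exact le_of_eq (pair_card_pat P A h))
  have h2 : ((Fintype.card (Finset ι) : ℕ) : ℝ) ^ Fintype.card κ =
      (2 ^ Fintype.card κ) ^ Fintype.card ι := by
    rw [Fintype.card_finset]
    push_cast
    rw [← pow_mul, ← pow_mul, mul_comm]
  rw [h2] at h1
  refine le_trans ?_ h1
  rw [Nat.cast_le]
  refine card_le_card_of_injOn pairTr ?_ (pairTr_injective.injOn)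
  intro f hf
  rw [mem_coe, mem_filter] at hf ⊢
  refine ⟨mem_univ _, hf.2.trans (le_of_eq ?_)⟩
  congr 2
  ext y
  rw [pairN, mem_filter, mem_filter]
  refine and_congr_right fun _ => ?_
  constructor
  · rintro ⟨h3, h4⟩
    refine ⟨fun i hi => mem_pairTr.mpr (h3 i hi), ?_⟩
    rw [disjoint_right]
    intro i hi hi'
    exact h4 i hi (mem_pairTr.mp hi')
  · rintro ⟨h3, h4⟩
    refine ⟨fun i hi => mem_pairTr.mp (h3 hi), fun i hi hi' => ?_⟩
    exact disjoint_right.mp h4 hi (mem_pairTr.mpr hi')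

open Classical in
theorem pair_low (P A : Finset ι) (h : Disjoint P A) (η : ℝ) (hη0 : 0 ≤ η) (hη1 : η ≤ 1) :
    ((univ.filter fun f : ι → Finset κ => ((pairN f P A).card : ℝ) ≤
      ((1 / 2) ^ (P.card + A.card) - η) * (Fintype.card κ : ℝ)).card : ℝ) ≤
      Real.exp (-(η ^ 2 / 4) * Fintype.card κ) * (2 ^ Fintype.card κ) ^ Fintype.card ι := by
  have hp1 : ((1 : ℝ) / 2) ^ (P.card + A.card) ≤ 1 := pow_le_one₀ (by norm_num) (by norm_num)
  have hp0 : (0 : ℝ) ≤ (1 / 2) ^ (P.card + A.card) := by positivity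
  have h1 := pair_chernoff (κ := κ) (fun c : Finset ι => ¬ (P ⊆ c ∧ Disjoint c A))
    (1 - (1 / 2) ^ (P.card + A.card)) η (by linarith) (by linarith)
    hη0 hη1 (by
      have h3 := Finset.card_filter_add_card_filter_not (s := (univ : Finset (Finset ι)))
        (fun c : Finset ι => P ⊆ c ∧ Disjoint c A)
      have h4 := pair_card_pat P A h
      have h5 : ((univ.filter fun c : Finset ι => P ⊆ c ∧ Disjoint c A).card : ℝ) +
          ((univ.filter fun c : Finset ι => ¬ (P ⊆ c ∧ Disjoint c A)).card : ℝ) =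
          (Fintype.card (Finset ι) : ℝ) := by
        rw [card_univ] at h3
        exact_mod_cast h3
      rw [h4] at h5
      have h7 : ((univ.filter fun c : Finset ι => ¬ (P ⊆ c ∧ Disjoint c A)).card : ℝ) =
          (1 - (1 / 2) ^ (P.card + A.card)) * Fintype.card (Finset ι) := by
        linarith
      exact le_of_eq h7)
  have h2 : ((Fintype.card (Finset ι) : ℕ) : ℝ) ^ Fintype.card κ =
      (2 ^ Fintype.card κ) ^ Fintype.card ι := by
    rw [Fintype.card_finset]
    push_cast
    rw [← pow_mul, ← pow_mul, mul_comm]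
  rw [h2] at h1
  refine le_trans ?_ h1
  rw [Nat.cast_le]
  refine card_le_card_of_injOn pairTr ?_ (pairTr_injective.injOn)
  intro f hf
  rw [mem_coe, mem_filter] at hf ⊢
  refine ⟨mem_univ _, ?_⟩
  have h3 : (univ.filter fun y => P ⊆ pairTr f y ∧ Disjoint (pairTr f y) A) = pairN f P A := by
    ext y
    rw [pairN, mem_filter, mem_filter]
    refine and_congr_right fun _ => ?_
    constructor
    · rintro ⟨h3, h4⟩
      refine ⟨fun i hi => mem_pairTr.mp (h3 hi), fun i hi hi' => ?_⟩
      exact disjoint_right.mp h4 hi (mem_pairTr.mpr hi')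
    · rintro ⟨h3, h4⟩
      refine ⟨fun i hi => mem_pairTr.mpr (h3 i hi), ?_⟩
      rw [disjoint_right]
      intro i hi hi'
      exact h4 i hi (mem_pairTr.mp hi')
  have h4 := Finset.card_filter_add_card_filter_not (s := (univ : Finset κ))
    (fun y => P ⊆ pairTr f y ∧ Disjoint (pairTr f y) A)
  rw [h3, card_univ] at h4
  have h5 : ((pairN f P A).card : ℝ) +
      ((univ.filter fun y => ¬ (P ⊆ pairTr f y ∧ Disjoint (pairTr f y) A)).card : ℝ) =
      (Fintype.card κ : ℝ) := by exact_mod_cast h4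
  have h6 := hf.2
  have h7 : ((1 - (1 / 2) ^ (P.card + A.card)) + η) * (Fintype.card κ : ℝ) =
      Fintype.card κ - ((1 / 2) ^ (P.card + A.card) - η) * (Fintype.card κ : ℝ) := by ring
  rw [h7]
  linarith

/-- all patterns on few rows have about the expected frequency -/
def PairReg (f : ι → Finset κ) (s : ℕ) (η : ℝ) : Prop :=
  ∀ P A : Finset ι, P.card ≤ s → A.card ≤ s → Disjoint P A →
    ((1 / 2) ^ (P.card + A.card) - η) * (Fintype.card κ : ℝ) < ((pairN f P A).card : ℝ) ∧
    ((pairN f P A).card : ℝ) < ((1 / 2) ^ (P.card + A.card) + η) * (Fintype.card κ : ℝ)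

open Classical in
theorem pair_reg (s : ℕ) (η : ℝ) (hη0 : 0 ≤ η) (hη1 : η ≤ 1) :
    ((univ.filter fun f : ι → Finset κ => ¬ PairReg f s η).card : ℝ) ≤
      (Fintype.card ι + 1 : ℝ) ^ (2 * s) * (2 *
      (Real.exp (-(η ^ 2 / 4) * Fintype.card κ) * (2 ^ Fintype.card κ) ^ Fintype.card ι)) := by
  set B : ℝ := Real.exp (-(η ^ 2 / 4) * Fintype.card κ) * (2 ^ Fintype.card κ) ^ Fintype.card ι
    with hB
  have hB0 : 0 ≤ B := by positivity
  set SS := (univ : Finset ι).powerset.filter (fun S => S.card ≤ s) with hSS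
  have hSSc : (SS.card : ℝ) ≤ (Fintype.card ι + 1 : ℝ) ^ s := by
    have := Pool.MP5bc52d.AA.card_small_subsets (univ : Finset ι) s
    rw [card_univ] at this
    exact_mod_cast this
  have hsub : (univ.filter fun f : ι → Finset κ => ¬ PairReg f s η) ⊆
      ((SS ×ˢ SS).filter fun q => Disjoint q.1 q.2).biUnion fun q =>
        (univ.filter fun f : ι → Finset κ => ((pairN f q.1 q.2).card : ℝ) ≤
          ((1 / 2) ^ (q.1.card + q.2.card) - η) * (Fintype.card κ : ℝ)) ∪
        (univ.filter fun f : ι → Finset κ => ((1 / 2) ^ (q.1.card + q.2.card) + η) *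
          (Fintype.card κ : ℝ) ≤ ((pairN f q.1 q.2).card : ℝ)) := by
    intro f hf
    have hf' := (mem_filter.mp hf).2
    rw [PairReg] at hf'
    push Not at hf'
    obtain ⟨P, A, hP, hA, hPA, hlt⟩ := hf'
    rw [mem_biUnion]
    refine ⟨(P, A), ?_, ?_⟩
    · rw [mem_filter, mem_product]
      exact ⟨⟨mem_filter.mpr ⟨mem_powerset.mpr (subset_univ _), hP⟩,
        mem_filter.mpr ⟨mem_powerset.mpr (subset_univ _), hA⟩⟩, hPA⟩
    · rw [mem_union, mem_filter, mem_filter]
      by_cases h : ((1 / 2) ^ (P.card + A.card) - η) * (Fintype.card κ : ℝ) <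
          ((pairN f P A).card : ℝ)
      · exact Or.inr ⟨mem_univ _, hlt h⟩
      · exact Or.inl ⟨mem_univ _, not_lt.mp h⟩
  have h1 := (card_le_card hsub).trans card_biUnion_le
  have h2 : ((univ.filter fun f : ι → Finset κ => ¬ PairReg f s η).card : ℝ) ≤
      ∑ q ∈ (SS ×ˢ SS).filter fun q => Disjoint q.1 q.2, (2 * B) := by
    calc ((univ.filter fun f : ι → Finset κ => ¬ PairReg f s η).card : ℝ)
        ≤ ((∑ q ∈ (SS ×ˢ SS).filter fun q => Disjoint q.1 q.2,
          ((univ.filter fun f : ι → Finset κ => ((pairN f q.1 q.2).card : ℝ) ≤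
          ((1 / 2) ^ (q.1.card + q.2.card) - η) * (Fintype.card κ : ℝ)) ∪
        (univ.filter fun f : ι → Finset κ => ((1 / 2) ^ (q.1.card + q.2.card) + η) *
          (Fintype.card κ : ℝ) ≤ ((pairN f q.1 q.2).card : ℝ))).card : ℕ) : ℝ) := by
          exact_mod_cast h1
      _ = ∑ q ∈ (SS ×ˢ SS).filter fun q => Disjoint q.1 q.2,
          ((((univ.filter fun f : ι → Finset κ => ((pairN f q.1 q.2).card : ℝ) ≤
          ((1 / 2) ^ (q.1.card + q.2.card) - η) * (Fintype.card κ : ℝ)) ∪
        (univ.filter fun f : ι → Finset κ => ((1 / 2) ^ (q.1.card + q.2.card) + η) *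
          (Fintype.card κ : ℝ) ≤ ((pairN f q.1 q.2).card : ℝ))).card : ℕ) : ℝ) := by
          push_cast
          rfl
      _ ≤ _ := by
          apply sum_le_sum
          intro q hq
          have hd := (mem_filter.mp hq).2
          have h3 := pair_low (κ := κ) q.1 q.2 hd η hη0 hη1
          have h4 := pair_up (κ := κ) q.1 q.2 hd η hη0 hη1
          rw [← hB] at h3 h4
          have h5 : ((((univ.filter fun f : ι → Finset κ => ((pairN f q.1 q.2).card : ℝ) ≤
              ((1 / 2) ^ (q.1.card + q.2.card) - η) * (Fintype.card κ : ℝ)) ∪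
            (univ.filter fun f : ι → Finset κ => ((1 / 2) ^ (q.1.card + q.2.card) + η) *
              (Fintype.card κ : ℝ) ≤ ((pairN f q.1 q.2).card : ℝ))).card : ℕ) : ℝ) ≤
              ((univ.filter fun f : ι → Finset κ => ((pairN f q.1 q.2).card : ℝ) ≤
              ((1 / 2) ^ (q.1.card + q.2.card) - η) * (Fintype.card κ : ℝ)).card : ℝ) +
              ((univ.filter fun f : ι → Finset κ => ((1 / 2) ^ (q.1.card + q.2.card) + η) *
              (Fintype.card κ : ℝ) ≤ ((pairN f q.1 q.2).card : ℝ)).card : ℝ) := by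
            exact_mod_cast card_union_le _ _
          linarith
  refine h2.trans ?_
  rw [sum_const, nsmul_eq_mul]
  refine mul_le_mul_of_nonneg_right ?_ (by positivity)
  have h3 : (((SS ×ˢ SS).filter fun q => Disjoint q.1 q.2).card : ℝ) ≤
      (SS.card : ℝ) * SS.card := by
    have := card_le_card (filter_subset (fun q : Finset ι × Finset ι => Disjoint q.1 q.2)
      (SS ×ˢ SS))
    rw [card_product] at this
    exact_mod_cast this
  refine h3.trans ?_
  rw [two_mul, pow_add]
  exact mul_le_mul hSSc hSSc (Nat.cast_nonneg _) (by positivity)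

/-- regular functions have the property `PairAt` -/
theorem pairAt_of_reg (f : ι → Finset κ) (I L : ℕ) (q : ℝ)
    (hreg : PairReg f (I + 2) ((1 / 2) ^ (I + 4)))
    (hm : 0 < (Fintype.card κ : ℝ))
    (hL : (L : ℝ) ≤ (1 / 2) ^ (I + 4) * Fintype.card κ)
    (hq : q ≤ (1 / 2) ^ (I + 1) * Fintype.card κ)
    (W : Finset ι) (D : Finset κ) (hW : W.card ≤ I) (hD : D.card ≤ L) :
    PairAt f q W D := by
  set m : ℝ := (Fintype.card κ : ℝ) with hmdef
  set η : ℝ := (1 / 2) ^ (I + 4) with hη
  have hη0 : 0 < η := by positivity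
  set a : ℝ := (1 / 2) ^ W.card with ha
  have hDL : (D.card : ℝ) ≤ η * m := le_trans (by exact_mod_cast hD) hL
  have haI : 16 * η ≤ a := by
    have h1 : (16 : ℝ) * η = (1 / 2) ^ I := by
      rw [hη, pow_add]
      norm_num
      ring
    rw [h1, ha]
    exact pow_le_pow_of_le_one (by norm_num) (by norm_num) hW
  have hQ : ∀ y, y ∈ QQ f W D ↔ y ∈ pairN f ∅ W ∧ y ∉ D := by
    intro y
    rw [QQ, pairN, mem_filter, mem_filter]
    constructor
    · rintro ⟨h1, h2, h3⟩
      exact ⟨⟨h1, fun i hi => absurd hi (notMem_empty i), h3⟩, h2⟩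
    · rintro ⟨⟨h1, -, h3⟩, h2⟩
      exact ⟨h1, h2, h3⟩
  have hsd : ∀ S : Finset κ, (S.card : ℝ) - D.card ≤ ((S \ D).card : ℝ) := by
    intro S
    have : S.card ≤ (S \ D).card + D.card := by
      have := card_le_card_sdiff_add_card (s := S) (t := D)
      omega
    have h : (S.card : ℝ) ≤ (S \ D).card + D.card := by exact_mod_cast this
    linarith
  have h0 := hreg ∅ W (by simp) (by omega) (disjoint_empty_left W)
  rw [card_empty, zero_add, ← ha] at h0
  refine ⟨?_, ?_, ?_⟩
  · intro b hb b' hb'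
    set P : Finset ι := {b, b'} with hP
    have hPc : P.card ≤ 2 := card_le_two
    have hdis : Disjoint P W := by
      rw [disjoint_left, hP]
      intro x hx
      rcases mem_insert.mp hx with h | h
      · exact h ▸ hb
      · exact (mem_singleton.mp h) ▸ hb'
    have h1 := (hreg P W (by omega) (by omega) hdis).1
    have h2 : 4 * η ≤ (1 / 2) ^ (P.card + W.card) := by
      have h3 : (4 : ℝ) * η = (1 / 2) ^ (I + 2) := by
        rw [hη, pow_add, pow_add]
        norm_num
        ring
      rw [h3]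
      exact pow_le_pow_of_le_one (by norm_num) (by norm_num) (by omega)
    have h3 : (D.card : ℝ) < ((pairN f P W).card : ℝ) := by
      have h4 : η * m ≤ ((1 / 2) ^ (P.card + W.card) - η) * m :=
        mul_le_mul_of_nonneg_right (by linarith) hm.le
      linarith
    have h4 : D.card < (pairN f P W).card := by exact_mod_cast h3
    obtain ⟨y, hy, hyD⟩ := exists_mem_notMem_of_card_lt_card h4
    rw [pairN, mem_filter] at hy
    refine ⟨y, ?_, hy.2.1 b (mem_insert_self _ _),
      hy.2.1 b' (mem_insert_of_mem (mem_singleton_self _))⟩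
    rw [QQ, mem_filter]
    exact ⟨mem_univ _, hyD, hy.2.2⟩
  · intro b hb b' hb' b'' hb'' hne
    have h1 := (hreg {b''} W (by simp) (by omega) (by
      rw [disjoint_left]
      intro x hx
      exact (mem_singleton.mp hx) ▸ hb'')).2
    rw [card_singleton, pow_add, pow_one, ← ha] at h1
    have hA : (W ∪ {b, b'}).card = W.card + 2 := by
      rw [card_union_of_disjoint, card_pair hne]
      rw [disjoint_right]
      intro x hx
      rcases mem_insert.mp hx with h | h
      · exact h ▸ hb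
      · exact (mem_singleton.mp h) ▸ hb'
    have h2 := (hreg ∅ (W ∪ {b, b'}) (by simp) (by omega) (disjoint_empty_left _)).2
    rw [card_empty, zero_add, hA, pow_add, ← ha] at h2
    have h3 : ((QQ f W D ∩ f b'').card : ℝ) ≤ ((pairN f {b''} W).card : ℝ) := by
      have : QQ f W D ∩ f b'' ⊆ pairN f {b''} W := by
        intro y hy
        rw [mem_inter, hQ, pairN, mem_filter] at hy
        rw [pairN, mem_filter]
        exact ⟨mem_univ _, fun i hi => (mem_singleton.mp hi) ▸ hy.2, hy.1.1.2.2⟩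
      exact_mod_cast card_le_card this
    have h4 : ((pairN f ∅ W).card : ℝ) - (pairN f ∅ (W ∪ {b, b'})).card - D.card ≤
        ((QQ f W D ∩ (f b ∪ f b')).card : ℝ) := by
      have h5 : (pairN f ∅ W \ pairN f ∅ (W ∪ {b, b'})) \ D ⊆ QQ f W D ∩ (f b ∪ f b') := by
        intro y hy
        rw [mem_sdiff, mem_sdiff] at hy
        rw [mem_inter, hQ, mem_union]
        refine ⟨⟨hy.1.1, hy.2⟩, ?_⟩
        by_contra hcon
        rw [not_or] at hcon
        apply hy.1.2
        have hyW := (mem_filter.mp hy.1.1).2.2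
        rw [pairN, mem_filter]
        refine ⟨mem_univ _, fun i hi => absurd hi (notMem_empty i), fun i hi => ?_⟩
        rw [mem_union, mem_insert, mem_singleton] at hi
        rcases hi with h | h | h
        · exact hyW i h
        · exact h ▸ hcon.1
        · exact h ▸ hcon.2
      have h6 := hsd (pairN f ∅ W \ pairN f ∅ (W ∪ {b, b'}))
      have h7 : ((pairN f ∅ W).card : ℝ) ≤ ((pairN f ∅ W \ pairN f ∅ (W ∪ {b, b'})).card : ℝ) +
          (pairN f ∅ (W ∪ {b, b'})).card := by
        have := card_le_card_sdiff_add_card (s := pairN f ∅ W) (t := pairN f ∅ (W ∪ {b, b'}))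
        exact_mod_cast this
      have h8 : (((pairN f ∅ W \ pairN f ∅ (W ∪ {b, b'})) \ D).card : ℝ) ≤
          ((QQ f W D ∩ (f b ∪ f b')).card : ℝ) := by exact_mod_cast card_le_card h5
      linarith
    have h5 : ((QQ f W D ∩ f b'').card : ℝ) ≤ ((QQ f W D ∩ (f b ∪ f b')).card : ℝ) := by
      have h6 : (1 / 2 * a + η) * m ≤ (a - η) * m - (a * (1 / 2) ^ 2 + η) * m - η * m := by
        have h7 : (a - η) * m - (a * (1 / 2) ^ 2 + η) * m - η * m - (1 / 2 * a + η) * m =
          (a / 4 - 4 * η) * m := by ring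
        have h8 : 0 ≤ (a / 4 - 4 * η) * m := mul_nonneg (by linarith) hm.le
        linarith
      linarith [h0.1]
    exact_mod_cast h5
  · have h1 : pairN f ∅ W \ D ⊆ QQ f W D := by
      intro y hy
      rw [mem_sdiff] at hy
      exact (hQ y).mpr hy
    have h2 : ((pairN f ∅ W \ D).card : ℝ) ≤ ((QQ f W D).card : ℝ) := by
      exact_mod_cast card_le_card h1
    have h3 := hsd (pairN f ∅ W)
    have h4 : (1 / 2 : ℝ) ^ (I + 1) = 8 * η := by
      rw [hη, pow_add, pow_add]
      norm_num
      ring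
    rw [h4] at hq
    have h5 : 8 * η * m ≤ (a - η) * m - η * m := by
      have h7 : (a - η) * m - η * m - 8 * η * m = (a - 10 * η) * m := by ring
      have h8 : 0 ≤ (a - 10 * η) * m := mul_nonneg (by linarith) hm.le
      linarith
    linarith [h0.1]

end reg

/-- a logarithm is small -/
theorem pair_log (c : ℝ) (hc : 0 < c) : ∃ N : ℕ, ∀ n ≥ N, ((3 * Nat.log 2 n : ℕ) : ℝ) ≤ c * n := by
  have h1 : Filter.Tendsto (fun k : ℕ => (k : ℝ) ^ 1 * (1 / 2) ^ k) Filter.atTop (nhds 0) :=
    tendsto_pow_const_mul_const_pow_of_abs_lt_one 1 (by norm_num)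
  have h2 := (h1.eventually (Iic_mem_nhds (show (0 : ℝ) < c / 3 by positivity)))
  obtain ⟨K, hK⟩ := h2.exists_forall_of_atTop
  refine ⟨2 ^ K, fun n hn => ?_⟩
  have hn0 : n ≠ 0 := by
    have : 0 < 2 ^ K := by positivity
    omega
  have h3 : K ≤ Nat.log 2 n := Nat.le_log_of_pow_le (by norm_num) hn
  have h4 := hK _ h3
  simp only [pow_one] at h4
  have h5 : (2 : ℝ) ^ Nat.log 2 n ≤ n := by exact_mod_cast Nat.pow_log_le_self 2 hn0
  have h6 : (Nat.log 2 n : ℝ) ≤ c / 3 * 2 ^ Nat.log 2 n := by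
    have h7 : ((1 : ℝ) / 2) ^ Nat.log 2 n * 2 ^ Nat.log 2 n = 1 := by
      rw [← mul_pow]
      norm_num
    calc (Nat.log 2 n : ℝ) = (Nat.log 2 n : ℝ) * (((1 : ℝ) / 2) ^ Nat.log 2 n *
          2 ^ Nat.log 2 n) := by rw [h7, mul_one]
      _ = ((Nat.log 2 n : ℝ) * (1 / 2) ^ Nat.log 2 n) * 2 ^ Nat.log 2 n := by ring
      _ ≤ _ := mul_le_mul_of_nonneg_right h4 (by positivity)
  push_cast
  have h7 : c / 3 * 2 ^ Nat.log 2 n ≤ c / 3 * n := mul_le_mul_of_nonneg_left h5 (by positivity)
  linarith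

theorem pair : PairBound := by
  classical
  intro δ ε I hδ hε
  set η : ℝ := (1 / 2) ^ (I + 4) with hη
  have hη0 : 0 < η := by positivity
  have hη1 : η ≤ 1 := pow_le_one₀ (by norm_num) (by norm_num)
  set q : ℝ := Real.exp (-(η ^ 2 / 4) * δ) with hq
  have hq0 : 0 < q := Real.exp_pos _
  have hq1 : q < 1 := by
    rw [hq, Real.exp_lt_one_iff]
    have : 0 < η ^ 2 / 4 * δ := by positivity
    linarith
  obtain ⟨N1, hN1⟩ := pair_log (η * δ) (by positivity)
  obtain ⟨N2, hN2⟩ := Pool.MP5bc52d.AA.eventually_small (2 * q⁻¹) ε q hε hq0.le hq1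
    (2 * (I + 2))
  refine ⟨max 1 (max N1 N2), ?_⟩
  intro n hn ι κ _ _ _ _ hι hκ hδκ
  have hn1 : 1 ≤ n := le_trans (le_max_left _ _) hn
  have hnN1 : N1 ≤ n := le_trans (le_trans (le_max_left _ _) (le_max_right _ _)) hn
  have hnN2 : N2 ≤ n := le_trans (le_trans (le_max_right _ _) (le_max_right _ _)) hn
  have hn0 : (0 : ℝ) < n := by exact_mod_cast hn1
  have hm : 0 < (Fintype.card κ : ℝ) := lt_of_lt_of_le (by positivity) hδκ
  have hL : ((3 * Nat.log 2 n : ℕ) : ℝ) ≤ η * Fintype.card κ := by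
    refine (hN1 n hnN1).trans ?_
    rw [mul_assoc]
    exact mul_le_mul_of_nonneg_left hδκ hη0.le
  have hqq : δ / 2 ^ (I + 1) * n ≤ (1 / 2) ^ (I + 1) * (Fintype.card κ : ℝ) := by
    have h1 : δ / 2 ^ (I + 1) * n = (1 / 2) ^ (I + 1) * (δ * n) := by
      rw [one_div, inv_pow]
      field_simp
    rw [h1]
    exact mul_le_mul_of_nonneg_left hδκ (by positivity)
  have hsub : (univ.filter fun f : ι → Finset κ => ¬ ∀ (W : Finset ι) (D : Finset κ),
      W.card ≤ I → D.card ≤ 3 * Nat.log 2 n → PairAt f (δ / 2 ^ (I + 1) * n) W D) ⊆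
      (univ.filter fun f : ι → Finset κ => ¬ PairReg f (I + 2) η) := by
    intro f hf
    rw [mem_filter] at hf ⊢
    refine ⟨mem_univ _, fun hreg => hf.2 fun W D hW hD => ?_⟩
    exact pairAt_of_reg f I _ _ hreg hm hL hqq W D hW hD
  have h1 : ((univ.filter fun f : ι → Finset κ => ¬ ∀ (W : Finset ι) (D : Finset κ),
      W.card ≤ I → D.card ≤ 3 * Nat.log 2 n → PairAt f (δ / 2 ^ (I + 1) * n) W D).card : ℝ) ≤
      ((univ.filter fun f : ι → Finset κ => ¬ PairReg f (I + 2) η).card : ℝ) := by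
    exact_mod_cast card_le_card hsub
  refine le_trans ?_ (h1.trans ((pair_reg (I + 2) η hη0.le hη1).trans ?_))
  · refine le_of_eq ?_
    congr 2
  · rw [← mul_assoc, ← mul_assoc]
    refine mul_le_mul_of_nonneg_right ?_ (by positivity)
    have h2 : Real.exp (-(η ^ 2 / 4) * Fintype.card κ) ≤ q ^ n := by
      rw [hq, ← Real.exp_nat_mul]
      apply Real.exp_le_exp.mpr
      have h3 : 0 ≤ η ^ 2 / 4 := by positivity
      have h4 := mul_le_mul_of_nonneg_left hδκ h3
      linarith
    have h3 : (Fintype.card ι + 1 : ℝ) ^ (2 * (I + 2)) ≤ (n + 1 : ℝ) ^ (2 * (I + 2)) := by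
      apply pow_le_pow_left₀ (by positivity)
      have : (Fintype.card ι : ℝ) ≤ n := by exact_mod_cast hι
      linarith
    calc (Fintype.card ι + 1 : ℝ) ^ (2 * (I + 2)) * 2 *
          Real.exp (-(η ^ 2 / 4) * Fintype.card κ)
        ≤ (n + 1 : ℝ) ^ (2 * (I + 2)) * 2 * q ^ n := by
          apply mul_le_mul _ h2 (Real.exp_pos _).le (by positivity)
          exact mul_le_mul_of_nonneg_right h3 (by norm_num)
      _ = 2 * q⁻¹ * ((n + 1 : ℝ) ^ (2 * (I + 2)) * q ^ (n + 1)) := by
          rw [pow_succ]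
          field_simp
      _ ≤ ε := hN2 n hnN2

end Pool.Agent.Lib.MP_5bc52d_co.TA
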