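import Mathlib
import Pool.Agent.Lib.MP_5bc52d_co.TA.Graph

/-!
# The quantile lemma for the binomial distribution
-/

namespace Pool.Agent.Lib.MP_5bc52d_co.TA

open Finset

theorem quant_central_sq (k : ℕ) (hk : 1 ≤ k) :
    16 ^ k ≤ 4 * k * (Nat.centralBinom k) ^ 2 := by
  induction k, hk using Nat.le_induction with
  | base => norm_num [Nat.centralBinom, Nat.choose]
  | succ k hk ih =>
    have h1 := Nat.succ_mul_centralBinom_succ k
    have h2 : (k + 1) * 16 ^ (k + 1) ≤ (k + 1) * (4 * (k + 1) * (Nat.centralBinom (k + 1)) ^ 2) := by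
      have e1 : (k + 1) * (4 * (k + 1) * (Nat.centralBinom (k + 1)) ^ 2)
          = 4 * ((k + 1) * Nat.centralBinom (k + 1)) ^ 2 := by ring
      rw [e1, h1]
      calc (k + 1) * 16 ^ (k + 1) = 16 * (k + 1) * 16 ^ k := by ring
        _ ≤ 16 * (k + 1) * (4 * k * (Nat.centralBinom k) ^ 2) := Nat.mul_le_mul_left _ ih
        _ = 16 * (4 * k * (k + 1)) * (Nat.centralBinom k) ^ 2 := by ring
        _ ≤ 16 * ((2 * k + 1) ^ 2) * (Nat.centralBinom k) ^ 2 := by
            refine Nat.mul_le_mul_right _ (Nat.mul_le_mul_left _ ?_)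
            nlinarith
        _ = 4 * (2 * (2 * k + 1) * Nat.centralBinom k) ^ 2 := by ring
    exact Nat.le_of_mul_le_mul_left h2 (by omega)

theorem quant_central_real (k : ℕ) (hk : 1 ≤ k) :
    (4 : ℝ) ^ k ≤ 2 * Real.sqrt k * (Nat.centralBinom k : ℝ) := by
  have h := quant_central_sq k hk
  have h' : ((4 : ℝ) ^ k) ^ 2 ≤ (2 * Real.sqrt k * (Nat.centralBinom k : ℝ)) ^ 2 := by
    have e1 : ((4 : ℝ) ^ k) ^ 2 = 16 ^ k := by
      rw [← pow_mul, mul_comm, pow_mul]
      norm_num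
    have e2 : (2 * Real.sqrt k * (Nat.centralBinom k : ℝ)) ^ 2
        = 4 * k * (Nat.centralBinom k : ℝ) ^ 2 := by
      rw [mul_pow, mul_pow, Real.sq_sqrt (by positivity)]
      ring
    rw [e1, e2]
    exact_mod_cast h
  exact (pow_le_pow_iff_left₀ (by positivity) (by positivity) (by norm_num)).1 h'

theorem quant_middle (m : ℕ) (hm : 1 ≤ m) :
    (2 : ℝ) ^ m ≤ 2 * Real.sqrt m * ((m.choose (m / 2) : ℕ) : ℝ) := by
  rcases Nat.even_or_odd m with ⟨k, hk⟩ | ⟨k, hk⟩
  · have hk2 : m = 2 * k := by omega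
    have hk1 : 1 ≤ k := by omega
    have h := quant_central_real k hk1
    have e : m.choose (m / 2) = Nat.centralBinom k := by
      rw [hk2, Nat.mul_div_cancel_left k (by norm_num), Nat.centralBinom]
    rw [e]
    have e2 : (2 : ℝ) ^ m = 4 ^ k := by
      rw [hk2, pow_mul]
      norm_num
    rw [e2]
    refine h.trans ?_
    have : Real.sqrt k ≤ Real.sqrt m := Real.sqrt_le_sqrt (by rw [hk2]; push_cast; linarith [(Nat.cast_nonneg k : (0:ℝ) ≤ k)])
    gcongr
  · have h := quant_central_real (k + 1) (by omega)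
    have e0 : m / 2 = k := by omega
    have e : 2 * m.choose (m / 2) = Nat.centralBinom (k + 1) := by
      rw [e0, hk, Nat.centralBinom]
      have : 2 * (k + 1) = (2 * k + 1) + 1 := by ring
      rw [this, Nat.choose_succ_succ' (2 * k + 1) k]
      have hs : (2 * k + 1).choose (k + 1) = (2 * k + 1).choose k := by
        rw [← Nat.choose_symm (by omega : k + 1 ≤ 2 * k + 1)]
        congr 1
        omega
      rw [hs]
      ring
    have e2 : (2 : ℝ) ^ m * 2 = 4 ^ (k + 1) := by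
      rw [hk, ← pow_succ]
      have : 2 * k + 1 + 1 = 2 * (k + 1) := by ring
      rw [this, pow_mul]
      norm_num
    have e3 : ((Nat.centralBinom (k + 1) : ℕ) : ℝ) = 2 * ((m.choose (m / 2) : ℕ) : ℝ) := by
      rw [← e]
      push_cast
      ring
    rw [← e2, e3] at h
    have hs : Real.sqrt ((k + 1 : ℕ) : ℝ) ≤ Real.sqrt m :=
      Real.sqrt_le_sqrt (by rw [hk]; push_cast; linarith [(Nat.cast_nonneg k : (0:ℝ) ≤ k)])
    have hc : (0 : ℝ) ≤ ((m.choose (m / 2) : ℕ) : ℝ) := by positivity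
    have h5 : Real.sqrt ((k + 1 : ℕ) : ℝ) * ((m.choose (m / 2) : ℕ) : ℝ)
        ≤ Real.sqrt m * ((m.choose (m / 2) : ℕ) : ℝ) := mul_le_mul_of_nonneg_right hs hc
    nlinarith

/-- decreasing above the middle -/
theorem quant_choose_succ_le (m j : ℕ) (h : m ≤ 2 * j + 1) : m.choose (j + 1) ≤ m.choose j := by
  have h1 := Nat.choose_succ_right_eq m j
  by_contra hc
  push Not at hc
  have h2 : m.choose j * (m - j) ≤ m.choose j * (j + 1) := Nat.mul_le_mul_left _ (by omega)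
  have h3 : m.choose j * (j + 1) < m.choose (j + 1) * (j + 1) :=
    Nat.mul_lt_mul_of_pos_right hc (by omega)
  omega

theorem quant_choose_anti (m i j : ℕ) (h : m ≤ 2 * i + 1) (hij : i ≤ j) :
    m.choose j ≤ m.choose i := by
  induction j, hij using Nat.le_induction with
  | base => exact le_rfl
  | succ j hj ih => exact (quant_choose_succ_le m j (by omega)).trans ih

/-- the upper tail -/
theorem quant_tail_le (r v : ℕ) (hr : 1 ≤ r) (hv : (r : ℝ) / 2 ≤ v) :
    ∑ k ∈ Icc v r, (r.choose k : ℝ)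
      ≤ 2 ^ r * Real.exp (-(2 * ((v : ℝ) - r / 2) ^ 2 / r)) := by
  have hmr : (0 : ℝ) < r := by exact_mod_cast hr
  set T : ℝ := (v : ℝ) - r / 2 with hT
  have hT0 : 0 ≤ T := by rw [hT]; linarith
  set l : ℝ := 4 * T / r with hl
  have hl0 : 0 ≤ l := by positivity
  have h1 : ∑ k ∈ Icc v r, (r.choose k : ℝ)
      ≤ ∑ k ∈ range (r + 1), (r.choose k : ℝ) * Real.exp (l * ((k : ℝ) - v)) := by
    refine (sum_le_sum (f := fun k => (r.choose k : ℝ))
      (g := fun k => (r.choose k : ℝ) * Real.exp (l * ((k : ℝ) - v))) ?_).trans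
      (sum_le_sum_of_subset_of_nonneg ?_ (fun _ _ _ => by positivity))
    · intro k hk
      have hk' : (v : ℝ) ≤ k := by exact_mod_cast (mem_Icc.1 hk).1
      have : 1 ≤ Real.exp (l * ((k : ℝ) - v)) := Real.one_le_exp (mul_nonneg hl0 (by linarith))
      have h0 : (0 : ℝ) ≤ (r.choose k : ℝ) := by positivity
      nlinarith
    · intro k hk
      rw [mem_range]
      have := (mem_Icc.1 hk).2
      omega
  refine h1.trans ?_
  have h2 : ∑ k ∈ range (r + 1), (r.choose k : ℝ) * Real.exp (l * ((k : ℝ) - v))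
      = Real.exp (-(l * v)) * (Real.exp l + 1) ^ r := by
    rw [add_pow, mul_sum]
    refine sum_congr rfl ?_
    intro k _
    rw [one_pow, mul_one, ← Real.exp_nat_mul]
    have : Real.exp (l * ((k : ℝ) - v)) = Real.exp (-(l * v)) * Real.exp (k * l) := by
      rw [← Real.exp_add]
      congr 1
      ring
    rw [this]
    ring
  rw [h2]
  have h4 : Real.exp l + 1 = Real.exp (l / 2) * (2 * Real.cosh (l / 2)) := by
    rw [Real.cosh_eq]
    have e1 : Real.exp (l / 2) * Real.exp (l / 2) = Real.exp l := by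
      rw [← Real.exp_add]
      congr 1
      ring
    have e2 : Real.exp (l / 2) * Real.exp (-(l / 2)) = 1 := by
      rw [← Real.exp_add]
      simp
    nlinarith
  rw [h4, mul_pow, mul_pow]
  have h5 : Real.cosh (l / 2) ^ r ≤ Real.exp (l ^ 2 / 8 * r) := by
    have h6 : Real.cosh (l / 2) ≤ Real.exp ((l / 2) ^ 2 / 2) := Real.cosh_le_exp_half_sq _
    calc Real.cosh (l / 2) ^ r ≤ (Real.exp ((l / 2) ^ 2 / 2)) ^ r :=
          pow_le_pow_left₀ (Real.cosh_pos _).le h6 r
      _ = Real.exp (l ^ 2 / 8 * r) := by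
          rw [← Real.exp_nat_mul]
          congr 1
          ring
  calc Real.exp (-(l * v)) * (Real.exp (l / 2) ^ r * (2 ^ r * Real.cosh (l / 2) ^ r))
      ≤ Real.exp (-(l * v)) * (Real.exp (l / 2) ^ r * (2 ^ r * Real.exp (l ^ 2 / 8 * r))) := by
        gcongr
    _ = 2 ^ r * Real.exp (-(2 * T ^ 2 / r)) := by
        rw [← Real.exp_nat_mul]
        have : Real.exp (-(l * v)) * (Real.exp (r * (l / 2)) * (2 ^ r * Real.exp (l ^ 2 / 8 * r)))
            = 2 ^ r * (Real.exp (-(l * v)) * Real.exp (r * (l / 2)) * Real.exp (l ^ 2 / 8 * r)) := by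
          ring
        rw [this, ← Real.exp_add, ← Real.exp_add]
        congr 2
        have hvT : (v : ℝ) = T + r / 2 := by rw [hT]; ring
        rw [hvT, hl]
        field_simp
        ring

/-- the coefficients in a window above `v` are not much smaller -/
theorem quant_window (r v s : ℕ) (x : ℝ) (hv : r ≤ 2 * v + 1)
    (hx : 4 * ((v : ℝ) - r / 2) + 4 * s + 2 ≤ x * r) (hx0 : 0 ≤ x) (i : ℕ) (hi : i ≤ s)
    (hxi : x * s ≤ 1) :
    (r.choose v : ℝ) * (1 - i * x) ≤ (r.choose (v + i) : ℝ) := by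
  induction i with
  | zero => simp
  | succ i ih =>
    have ih' := ih (by omega)
    have hrec := Nat.choose_succ_right_eq r (v + i)
    have hc0 : (0 : ℝ) ≤ (r.choose (v + i) : ℝ) := by positivity
    have hpos : (0 : ℝ) < (v : ℝ) + i + 1 := by positivity
    have hrec' : (r.choose (v + i + 1) : ℝ) * ((v : ℝ) + i + 1)
        = (r.choose (v + i) : ℝ) * ((r - (v + i) : ℕ) : ℝ) := by
      have := congrArg (fun z : ℕ => (z : ℝ)) hrec
      push_cast at this
      exact this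
    have hge : (r : ℝ) - (v + i) ≤ ((r - (v + i) : ℕ) : ℝ) := by
      have := Nat.cast_le (α := ℝ) |>.2 (show r ≤ (r - (v + i)) + (v + i) by omega)
      push_cast at this
      linarith
    have hi' : (i : ℝ) + 1 ≤ s := by exact_mod_cast hi
    have hi0 : (0 : ℝ) ≤ i := by positivity
    have hv' : (r : ℝ) ≤ 2 * v + 1 := by exact_mod_cast hv
    have hstep : (r.choose (v + i) : ℝ) * (1 - x) ≤ (r.choose (v + i + 1) : ℝ) := by
      rw [← mul_le_mul_iff_left₀ hpos, hrec']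
      refine le_trans ?_ (mul_le_mul_of_nonneg_left hge hc0)
      rw [mul_assoc]
      refine mul_le_mul_of_nonneg_left ?_ hc0
      have h1 : x * (r / 2) ≤ x * ((v : ℝ) + i + 1) := by
        refine mul_le_mul_of_nonneg_left ?_ hx0
        linarith
      nlinarith
    have h1x : 0 ≤ 1 - x := by
      have : x ≤ x * s := by
        have hs1 : (1 : ℝ) ≤ s := by linarith
        nlinarith
      linarith
    have h2 : (r.choose v : ℝ) * (1 - i * x) * (1 - x) ≤ (r.choose (v + i) : ℝ) * (1 - x) :=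
      mul_le_mul_of_nonneg_right ih' h1x
    have h3 : (r.choose v : ℝ) * (1 - ((i + 1 : ℕ) : ℝ) * x)
        ≤ (r.choose v : ℝ) * (1 - i * x) * (1 - x) := by
      rw [mul_assoc]
      refine mul_le_mul_of_nonneg_left ?_ (by positivity)
      push_cast
      nlinarith [mul_nonneg hi0 (mul_nonneg hx0 hx0)]
    have e : v + (i + 1) = v + i + 1 := by ring
    rw [e]
    linarith

theorem quant_asymp (δ : ℝ) (hδ : 0 < δ) : ∃ N : ℕ, ∀ n ≥ N,
    1 ≤ (n : ℝ) ∧ 1 ≤ δ * n ∧ 2 * Real.sqrt n ≤ (n : ℝ) ^ (9 / 10 : ℝ) ∧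
    Real.log n ≤ (n : ℝ) ^ (1 / 10 : ℝ) ∧ 2 ≤ (n : ℝ) ^ (4 / 10 : ℝ) ∧
    20 ≤ δ * (n : ℝ) ^ (5 / 100 : ℝ) ∧ 4 ≤ (n : ℝ) ^ (5 / 100 : ℝ) := by
  have t : Filter.Tendsto (fun n : ℕ => (n : ℝ)) Filter.atTop Filter.atTop :=
    tendsto_natCast_atTop_atTop
  have a1 : ∀ᶠ n : ℕ in Filter.atTop, 1 ≤ (n : ℝ) := t.eventually_ge_atTop 1
  have a2 : ∀ᶠ n : ℕ in Filter.atTop, 1 / δ ≤ (n : ℝ) := t.eventually_ge_atTop (1 / δ)
  have p4 : Filter.Tendsto (fun n : ℕ => (n : ℝ) ^ (4 / 10 : ℝ)) Filter.atTop Filter.atTop :=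
    (tendsto_rpow_atTop (by norm_num)).comp t
  have p5 : Filter.Tendsto (fun n : ℕ => (n : ℝ) ^ (5 / 100 : ℝ)) Filter.atTop Filter.atTop :=
    (tendsto_rpow_atTop (by norm_num)).comp t
  have a3 := p4.eventually_ge_atTop 2
  have a4 := p5.eventually_ge_atTop (20 / δ)
  have a5 := p5.eventually_ge_atTop 4
  have hlog : ∀ᶠ x : ℝ in Filter.atTop, ‖Real.log x‖ ≤ 1 * ‖x ^ (1 / 10 : ℝ)‖ :=
    (isLittleO_log_rpow_atTop (r := 1 / 10) (by norm_num)).bound (by norm_num)
  have a6 := t.eventually hlog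
  obtain ⟨N, hN⟩ := Filter.eventually_atTop.1 (a1.and (a2.and (a3.and (a4.and (a5.and a6)))))
  refine ⟨N, fun n hn => ?_⟩
  obtain ⟨b1, b2, b3, b4, b5, b6⟩ := hN n hn
  have hn0 : (0 : ℝ) ≤ n := by linarith
  have hnpos : (0 : ℝ) < n := by linarith
  refine ⟨b1, ?_, ?_, ?_, b3, ?_, b5⟩
  · rw [div_le_iff₀ hδ] at b2
    linarith
  · have e : (n : ℝ) ^ (9 / 10 : ℝ) = Real.sqrt n * (n : ℝ) ^ (4 / 10 : ℝ) := by
      rw [Real.sqrt_eq_rpow, ← Real.rpow_add hnpos]
      norm_num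
    rw [e, mul_comm]
    exact mul_le_mul_of_nonneg_left b3 (Real.sqrt_nonneg _)
  · have h1 : 0 ≤ (n : ℝ) ^ (1 / 10 : ℝ) := by positivity
    rw [Real.norm_eq_abs, Real.norm_eq_abs, abs_of_nonneg h1, one_mul] at b6
    exact (le_abs_self _).trans b6
  · rw [div_le_iff₀ hδ] at b4
    linarith

theorem quant : QuantLemma := by
  intro δ hδ
  obtain ⟨N, hN⟩ := quant_asymp δ hδ
  refine ⟨N, fun n hn r hr1 hr2 => ?_⟩
  obtain ⟨c1, c2, c3, c4, c5, c6, c7⟩ := hN n hn
  have hnpos : (0 : ℝ) < n := by linarith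
  have hrpos : (0 : ℝ) < r := by linarith
  have hr1' : 1 ≤ r := by
    have : (1 : ℝ) ≤ r := by linarith
    exact_mod_cast this
  have hrn : (r : ℝ) ≤ n := by exact_mod_cast hr2
  set q : ℝ := (n : ℝ) ^ (-(9 / 10) : ℝ) with hq
  have hqpos : 0 < q := by positivity
  have hqinv : q * (n : ℝ) ^ (9 / 10 : ℝ) = 1 := by
    rw [hq, ← Real.rpow_add hnpos]
    norm_num
  set f : ℕ → ℝ := fun v => ∑ k ∈ Icc v r, (r.choose k : ℝ) with hf
  have h2r : (0 : ℝ) < 2 ^ r := by positivity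
  -- the middle
  have hmid : q * 2 ^ r ≤ f (r / 2) := by
    have h1 := quant_middle r hr1'
    have h2 : ((r.choose (r / 2) : ℕ) : ℝ) ≤ f (r / 2) := by
      rw [hf]
      refine single_le_sum (f := fun k => (r.choose k : ℝ)) (fun _ _ => by positivity) ?_
      rw [mem_Icc]
      omega
    have h3 : 2 * Real.sqrt r ≤ (n : ℝ) ^ (9 / 10 : ℝ) := by
      refine le_trans ?_ c3
      have := Real.sqrt_le_sqrt hrn
      linarith
    have h4 : (2 : ℝ) ^ r ≤ (n : ℝ) ^ (9 / 10 : ℝ) * ((r.choose (r / 2) : ℕ) : ℝ) :=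
      h1.trans (mul_le_mul_of_nonneg_right h3 (by positivity))
    calc q * 2 ^ r ≤ q * ((n : ℝ) ^ (9 / 10 : ℝ) * ((r.choose (r / 2) : ℕ) : ℝ)) :=
          mul_le_mul_of_nonneg_left h4 hqpos.le
      _ = ((r.choose (r / 2) : ℕ) : ℝ) := by rw [← mul_assoc, hqinv, one_mul]
      _ ≤ _ := h2
  classical
  set v := Nat.findGreatest (fun v => q * 2 ^ r ≤ f v) r with hv
  have hv1 : r / 2 ≤ v := Nat.le_findGreatest (Nat.div_le_self r 2) hmid
  have hvr : v ≤ r := Nat.findGreatest_le r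
  have hPv : q * 2 ^ r ≤ f v :=
    Nat.findGreatest_spec (P := fun v => q * 2 ^ r ≤ f v) (Nat.div_le_self r 2) hmid
  have hnot : f (v + 1) < q * 2 ^ r := by
    by_contra hc
    push Not at hc
    by_cases hle : v + 1 ≤ r
    · exact Nat.findGreatest_is_greatest (P := fun v => q * 2 ^ r ≤ f v) (n := r) (k := v + 1)
        (by omega) hle hc
    · have : f (v + 1) = 0 := by
        rw [hf]
        simp only
        rw [Icc_eq_empty (by omega)]
        simp
      rw [this] at hc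
      have : 0 < q * 2 ^ r := by positivity
      linarith
  have hvodd : r ≤ 2 * v + 1 := by omega
  -- bound on `v`
  have hT : (v : ℝ) - r / 2 ≤ (n : ℝ) ^ (55 / 100 : ℝ) := by
    by_cases hvv : (r : ℝ) / 2 ≤ v
    · have h1 := quant_tail_le r v hr1' hvv
      have h2 : q ≤ Real.exp (-(2 * ((v : ℝ) - r / 2) ^ 2 / r)) := by
        have := hPv.trans h1
        rw [mul_comm] at this
        exact le_of_mul_le_mul_left this h2r
      have h3 : Real.log q ≤ -(2 * ((v : ℝ) - r / 2) ^ 2 / r) := by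
        rw [← Real.log_exp (-(2 * ((v : ℝ) - r / 2) ^ 2 / r))]
        exact Real.log_le_log hqpos h2
      have h4 : Real.log q = -(9 / 10) * Real.log n := by
        rw [hq, Real.log_rpow hnpos]
      rw [h4] at h3
      have h5 : 2 * ((v : ℝ) - r / 2) ^ 2 / r ≤ (n : ℝ) ^ (1 / 10 : ℝ) := by
        have : 0 ≤ Real.log n := Real.log_nonneg c1
        linarith
      have h6 : ((v : ℝ) - r / 2) ^ 2 ≤ (n : ℝ) ^ (1 / 10 : ℝ) * n := by
        rw [div_le_iff₀ hrpos] at h5
        have h7 : (n : ℝ) ^ (1 / 10 : ℝ) * r ≤ (n : ℝ) ^ (1 / 10 : ℝ) * n :=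
          mul_le_mul_of_nonneg_left hrn (by positivity)
        nlinarith [sq_nonneg ((v : ℝ) - r / 2)]
      have h7 : (n : ℝ) ^ (1 / 10 : ℝ) * n = ((n : ℝ) ^ (55 / 100 : ℝ)) ^ 2 := by
        rw [← Real.rpow_natCast, ← Real.rpow_mul hnpos.le]
        nth_rewrite 2 [← Real.rpow_one (n : ℝ)]
        rw [← Real.rpow_add hnpos]
        norm_num
      rw [h7] at h6
      exact le_of_sq_le_sq h6 (by positivity)
    · push Not at hvv
      have : (0 : ℝ) ≤ (n : ℝ) ^ (55 / 100 : ℝ) := by positivity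
      linarith
  -- the window
  set y : ℝ := (n : ℝ) ^ (4 / 10 : ℝ) with hy
  set s : ℕ := ⌊y⌋₊ with hs
  have hy0 : 0 ≤ y := by positivity
  have hs1 : (s : ℝ) ≤ y := Nat.floor_le hy0
  have hs2 : y ≤ 2 * s := by
    have : y < s + 1 := Nat.lt_floor_add_one y
    linarith
  have hspos : (0 : ℝ) < s := by linarith
  have hsn : (1 : ℝ) ≤ s := by linarith
  set w : ℝ := (n : ℝ) ^ (55 / 100 : ℝ) with hw
  have hyw : y ≤ w := by
    rw [hy, hw]
    exact Real.rpow_le_rpow_of_exponent_le c1 (by norm_num)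
  set x : ℝ := (4 * w + 4 * s + 2) / r with hx
  have hw0 : 0 ≤ w := by positivity
  have hx0 : 0 ≤ x := by positivity
  have hxr : 4 * ((v : ℝ) - r / 2) + 4 * s + 2 ≤ x * r := by
    rw [hx, div_mul_cancel₀ _ hrpos.ne']
    linarith
  have hxs : x * s ≤ 1 / 2 := by
    rw [hx, div_mul_eq_mul_div, div_le_iff₀ hrpos]
    have h1 : (4 * w + 4 * s + 2) ≤ 10 * w := by linarith
    have h2 : (4 * w + 4 * s + 2) * s ≤ 10 * w * y :=
      mul_le_mul h1 hs1 hspos.le (by positivity)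
    have h3 : w * y * (n : ℝ) ^ (5 / 100 : ℝ) = n := by
      rw [hw, hy, ← Real.rpow_add hnpos, ← Real.rpow_add hnpos]
      norm_num
    have hwy : 0 ≤ w * y := mul_nonneg hw0 hy0
    have h4 : 20 * (w * y) ≤ δ * (n : ℝ) ^ (5 / 100 : ℝ) * (w * y) :=
      mul_le_mul_of_nonneg_right c6 hwy
    have h5 : δ * (n : ℝ) ^ (5 / 100 : ℝ) * (w * y) = δ * n := by
      calc δ * (n : ℝ) ^ (5 / 100 : ℝ) * (w * y) = δ * (w * y * (n : ℝ) ^ (5 / 100 : ℝ)) := by ring
        _ = δ * n := by rw [h3]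
    rw [h5] at h4
    linarith
  have hwin : ∀ i ≤ s, (r.choose v : ℝ) / 2 ≤ (r.choose (v + i) : ℝ) := by
    intro i hi
    have h1 := quant_window r v s x hvodd hxr hx0 i hi (by linarith)
    refine le_trans ?_ h1
    have hi' : (i : ℝ) ≤ s := by exact_mod_cast hi
    have h2 : (i : ℝ) * x ≤ 1 / 2 := by
      have : (i : ℝ) * x ≤ s * x := mul_le_mul_of_nonneg_right hi' hx0
      linarith [mul_comm x (s : ℝ)]
    have h3 : (0 : ℝ) ≤ (r.choose v : ℝ) := by positivity
    nlinarith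
  have hsum : (s : ℝ) * ((r.choose v : ℝ) / 2) ≤ f (v + 1) := by
    have h1 : ∑ i ∈ range s, (r.choose (v + 1 + i) : ℝ) ≤ f (v + 1) := by
      have e : ∑ i ∈ range s, (r.choose (v + 1 + i) : ℝ)
          = ∑ k ∈ Ico (v + 1) (v + 1 + s), (r.choose k : ℝ) := by
        rw [sum_Ico_eq_sum_range]
        congr 1
        congr 1
        omega
      rw [e, hf]
      have e2 : ∑ k ∈ Ico (v + 1) (v + 1 + s), (r.choose k : ℝ)
          = ∑ k ∈ (Ico (v + 1) (v + 1 + s)).filter (fun k => k ≤ r), (r.choose k : ℝ) := by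
        rw [sum_filter_of_ne]
        intro k _ hk0
        by_contra hc
        push Not at hc
        exact hk0 (by rw [Nat.choose_eq_zero_of_lt hc]; simp)
      rw [e2]
      refine sum_le_sum_of_subset_of_nonneg ?_ (fun _ _ _ => by positivity)
      intro k hk
      rw [mem_filter, mem_Ico] at hk
      rw [mem_Icc]
      omega
    refine le_trans ?_ h1
    have h2 : ∑ _i ∈ range s, ((r.choose v : ℝ) / 2) ≤ ∑ i ∈ range s, (r.choose (v + 1 + i) : ℝ) := by
      refine sum_le_sum ?_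
      intro i hi
      have := hwin (i + 1) (by have := mem_range.1 hi; omega)
      have e : v + (i + 1) = v + 1 + i := by ring
      rw [e] at this
      exact this
    rw [sum_const, card_range, nsmul_eq_mul] at h2
    exact h2
  have hcv : (r.choose v : ℝ) ≤ (n : ℝ) ^ (-(5 / 4) : ℝ) * 2 ^ r := by
    have h1 : (s : ℝ) * ((r.choose v : ℝ) / 2) ≤ q * 2 ^ r := hsum.trans hnot.le
    have h2 : y * (r.choose v : ℝ) ≤ 4 * (q * 2 ^ r) := by
      have h3 : (0 : ℝ) ≤ (r.choose v : ℝ) := by positivity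
      nlinarith
    have h3 : 4 * q ≤ (n : ℝ) ^ (-(5 / 4) : ℝ) * y := by
      have e : (n : ℝ) ^ (-(5 / 4) : ℝ) * y = q * (n : ℝ) ^ (5 / 100 : ℝ) := by
        rw [hy, hq, ← Real.rpow_add hnpos, ← Real.rpow_add hnpos]
        norm_num
      rw [e]
      nlinarith
    have hypos : 0 < y := by linarith
    refine le_of_mul_le_mul_left ?_ hypos
    calc y * (r.choose v : ℝ) ≤ 4 * (q * 2 ^ r) := h2
      _ = (4 * q) * 2 ^ r := by ring
      _ ≤ ((n : ℝ) ^ (-(5 / 4) : ℝ) * y) * 2 ^ r := mul_le_mul_of_nonneg_right h3 h2r.le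
      _ = y * ((n : ℝ) ^ (-(5 / 4) : ℝ) * 2 ^ r) := by ring
  refine ⟨v, hPv, ?_, ?_⟩
  · have h1 : f v = (r.choose v : ℝ) + f (v + 1) := by
      rw [hf]
      simp only
      have e : Icc v r = insert v (Icc (v + 1) r) := by
        ext k
        rw [mem_insert, mem_Icc, mem_Icc]
        omega
      rw [e, sum_insert (by simp)]
    have h2 : (n : ℝ) ^ (-(5 / 4) : ℝ) ≤ q := by
      rw [hq]
      exact Real.rpow_le_rpow_of_exponent_le c1 (by norm_num)
    have h3 : (r.choose v : ℝ) ≤ q * 2 ^ r := hcv.trans (mul_le_mul_of_nonneg_right h2 h2r.le)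
    change f v ≤ _
    rw [h1]
    linarith
  · intro k hk
    refine le_trans ?_ hcv
    exact_mod_cast quant_choose_anti r v k hvodd hk

end Pool.Agent.Lib.MP_5bc52d_co.TA
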