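import Mathlib
import Pool.Agent.Lib.MP_5bc52d_co.TA.Graph
import Pool.Agent.Lib.MP_5bc52d_co.AA.Common

/-!
# Empty rectangles and common neighbours

Almost no bipartite graph has a large empty rectangle (`rect`), and in almost all bipartite graphs
any `K` rows have a common neighbour (`com`).
-/

namespace Pool.Agent.Lib.MP_5bc52d_co.TA

open Finset

section card
variable {ι κ : Type} [Fintype ι] [Fintype κ] [DecidableEq ι] [DecidableEq κ]

/-- The number of graphs without edges between `S` and `D`. -/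
theorem rect_card (S : Finset ι) (D : Finset κ) :
    (univ.filter fun f : ι → Finset κ => ∀ b ∈ S, ∀ y ∈ D, y ∉ f b).card * 2 ^ (S.card * D.card) =
      (2 ^ Fintype.card κ) ^ Fintype.card ι := by
  have h1 : (univ.filter fun f : ι → Finset κ => ∀ b ∈ S, ∀ y ∈ D, y ∉ f b) =
      Fintype.piFinset fun b => if b ∈ S then (univ \ D).powerset else univ := by
    ext f
    simp only [mem_filter, mem_univ, true_and, Fintype.mem_piFinset]
    constructor
    · intro h b
      by_cases hb : b ∈ S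
      · rw [if_pos hb, mem_powerset]
        intro y hy
        exact mem_sdiff.2 ⟨mem_univ _, fun hD => h b hb y hD hy⟩
      · rw [if_neg hb]
        exact mem_univ _
    · intro h b hb y hy hf
      have h2 := h b
      rw [if_pos hb, mem_powerset] at h2
      exact (mem_sdiff.1 (h2 hf)).2 hy
  have h2 : (2 : ℕ) ^ (S.card * D.card) = ∏ b : ι, if b ∈ S then 2 ^ D.card else 1 := by
    rw [prod_ite_mem, univ_inter, prod_const, ← pow_mul, mul_comm]
  rw [h1, Fintype.card_piFinset, h2, ← prod_mul_distrib]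
  have h3 : ∀ b : ι, (if b ∈ S then (univ \ D).powerset else univ).card *
      (if b ∈ S then 2 ^ D.card else 1) = 2 ^ Fintype.card κ := by
    intro b
    by_cases hb : b ∈ S
    · rw [if_pos hb, if_pos hb, card_powerset, card_univ_sdiff, ← pow_add,
        Nat.sub_add_cancel (card_le_univ D)]
    · rw [if_neg hb, if_neg hb, mul_one, card_univ, Fintype.card_finset]
  rw [prod_congr rfl fun b _ => h3 b, prod_const, card_univ]

/-- The number of graphs with an empty rectangle of side `t`. -/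
theorem rect_count (n t : ℕ) (hι : Fintype.card ι ≤ n) (hκ : Fintype.card κ ≤ n) :
    (univ.filter fun f : ι → Finset κ => ∃ (S : Finset ι) (D : Finset κ), S.card = t ∧
      D.card = t ∧ ∀ b ∈ S, ∀ y ∈ D, y ∉ f b).card * 2 ^ (t * t) ≤
      n ^ t * n ^ t * (2 ^ Fintype.card κ) ^ Fintype.card ι := by
  classical
  have h1 : (univ.filter fun f : ι → Finset κ => ∃ (S : Finset ι) (D : Finset κ), S.card = t ∧
      D.card = t ∧ ∀ b ∈ S, ∀ y ∈ D, y ∉ f b) ⊆
      (powersetCard t (univ : Finset ι) ×ˢ powersetCard t (univ : Finset κ)).biUnion fun p =>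
        univ.filter fun f : ι → Finset κ => ∀ b ∈ p.1, ∀ y ∈ p.2, y ∉ f b := by
    intro f hf
    obtain ⟨-, S, D, hS, hD, h⟩ := mem_filter.1 hf
    exact mem_biUnion.2 ⟨(S, D), mem_product.2 ⟨mem_powersetCard_univ.2 hS,
      mem_powersetCard_univ.2 hD⟩, mem_filter.2 ⟨mem_univ _, h⟩⟩
  have h2 := Nat.mul_le_mul_right (2 ^ (t * t)) ((card_le_card h1).trans card_biUnion_le)
  refine h2.trans ?_
  rw [sum_mul]
  have h3 : ∀ p ∈ powersetCard t (univ : Finset ι) ×ˢ powersetCard t (univ : Finset κ),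
      (univ.filter fun f : ι → Finset κ => ∀ b ∈ p.1, ∀ y ∈ p.2, y ∉ f b).card * 2 ^ (t * t) =
        (2 ^ Fintype.card κ) ^ Fintype.card ι := by
    intro p hp
    have hp' := mem_product.1 hp
    have h4 := rect_card p.1 p.2
    rw [(mem_powersetCard_univ.1 hp'.1), (mem_powersetCard_univ.1 hp'.2)] at h4
    exact h4
  rw [sum_congr rfl h3, sum_const, smul_eq_mul]
  refine Nat.mul_le_mul_right _ ?_
  rw [card_product, card_powersetCard, card_powersetCard, card_univ, card_univ]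
  exact Nat.mul_le_mul ((Nat.choose_le_pow _ _).trans (Nat.pow_le_pow_left hι t))
    ((Nat.choose_le_pow _ _).trans (Nat.pow_le_pow_left hκ t))

end card

open Classical in
/-- Almost no bipartite graph has a large empty rectangle. -/
theorem rect : RectBound := by
  intro ε hε
  obtain ⟨m, hm⟩ := pow_unbounded_of_one_lt (1 / ε) (one_lt_two : (1 : ℝ) < 2)
  refine ⟨2 ^ (m + 1), fun n hn ι κ _ _ _ _ hι hκ => ?_⟩
  set L := Nat.log 2 n with hL
  have hn0 : n ≠ 0 := by
    have : 0 < 2 ^ (m + 1) := by positivity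
    omega
  have hLm : m + 1 ≤ L := (Nat.le_log_iff_pow_le one_lt_two hn0).2 hn
  have hnL : n ≤ 2 ^ (L + 1) := (Nat.lt_pow_succ_log_self one_lt_two n).le
  have h1 : (univ.filter fun f : ι → Finset κ => ¬ ∀ (S : Finset ι) (D : Finset κ),
        3 * L < S.card → 3 * L < D.card → ∃ b ∈ S, ∃ y ∈ D, y ∈ f b) ⊆
      univ.filter fun f : ι → Finset κ => ∃ (S : Finset ι) (D : Finset κ), S.card = 3 * L + 1 ∧
        D.card = 3 * L + 1 ∧ ∀ b ∈ S, ∀ y ∈ D, y ∉ f b := by
    intro f hf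
    have h := (mem_filter.1 hf).2
    push Not at h
    obtain ⟨S, D, hS, hD, h⟩ := h
    obtain ⟨S', hS', hS''⟩ := exists_subset_card_eq (Nat.succ_le_of_lt hS)
    obtain ⟨D', hD', hD''⟩ := exists_subset_card_eq (Nat.succ_le_of_lt hD)
    exact mem_filter.2 ⟨mem_univ _, S', D', hS'', hD'', fun b hb y hy => h b (hS' hb) y (hD' hy)⟩
  have h2 := (Nat.mul_le_mul_right (2 ^ ((3 * L + 1) * (3 * L + 1))) (card_le_card h1)).trans
    (rect_count (ι := ι) (κ := κ) n (3 * L + 1) hι hκ)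
  set c := (univ.filter fun f : ι → Finset κ => ¬ ∀ (S : Finset ι) (D : Finset κ),
        3 * L < S.card → 3 * L < D.card → ∃ b ∈ S, ∃ y ∈ D, y ∈ f b).card with hc
  set T := (2 ^ Fintype.card κ) ^ Fintype.card ι with hT
  have h3 : n ^ (3 * L + 1) * n ^ (3 * L + 1) ≤ 2 ^ ((2 * L + 2) * (3 * L + 1)) := by
    calc n ^ (3 * L + 1) * n ^ (3 * L + 1) ≤
          (2 ^ (L + 1)) ^ (3 * L + 1) * (2 ^ (L + 1)) ^ (3 * L + 1) :=
          Nat.mul_le_mul (Nat.pow_le_pow_left hnL _) (Nat.pow_le_pow_left hnL _)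
      _ = 2 ^ ((2 * L + 2) * (3 * L + 1)) := by
          rw [← pow_mul, ← pow_add]
          congr 1
          ring
  have h4 : 2 ^ ((3 * L + 1) * (3 * L + 1)) =
      2 ^ ((L - 1) * (3 * L + 1)) * 2 ^ ((2 * L + 2) * (3 * L + 1)) := by
    rw [← pow_add, ← add_mul]
    congr 2
    omega
  have h5 : c * 2 ^ ((L - 1) * (3 * L + 1)) ≤ T := by
    have h6 : c * 2 ^ ((L - 1) * (3 * L + 1)) * 2 ^ ((2 * L + 2) * (3 * L + 1)) ≤
        T * 2 ^ ((2 * L + 2) * (3 * L + 1)) := by
      calc c * 2 ^ ((L - 1) * (3 * L + 1)) * 2 ^ ((2 * L + 2) * (3 * L + 1))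
          = c * 2 ^ ((3 * L + 1) * (3 * L + 1)) := by rw [h4, mul_assoc]
        _ ≤ n ^ (3 * L + 1) * n ^ (3 * L + 1) * T := h2
        _ ≤ 2 ^ ((2 * L + 2) * (3 * L + 1)) * T := Nat.mul_le_mul_right _ h3
        _ = T * 2 ^ ((2 * L + 2) * (3 * L + 1)) := mul_comm _ _
    exact Nat.le_of_mul_le_mul_right h6 (by positivity)
  have h7 : c * 2 ^ m ≤ T := by
    refine (Nat.mul_le_mul_left c (Nat.pow_le_pow_right (by norm_num) ?_)).trans h5
    have h8 : m ≤ L - 1 := by omega
    calc m ≤ L - 1 := h8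
      _ = (L - 1) * 1 := (mul_one _).symm
      _ ≤ (L - 1) * (3 * L + 1) := Nat.mul_le_mul_left _ (by omega)
  have h8 : (c : ℝ) * 2 ^ m ≤ (2 ^ Fintype.card κ) ^ Fintype.card ι := by
    have : ((c * 2 ^ m : ℕ) : ℝ) ≤ (T : ℕ) := by exact_mod_cast h7
    rw [hT] at this
    push_cast at this
    exact this
  have h9 : 1 ≤ ε * 2 ^ m := by
    have := (div_lt_iff₀ hε).1 hm
    linarith
  have h10 : (0 : ℝ) ≤ c := Nat.cast_nonneg c
  calc (c : ℝ) = c * 1 := (mul_one _).symm
    _ ≤ c * (ε * 2 ^ m) := mul_le_mul_of_nonneg_left h9 h10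
    _ = ε * (c * 2 ^ m) := by ring
    _ ≤ ε * (2 ^ Fintype.card κ) ^ Fintype.card ι := mul_le_mul_of_nonneg_left h8 hε.le

/-- the edges of the graph of a function -/
def comE {ι κ : Type} [Fintype ι] [Fintype κ] [DecidableEq ι] [DecidableEq κ]
    (f : ι → Finset κ) : Finset ((ι ⊕ κ) × (ι ⊕ κ)) :=
  (univ.filter fun p : ι × κ => p.2 ∈ f p.1).image fun p => (Sum.inl p.1, Sum.inr p.2)

theorem com_mem {ι κ : Type} [Fintype ι] [Fintype κ] [DecidableEq ι] [DecidableEq κ]
    (f : ι → Finset κ) (b : ι) (y : κ) :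
    ((Sum.inl b, Sum.inr y) : (ι ⊕ κ) × (ι ⊕ κ)) ∈ comE f ↔ y ∈ f b := by
  constructor
  · intro h
    obtain ⟨p, hp, hp'⟩ := mem_image.1 h
    have h1 := (Prod.mk.inj hp').1
    have h2 := (Prod.mk.inj hp').2
    have h3 := (mem_filter.1 hp).2
    rw [Sum.inl.inj h1, Sum.inr.inj h2] at h3
    exact h3
  · intro h
    exact mem_image.2 ⟨(b, y), mem_filter.2 ⟨mem_univ _, h⟩, rfl⟩

open Classical in
/-- In almost all bipartite graphs any `K` rows have a common neighbour. -/
theorem com : ComBound := by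
  intro δ ε K hδ hε
  obtain ⟨N, hN⟩ := Pool.MP5bc52d.AA.few_common_rare δ ε hδ hε K 1
  refine ⟨N, fun n hn ι κ _ _ _ _ hι hκ hδκ => ?_⟩
  have hA : ((univ : Finset ι).map Function.Embedding.inl : Finset (ι ⊕ κ)).card =
    Fintype.card ι := by rw [card_map, card_univ]
  have hB : ((univ : Finset κ).map Function.Embedding.inr : Finset (ι ⊕ κ)).card =
    Fintype.card κ := by rw [card_map, card_univ]
  have h1 := hN n hn (ι ⊕ κ) ((univ : Finset ι).map Function.Embedding.inl)
    ((univ : Finset κ).map Function.Embedding.inr) (by rw [hA]; exact hι) (by rw [hB]; exact hκ)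
    (by rw [hB]; exact hδκ)
  rw [hA, hB] at h1
  have h2 : ((2 : ℝ) ^ Fintype.card κ) ^ Fintype.card ι = 2 ^ (Fintype.card ι * Fintype.card κ) := by
    rw [← pow_mul, mul_comm]
  rw [h2]
  refine le_trans ?_ h1
  refine Nat.cast_le.2 (card_le_card_of_injOn comE ?_ ?_)
  · intro f hf
    rw [mem_coe, mem_filter] at hf
    have hf' := hf.2
    push Not at hf'
    obtain ⟨S, hS, hS'⟩ := hf'
    rw [mem_coe, mem_filter, mem_powerset]
    refine ⟨?_, S.map Function.Embedding.inl, map_subset_map.2 (subset_univ _), ?_, ?_⟩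
    · intro p hp
      obtain ⟨q, hq, rfl⟩ := mem_image.1 hp
      exact mem_product.2 ⟨mem_map.2 ⟨q.1, mem_univ _, rfl⟩, mem_map.2 ⟨q.2, mem_univ _, rfl⟩⟩
    · rw [card_map]
      exact hS
    · rw [Nat.lt_one_iff, card_eq_zero]
      refine eq_empty_of_forall_notMem fun x hx' => ?_
      obtain ⟨hx, h⟩ := (@mem_filter _ _ (_) _ _).1 hx'
      obtain ⟨y, -, rfl⟩ := mem_map.1 hx
      obtain ⟨b, hb, hb'⟩ := hS' y
      exact hb' ((com_mem f b y).1 (h _ (mem_map.2 ⟨b, hb, rfl⟩)))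
  · intro f _ g _ h
    funext b
    ext y
    rw [← com_mem f b y, ← com_mem g b y, h]

end Pool.Agent.Lib.MP_5bc52d_co.TA
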