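import Mathlib
import Pool.Agent.Lib.MP_5bc52d_co.TA.Graph

/-!
# The estimate in the union bound for unique rows
-/

namespace Pool.Agent.Lib.MP_5bc52d_co.TA

theorem num_log {n : ℕ} (hn : 2 ≤ n) (hx : 3 ≤ Real.log n) :
    Real.log n ≤ (Nat.log 2 n : ℝ) ∧ (Nat.log 2 n : ℝ) ≤ 2 * Real.log n := by
  have h0 : (0 : ℝ) < n := by positivity
  have l1 := Real.log_two_lt_d9
  have l2 := Real.log_two_gt_d9
  have h1 : 2 ^ Nat.log 2 n ≤ n := Nat.pow_log_le_self 2 (by omega)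
  have h2 : n < 2 ^ (Nat.log 2 n + 1) := Nat.lt_pow_succ_log_self (by norm_num) n
  have h3 : (Nat.log 2 n : ℝ) * Real.log 2 ≤ Real.log n := by
    have : ((2 : ℝ) ^ Nat.log 2 n) ≤ n := by exact_mod_cast h1
    have h4 := Real.log_le_log (by positivity) this
    rwa [Real.log_pow] at h4
  have h5 : Real.log n ≤ ((Nat.log 2 n : ℝ) + 1) * Real.log 2 := by
    have : (n : ℝ) ≤ (2 : ℝ) ^ (Nat.log 2 n + 1) := by exact_mod_cast h2.le
    have h4 := Real.log_le_log h0 this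
    rw [Real.log_pow] at h4
    push_cast at h4
    exact h4
  have h6 : (0 : ℝ) ≤ Nat.log 2 n := Nat.cast_nonneg _
  constructor
  · have h7 : ((Nat.log 2 n : ℝ) + 1) * Real.log 2 ≤ ((Nat.log 2 n : ℝ) + 1) * (7 / 10) :=
      mul_le_mul_of_nonneg_left (by linarith) (by linarith)
    linarith
  · have h7 : (Nat.log 2 n : ℝ) * (1 / 2) ≤ (Nat.log 2 n : ℝ) * Real.log 2 :=
      mul_le_mul_of_nonneg_left (by linarith) h6
    linarith

theorem num_add (x n c : ℝ) (hn : 3 ≤ n) (hc : c ≤ 2) (h : Real.exp x = n) :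
    n + c ≤ Real.exp (x + 1) := by
  rw [Real.exp_add, h]
  have h1 := Real.add_one_le_exp (1 : ℝ)
  have h2 : n * 2 ≤ n * Real.exp 1 := mul_le_mul_of_nonneg_left (by linarith) (by linarith)
  linarith

/-- the number of choices -/
theorem num_pre {n I L : ℕ} {x : ℝ} (hn : (3 : ℝ) ≤ n) (hx : 0 ≤ x) (h : Real.exp x = n) :
    ((n : ℝ) + 1) ^ I * (((n : ℝ) + 1) ^ (3 * L) * (((n : ℝ) + 2) *
      ((n : ℝ) + 1) ^ (L / 20))) ≤ Real.exp ((x + 1) * (I + 1 + 61 / 20 * L)) := by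
  have e1 := num_add x n 1 hn (by norm_num) h
  have e2 := num_add x n 2 hn (by norm_num) h
  have hz : ((L / 20 : ℕ) : ℝ) ≤ L / 20 := by
    have h1 : 20 * (L / 20) ≤ L := Nat.mul_div_le L 20
    have h2 : (20 : ℝ) * ((L / 20 : ℕ) : ℝ) ≤ L := by exact_mod_cast h1
    linarith
  have h1 : ((n : ℝ) + 1) ^ I * (((n : ℝ) + 1) ^ (3 * L) * (((n : ℝ) + 2) *
      ((n : ℝ) + 1) ^ (L / 20))) ≤ Real.exp (x + 1) ^ I * (Real.exp (x + 1) ^ (3 * L) *
      (Real.exp (x + 1) * Real.exp (x + 1) ^ (L / 20))) := by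
    have hnn : (0 : ℝ) ≤ (n : ℝ) + 1 := by positivity
    gcongr
  refine h1.trans ?_
  rw [← Real.exp_nat_mul, ← Real.exp_nat_mul, ← Real.exp_nat_mul, ← Real.exp_add,
    ← Real.exp_add, ← Real.exp_add]
  refine Real.exp_le_exp.2 ?_
  have h2 : ((L / 20 : ℕ) : ℝ) * (x + 1) ≤ L / 20 * (x + 1) :=
    mul_le_mul_of_nonneg_right hz (by linarith)
  have h3 : (x + 1) * (I + 1 + 61 / 20 * L) =
      (I : ℝ) * (x + 1) + (3 * L * (x + 1) + ((x + 1) + L / 20 * (x + 1))) := by ring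
  rw [h3]
  rw [Nat.cast_mul]
  push_cast
  linarith

/-- the power of two -/
theorem num_two {n : ℕ} {x : ℝ} (hn : (3 : ℝ) ≤ n) (h : Real.exp x = n) :
    (2 : ℝ) ^ (Nat.log 2 n / 20) ≤ Real.exp (x / 20) := by
  have hn0 : n ≠ 0 := by
    rintro rfl
    norm_num at hn
  set L := Nat.log 2 n with hL
  have hz : ((L / 20 : ℕ) : ℝ) ≤ L / 20 := by
    have h1 : 20 * (L / 20) ≤ L := Nat.mul_div_le L 20
    have h2 : (20 : ℝ) * ((L / 20 : ℕ) : ℝ) ≤ L := by exact_mod_cast h1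
    linarith
  have h3 : (L : ℝ) * Real.log 2 ≤ x := by
    have h1 : 2 ^ Nat.log 2 n ≤ n := Nat.pow_log_le_self 2 hn0
    have h5 : ((2 : ℝ) ^ Nat.log 2 n) ≤ n := by exact_mod_cast h1
    have h4 := Real.log_le_log (by positivity) h5
    rw [← h, Real.log_pow, Real.log_exp] at h4
    exact h4
  have h4 : (2 : ℝ) ^ (L / 20) = Real.exp (((L / 20 : ℕ) : ℝ) * Real.log 2) := by
    rw [Real.exp_nat_mul, Real.exp_log (by norm_num)]
  rw [h4]
  refine Real.exp_le_exp.2 ?_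
  have l2 : 0 < Real.log 2 := Real.log_pos (by norm_num)
  have h5 : ((L / 20 : ℕ) : ℝ) * Real.log 2 ≤ L / 20 * Real.log 2 :=
    mul_le_mul_of_nonneg_right hz l2.le
  linarith

/-- the exponent of the first term -/
theorem num_T1 {n : ℕ} {x δ c I d : ℝ} (hx : 0 ≤ x) (hδ : 0 < δ) (hI : 0 ≤ I)
    (h : Real.exp x = n) (hd : 1 ≤ d) (h2 : d ≤ Real.exp (x / 20)) :
    c - Real.exp (-(9 / 10) * x) / d / 2 * (δ * n - I) ≤
      c + I - δ / 2 * Real.exp (x / 20) := by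
  have hd0 : 0 < d := by linarith
  have h1 : Real.exp (-(19 / 20) * x) ≤ Real.exp (-(9 / 10) * x) / d := by
    rw [le_div_iff₀ hd0]
    calc Real.exp (-(19 / 20) * x) * d ≤ Real.exp (-(19 / 20) * x) * Real.exp (x / 20) :=
          mul_le_mul_of_nonneg_left h2 (Real.exp_pos _).le
      _ = Real.exp (-(9 / 10) * x) := by
          rw [← Real.exp_add]
          congr 1
          ring
  have h3 : Real.exp (-(9 / 10) * x) / d ≤ 1 := by
    rw [div_le_one hd0]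
    refine le_trans ?_ hd
    rw [Real.exp_le_one_iff]
    linarith
  set E : ℝ := Real.exp (-(9 / 10) * x) / d with hE
  have h4 : Real.exp (x / 20) = Real.exp (-(19 / 20) * x) * n := by
    rw [← h, ← Real.exp_add]
    congr 1
    ring
  have hn0 : (0 : ℝ) ≤ n := Nat.cast_nonneg _
  have h5 : Real.exp (-(19 / 20) * x) * (δ * n) ≤ E * (δ * n) :=
    mul_le_mul_of_nonneg_right h1 (by positivity)
  have h6 : E * I ≤ 1 * I := mul_le_mul_of_nonneg_right h3 hI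
  have h7 : E / 2 * (δ * n - I) = (E * (δ * n)) / 2 - (E * I) / 2 := by ring
  have h8 : δ / 2 * Real.exp (x / 20) = (Real.exp (-(19 / 20) * x) * (δ * n)) / 2 := by
    rw [h4]
    ring
  rw [h7, h8]
  linarith

/-- the second term -/
theorem num_T2 {n L : ℕ} {x : ℝ} (h : Real.exp x = n) :
    ((n : ℝ) ^ 2 * (2 * Real.exp (-(9 / 10) * x) * Real.exp (-(5 / 4) * x))) ^ (40 * L) ≤
      Real.exp (28 * L - 6 * x * L) := by
  have h1 : (n : ℝ) ^ 2 * (2 * Real.exp (-(9 / 10) * x) * Real.exp (-(5 / 4) * x)) =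
      Real.exp (Real.log 2 - 3 / 20 * x) := by
    rw [sub_eq_add_neg, Real.exp_add, Real.exp_log (by norm_num), ← h, ← Real.exp_nat_mul]
    rw [mul_assoc 2, ← Real.exp_add, mul_left_comm, ← Real.exp_add]
    congr 2
    push_cast
    ring
  rw [h1, ← Real.exp_nat_mul]
  refine Real.exp_le_exp.2 ?_
  push_cast
  have l1 := Real.log_two_lt_d9
  have hy0 : (0 : ℝ) ≤ L := Nat.cast_nonneg _
  have h2 : (L : ℝ) * Real.log 2 ≤ L * (7 / 10) := mul_le_mul_of_nonneg_left (by linarith) hy0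
  have h3 : 40 * (L : ℝ) * (Real.log 2 - 3 / 20 * x) = 40 * (L * Real.log 2) - 6 * x * L := by
    ring
  rw [h3]
  linarith

theorem num_s1 {x y δ ℓ I F : ℝ} (hx : 3 ≤ x) (hy : y ≤ 2 * x) (hδ : 0 < δ)
    (hℓ : 0 ≤ ℓ) (hI : 0 ≤ I) (hF : 0 ≤ F)
    (h : 2 * (I + 1) + 13 + 240 + F + I + ℓ ≤ δ / 96000 * x) :
    (x + 1) * (I + 1 + 61 / 20 * y) + (3 * (40 * y) + F + I - δ / 2 * Real.exp (x / 20)) ≤ -ℓ := by
  have h1 : (x / 20) ^ 3 / 6 ≤ Real.exp (x / 20) := by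
    have h0 : 0 ≤ x / 20 := by linarith
    have := Real.pow_div_factorial_le_exp (x / 20) h0 3
    have h2 : ((3 : ℕ).factorial : ℝ) = 6 := by norm_num [Nat.factorial]
    rwa [h2] at this
  have h2 : δ / 2 * ((x / 20) ^ 3 / 6) ≤ δ / 2 * Real.exp (x / 20) :=
    mul_le_mul_of_nonneg_left h1 (by linarith)
  have h3 : δ / 2 * ((x / 20) ^ 3 / 6) = δ / 96000 * x * x ^ 2 := by ring
  have h4 := mul_le_mul_of_nonneg_right h (sq_nonneg x)
  have h5 : (x + 1) * (61 / 20 * y) ≤ (x + 1) * (61 / 10 * x) :=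
    mul_le_mul_of_nonneg_left (by linarith) (by linarith)
  have hx2 : 3 * x ≤ x ^ 2 := by
    rw [sq]
    exact mul_le_mul_of_nonneg_right hx (by linarith)
  have hx3 : 9 ≤ x ^ 2 := by linarith
  have q1 : I * (x + 1) ≤ I * (2 * x ^ 2) := mul_le_mul_of_nonneg_left (by linarith) hI
  have q2 : F * 1 ≤ F * x ^ 2 := mul_le_mul_of_nonneg_left (by linarith) hF
  have q3 : I * 1 ≤ I * x ^ 2 := mul_le_mul_of_nonneg_left (by linarith) hI
  have q4 : ℓ * 1 ≤ ℓ * x ^ 2 := mul_le_mul_of_nonneg_left (by linarith) hℓ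
  have e1 : (x + 1) * (I + 1 + 61 / 20 * y) = I * (x + 1) + (x + 1) + (x + 1) * (61 / 20 * y) := by
    ring
  have e2 : (x + 1) * (61 / 10 * x) = 61 / 10 * x ^ 2 + 61 / 10 * x := by ring
  have e3 : (2 * (I + 1) + 13 + 240 + F + I + ℓ) * x ^ 2 =
      I * (2 * x ^ 2) + 255 * x ^ 2 + F * x ^ 2 + I * x ^ 2 + ℓ * x ^ 2 := by ring
  rw [e1]
  rw [e3] at h4
  rw [e2] at h5
  rw [h3] at h2
  linarith

theorem num_s2 {x y ℓ I : ℝ} (hx : 3 ≤ x) (hy1 : x ≤ y) (hy : y ≤ 2 * x)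
    (hℓ : 0 ≤ ℓ) (hI : 0 ≤ I) (h : 2 * (I + 1) + 64 + ℓ ≤ x) :
    (x + 1) * (I + 1 + 61 / 20 * y) + (28 * y - 6 * x * y) ≤ -ℓ := by
  have h1 := mul_le_mul_of_nonneg_right h (show 0 ≤ x by linarith)
  have h2 : I * (x + 1) ≤ I * (2 * x) := mul_le_mul_of_nonneg_left (by linarith) hI
  have h3 : x * x ≤ x * y := mul_le_mul_of_nonneg_left hy1 (by linarith)
  have h4 : ℓ * 1 ≤ ℓ * x := mul_le_mul_of_nonneg_left (by linarith) hℓ
  have e1 : (x + 1) * (I + 1 + 61 / 20 * y) = I * (x + 1) + (x + 1) + 61 / 20 * (x * y) +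
      61 / 20 * y := by ring
  have e2 : (2 * (I + 1) + 64 + ℓ) * x = I * (2 * x) + 66 * x + ℓ * x := by ring
  have e3 : 6 * x * y = 6 * (x * y) := by ring
  have h5 : 0 ≤ x * x := mul_self_nonneg x
  rw [e1, e3]
  rw [e2] at h1
  linarith

/-- the numbers in the union bound -/
theorem num_final (δ ε : ℝ) (I F : ℕ) (hδ : 0 < δ) (hε : 0 < ε) : ∃ N : ℕ, ∀ n ≥ N,
    ((n : ℝ) + 1) ^ I * (((n : ℝ) + 1) ^ (3 * Nat.log 2 n) * (((n : ℝ) + 2) *
      (((n : ℝ) + 1) ^ (Nat.log 2 n / 20) *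
        (Real.exp ((3 * (40 * Nat.log 2 n) + F : ℕ) - (n : ℝ) ^ (-(9 / 10) : ℝ) /
          2 ^ (Nat.log 2 n / 20) / 2 * (δ * n - I)) +
        ((n : ℝ) ^ 2 * (2 * (n : ℝ) ^ (-(9 / 10) : ℝ) * (n : ℝ) ^ (-(5 / 4) : ℝ))) ^
          (40 * Nat.log 2 n))))) ≤ ε := by
  have hℓ0 : 0 ≤ |Real.log (ε / 2)| := abs_nonneg _
  have hℓ1 : -|Real.log (ε / 2)| ≤ Real.log (ε / 2) := neg_abs_le _
  have hc0 : 0 < δ / 96000 := by positivity
  refine ⟨max 3 ⌈Real.exp (max 3 (max ((2 * (I + 1) + 13 + 240 + F + I + |Real.log (ε / 2)|) /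
    (δ / 96000)) (2 * (I + 1) + 64 + |Real.log (ε / 2)|)))⌉₊, fun n hn => ?_⟩
  have hn3 : 3 ≤ n := (le_max_left _ _).trans hn
  have hn3' : (3 : ℝ) ≤ n := by exact_mod_cast hn3
  have hn0 : (0 : ℝ) < n := by linarith
  have hXx := (Real.le_log_iff_exp_le hn0).2
    ((Nat.le_ceil _).trans (Nat.cast_le.2 ((le_max_right _ _).trans hn)))
  have hx3 : 3 ≤ Real.log n := (le_max_left _ _).trans hXx
  have hxA := ((le_max_left _ _).trans (le_max_right _ _)).trans hXx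
  have hxB := ((le_max_right _ _).trans (le_max_right _ _)).trans hXx
  have hexp : Real.exp (Real.log n) = n := Real.exp_log hn0
  obtain ⟨hL1, hL2⟩ := num_log (by omega : 2 ≤ n) hx3
  have hI : (0 : ℝ) ≤ I := Nat.cast_nonneg _
  have hF : (0 : ℝ) ≤ F := Nat.cast_nonneg _
  have hx0 : 0 ≤ Real.log n := by linarith
  have hone : (1 : ℝ) ≤ 2 ^ (Nat.log 2 n / 20) := one_le_pow₀ (by norm_num)
  have hpre := num_pre (I := I) (L := Nat.log 2 n) hn3' hx0 hexp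
  have h2z := num_two hn3' hexp
  have ht : (n : ℝ) ^ (-(9 / 10) : ℝ) = Real.exp (-(9 / 10) * Real.log n) := by
    rw [Real.rpow_def_of_pos hn0, mul_comm]
  have hb : (n : ℝ) ^ (-(5 / 4) : ℝ) = Real.exp (-(5 / 4) * Real.log n) := by
    rw [Real.rpow_def_of_pos hn0, mul_comm]
  rw [ht, hb]
  have hT1 := num_T1 (c := ((3 * (40 * Nat.log 2 n) + F : ℕ) : ℝ)) hx0 hδ hI hexp hone h2z
  have hT2 := num_T2 (L := Nat.log 2 n) hexp
  have s1 := num_s1 (y := (Nat.log 2 n : ℝ)) hx3 hL2 hδ hℓ0 hI hF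
    ((div_le_iff₀ hc0).1 hxA |>.trans (le_of_eq (mul_comm _ _)))
  have s2 := num_s2 hx3 hL1 hL2 hℓ0 hI hxB
  have hhalf : ∀ s : ℝ, s ≤ -|Real.log (ε / 2)| → Real.exp s ≤ ε / 2 := by
    intro s hs
    refine (Real.exp_le_exp.2 (hs.trans hℓ1)).trans (le_of_eq ?_)
    exact Real.exp_log (by positivity)
  have g1 := hhalf _ s1
  have g2 := hhalf _ s2
  rw [Real.exp_add] at g1 g2
  have hc : ((3 * (40 * Nat.log 2 n) + F : ℕ) : ℝ) + I = 3 * (40 * (Nat.log 2 n : ℝ)) + F + I := by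
    push_cast
    ring
  rw [hc] at hT1
  generalize Real.log n = x at *
  set P : ℝ := ((n : ℝ) + 1) ^ I * (((n : ℝ) + 1) ^ (3 * Nat.log 2 n) * (((n : ℝ) + 2) *
      ((n : ℝ) + 1) ^ (Nat.log 2 n / 20))) with hP
  set T2 : ℝ := ((n : ℝ) ^ 2 * (2 * Real.exp (-(9 / 10) * x) * Real.exp (-(5 / 4) * x))) ^
      (40 * Nat.log 2 n) with hT2d
  have hT20 : 0 ≤ T2 := by positivity
  have g3 : P * Real.exp (((3 * (40 * Nat.log 2 n) + F : ℕ) : ℝ) - Real.exp (-(9 / 10) * x) /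
      2 ^ (Nat.log 2 n / 20) / 2 * (δ * n - I)) ≤ ε / 2 := by
    refine le_trans ?_ g1
    refine mul_le_mul hpre ?_ (Real.exp_pos _).le (Real.exp_pos _).le
    exact Real.exp_le_exp.2 hT1
  have g4 : P * T2 ≤ ε / 2 := by
    refine le_trans ?_ g2
    exact mul_le_mul hpre hT2 hT20 (Real.exp_pos _).le
  calc _ = P * Real.exp (((3 * (40 * Nat.log 2 n) + F : ℕ) : ℝ) - Real.exp (-(9 / 10) * x) /
      2 ^ (Nat.log 2 n / 20) / 2 * (δ * n - I)) + P * T2 := by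
        rw [hP]
        ring
    _ ≤ ε / 2 + ε / 2 := add_le_add g3 g4
    _ = ε := by ring

end Pool.Agent.Lib.MP_5bc52d_co.TA
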