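import Mathlib
import Pool.Agent.Lib.MP_5bc52d_co.TA.Graph
import Pool.Agent.Lib.MP_5bc52d_co.AA.Common

/-!
# Rows with unique numbers of neighbours
-/

namespace Pool.Agent.Lib.MP_5bc52d_co.TA

open Finset

open Classical in
/-- the number of elements with a property -/
noncomputable def cnt {α : Type*} [Fintype α] (E : α → Prop) : ℕ := (univ.filter E).card

theorem cnt_eq {α : Type*} [Fintype α] (E : α → Prop) [DecidablePred E] :
    (univ.filter E).card = cnt E := by
  unfold cnt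
  congr

/-- the decidability instance does not matter -/
theorem card_filter_inst {α : Type*} (s : Finset α) (E : α → Prop) (i1 i2 : DecidablePred E) :
    (@Finset.filter α E i1 s).card = (@Finset.filter α E i2 s).card := by
  have h : i1 = i2 := Subsingleton.elim _ _
  subst h
  rfl

theorem cnt_le_of {α : Type*} {j j' : Fintype α} {E E' : α → Prop} {i : DecidablePred E} {c : ℝ}
    (h : ((@Finset.filter α E i (@univ α j)).card : ℝ) ≤ c) (hE : ∀ x, E' x ↔ E x) :
    ((@cnt α j' E' : ℕ) : ℝ) ≤ c := by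
  have e : E' = E := funext fun x => propext (hE x)
  have e' : j' = j := Subsingleton.elim _ _
  subst e e'
  unfold cnt
  rw [card_filter_inst univ E' _ i]
  exact h

theorem cnt_mono {α : Type*} [Fintype α] {E E' : α → Prop} (h : ∀ x, E x → E' x) :
    (cnt E : ℝ) ≤ cnt E' := by
  classical
  rw [← cnt_eq, ← cnt_eq]
  norm_cast
  refine card_le_card fun x hx => ?_
  rw [mem_filter] at hx ⊢
  exact ⟨hx.1, h x hx.2⟩

theorem cnt_or {α : Type*} [Fintype α] {E E' E'' : α → Prop} (h : ∀ x, E x → E' x ∨ E'' x) :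
    (cnt E : ℝ) ≤ cnt E' + cnt E'' := by
  classical
  rw [← cnt_eq, ← cnt_eq, ← cnt_eq]
  norm_cast
  refine (card_le_card fun x hx => ?_).trans (card_union_le _ _)
  rw [mem_union, mem_filter, mem_filter]
  rw [mem_filter] at hx
  exact (h x hx.2).imp (fun h1 => ⟨mem_univ _, h1⟩) fun h1 => ⟨mem_univ _, h1⟩

theorem cnt_zero {α : Type*} [Fintype α] {E : α → Prop} (h : ∀ x, ¬ E x) : cnt E = 0 := by
  classical
  rw [← cnt_eq, card_eq_zero, filter_eq_empty_iff]
  exact fun x _ => h x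

/-- a union over the members of a finset -/
theorem cnt_exists {α γ : Type*} [Fintype α] (s : Finset γ) {E : α → Prop} (E' : γ → α → Prop)
    {a c : ℝ} (hs : (s.card : ℝ) ≤ a) (hc : 0 ≤ c) (h : ∀ x, E x → ∃ y ∈ s, E' y x)
    (hb : ∀ y ∈ s, (cnt (E' y) : ℝ) ≤ c) : (cnt E : ℝ) ≤ a * c := by
  classical
  have h1 : (cnt E : ℝ) ≤ ∑ y ∈ s, (cnt (E' y) : ℝ) := by
    rw [← cnt_eq]
    have h2 : ∀ y, cnt (E' y) = (univ.filter (E' y)).card := fun y => (cnt_eq _).symm
    simp only [h2]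
    norm_cast
    refine (card_le_card fun x hx => ?_).trans card_biUnion_le
    rw [mem_filter] at hx
    obtain ⟨y, hy, hxy⟩ := h x hx.2
    exact mem_biUnion.2 ⟨y, hy, mem_filter.2 ⟨mem_univ _, hxy⟩⟩
  refine h1.trans ((sum_le_sum hb).trans ?_)
  rw [sum_const, nsmul_eq_mul]
  exact mul_le_mul_of_nonneg_right hs hc

/-- counting with the rows of `W` fixed -/
theorem cnt_fiber {ι β : Type*} [Fintype ι] [DecidableEq ι] [Fintype β] (W : Finset ι)
    (E : (ι → β) → Prop) (c : ℝ) (hc : 0 ≤ c)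
    (h : ∀ f₀ : ι → β, (cnt (fun f : ι → β => (∀ i ∈ W, f i = f₀ i) ∧ E f) : ℝ) ≤ c) :
    (cnt E : ℝ) ≤ (Fintype.card β : ℝ) ^ W.card * c := by
  classical
  set r : (ι → β) → ({i // i ∈ W} → β) := fun f i => f i with hr
  have h0 : ∀ g : {i // i ∈ W} → β, (cnt (fun f : ι → β => r f = g ∧ E f) : ℝ) ≤ c := by
    intro g
    by_cases hg : ∃ f₁, r f₁ = g
    · obtain ⟨f₁, hf₁⟩ := hg
      refine (cnt_mono fun f hf => ?_).trans (h f₁)
      refine ⟨fun i hi => ?_, hf.2⟩
      have e1 : r f = r f₁ := hf.1.trans hf₁.symm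
      exact congrFun e1 ⟨i, hi⟩
    · rw [cnt_zero fun f hf => hg ⟨f, hf.1⟩]
      simpa using hc
  refine (cnt_exists (univ : Finset ({i // i ∈ W} → β)) (fun g f => r f = g ∧ E f)
    (le_of_eq ?_) hc (fun f hf => ⟨r f, mem_univ _, rfl, hf⟩) fun g _ => h0 g)
  rw [card_univ, Fintype.card_fun, Fintype.card_coe]
  push_cast
  rfl

section sets
variable {κ : Type} [Fintype κ] [DecidableEq κ]

/-- the sets with `k` elements in `Q` -/
theorem uniq_card_eq (Q : Finset κ) (k : ℕ) :
    (univ.filter fun T : Finset κ => (Q ∩ T).card = k).card =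
      Q.card.choose k * 2 ^ (Fintype.card κ - Q.card) := by
  have h1 : Q.card.choose k * 2 ^ (Fintype.card κ - Q.card) =
      (Q.powersetCard k ×ˢ (univ \ Q).powerset).card := by
    rw [card_product, card_powersetCard, card_powerset, card_sdiff_of_subset (subset_univ Q),
      card_univ]
  rw [h1]
  refine Finset.card_bij' (fun T _ => (Q ∩ T, T \ Q)) (fun p _ => p.1 ∪ p.2) ?_ ?_ ?_ ?_
  · intro T hT
    simp only [mem_filter, mem_univ, true_and] at hT
    simp only [mem_product, mem_powersetCard, mem_powerset]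
    exact ⟨⟨inter_subset_left, hT⟩, sdiff_subset_sdiff (subset_univ T) le_rfl⟩
  · intro p hp
    simp only [mem_product, mem_powersetCard, mem_powerset] at hp
    simp only [mem_filter, mem_univ, true_and]
    have e1 : Q ∩ (p.1 ∪ p.2) = p.1 := by
      ext y
      simp only [mem_inter, mem_union]
      constructor
      · rintro ⟨hy, hy1 | hy2⟩
        · exact hy1
        · exact absurd hy (mem_sdiff.1 (hp.2 hy2)).2
      · intro hy
        exact ⟨hp.1.1 hy, Or.inl hy⟩
    rw [e1]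
    exact hp.1.2
  · intro T _
    ext y
    simp only [mem_union, mem_inter, mem_sdiff]
    tauto
  · intro p hp
    simp only [mem_product, mem_powersetCard, mem_powerset] at hp
    refine Prod.ext ?_ ?_
    · ext y
      simp only [mem_inter, mem_union]
      constructor
      · rintro ⟨hy, hy1 | hy2⟩
        · exact hy1
        · exact absurd hy (mem_sdiff.1 (hp.2 hy2)).2
      · intro hy
        exact ⟨hp.1.1 hy, Or.inl hy⟩
    · ext y
      simp only [mem_sdiff, mem_union]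
      constructor
      · rintro ⟨hy1 | hy2, hy⟩
        · exact absurd (hp.1.1 hy1) hy
        · exact hy2
      · intro hy
        exact ⟨Or.inr hy, (mem_sdiff.1 (hp.2 hy)).2⟩

/-- the sets with at least `v` elements in `Q` -/
theorem uniq_card_ge (Q : Finset κ) (v : ℕ) :
    (univ.filter fun T : Finset κ => v ≤ (Q ∩ T).card).card =
      (∑ k ∈ Icc v Q.card, Q.card.choose k) * 2 ^ (Fintype.card κ - Q.card) := by
  have h1 : (univ.filter fun T : Finset κ => v ≤ (Q ∩ T).card).card =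
      ∑ k ∈ Icc v Q.card, ((univ.filter fun T : Finset κ => v ≤ (Q ∩ T).card).filter
        fun T => (Q ∩ T).card = k).card := by
    refine Finset.card_eq_sum_card_fiberwise fun T hT => ?_
    simp only [coe_filter, mem_univ, true_and, Set.mem_ofPred_eq] at hT
    simp only [coe_Icc, Set.mem_Icc]
    exact ⟨hT, card_le_card inter_subset_left⟩
  rw [h1, sum_mul]
  refine sum_congr rfl fun k hk => ?_
  rw [← uniq_card_eq]
  congr 1
  ext T
  simp only [mem_filter, mem_univ, true_and]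
  rw [mem_Icc] at hk
  constructor
  · exact fun h => h.2
  · intro h
    exact ⟨by omega, h⟩

/-- the sets containing `Z` with at least `v` elements in `Q` -/
theorem uniq_card_M (Q Z : Finset κ) (v : ℕ) :
    (univ.filter fun T : Finset κ => v ≤ (Q ∩ T).card).card ≤
      (univ.filter fun T : Finset κ => Z ⊆ T ∧ v ≤ (Q ∩ T).card).card * 2 ^ Z.card := by
  rw [← card_powerset Z, ← card_product]
  refine Finset.card_le_card_of_injOn (fun T => (T ∪ Z, T ∩ Z)) ?_ ?_
  · intro T hT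
    simp only [coe_filter, mem_univ, true_and, Set.mem_ofPred_eq] at hT
    simp only [coe_product, coe_filter, mem_univ, true_and, Set.mem_prod, Set.mem_ofPred_eq,
      mem_coe, mem_powerset]
    exact ⟨⟨subset_union_right, hT.trans (card_le_card
      (inter_subset_inter le_rfl subset_union_left))⟩, inter_subset_right⟩
  · intro T _ T' _ h
    simp only [Prod.mk.injEq] at h
    ext y
    have h1 : y ∈ T ∪ Z ↔ y ∈ T' ∪ Z := by rw [h.1]
    have h2 : y ∈ T ∩ Z ↔ y ∈ T' ∩ Z := by rw [h.2]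
    simp only [mem_union, mem_inter] at h1 h2
    tauto

/-- the pairs of sets with the same number of elements in `Q`, at least `v` -/
theorem uniq_pairs (Q : Finset κ) (v : ℕ) (a b : ℝ) (hb : 0 ≤ b)
    (h1 : ∑ k ∈ Icc v Q.card, (Q.card.choose k : ℝ) ≤ a * 2 ^ Q.card)
    (h2 : ∀ k, v ≤ k → (Q.card.choose k : ℝ) ≤ b * 2 ^ Q.card) :
    ((univ.filter fun p : Finset κ × Finset κ => v ≤ (Q ∩ p.1).card ∧
      (Q ∩ p.1).card = (Q ∩ p.2).card).card : ℝ) ≤
      a * b * (2 ^ Fintype.card κ) ^ 2 := by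
  have hle : Q.card ≤ Fintype.card κ := card_le_univ Q
  have h3 : (univ.filter fun p : Finset κ × Finset κ => v ≤ (Q ∩ p.1).card ∧
      (Q ∩ p.1).card = (Q ∩ p.2).card) =
      (univ.filter fun T : Finset κ => v ≤ (Q ∩ T).card).biUnion fun T =>
        (univ.filter fun T' : Finset κ => (Q ∩ T').card = (Q ∩ T).card).image fun T' => (T, T') := by
    ext ⟨T, T'⟩
    simp only [mem_filter, mem_univ, true_and, mem_biUnion, mem_image, Prod.mk.injEq]
    constructor
    · rintro ⟨h, h'⟩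
      exact ⟨T, h, T', h'.symm, rfl, rfl⟩
    · rintro ⟨S, h, S', h', rfl, rfl⟩
      exact ⟨h, h'.symm⟩
  have hpow : (2 : ℝ) ^ Q.card * 2 ^ (Fintype.card κ - Q.card) = 2 ^ Fintype.card κ := by
    rw [← pow_add, Nat.add_sub_cancel' hle]
  have h4 : ∀ T ∈ univ.filter (fun T : Finset κ => v ≤ (Q ∩ T).card),
      ((((univ.filter fun T' : Finset κ => (Q ∩ T').card = (Q ∩ T).card).image
        fun T' => (T, T')).card : ℕ) : ℝ) ≤ b * 2 ^ Fintype.card κ := by
    intro T hT
    rw [mem_filter] at hT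
    have e1 : ((univ.filter fun T' : Finset κ => (Q ∩ T').card = (Q ∩ T).card).card : ℝ) ≤
        b * 2 ^ Fintype.card κ := by
      rw [uniq_card_eq]
      push_cast
      rw [← hpow, ← mul_assoc]
      exact mul_le_mul_of_nonneg_right (h2 _ hT.2) (by positivity)
    refine le_trans ?_ e1
    exact_mod_cast card_image_le
  have h5 : ((univ.filter fun T : Finset κ => v ≤ (Q ∩ T).card).card : ℝ) ≤
      a * 2 ^ Fintype.card κ := by
    rw [uniq_card_ge]
    push_cast
    rw [← hpow, ← mul_assoc]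
    exact mul_le_mul_of_nonneg_right h1 (by positivity)
  rw [h3]
  refine (Nat.cast_le.2 card_biUnion_le).trans ?_
  push_cast
  refine (sum_le_sum h4).trans ?_
  rw [sum_const, nsmul_eq_mul]
  calc _ ≤ (a * 2 ^ Fintype.card κ) * (b * 2 ^ Fintype.card κ) :=
        mul_le_mul_of_nonneg_right h5 (by positivity)
    _ = _ := by ring

end sets

/-- the set of columns depends on the rows of `W` only -/
theorem uniq_QQ {ι κ : Type} [Fintype ι] [DecidableEq ι] [Fintype κ] [DecidableEq κ]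
    {f f₀ : ι → Finset κ} {W : Finset ι} (D : Finset κ) (h : ∀ i ∈ W, f i = f₀ i) :
    QQ f W D = QQ f₀ W D := by
  ext y
  simp only [QQ, mem_filter, mem_univ, true_and]
  refine and_congr_right fun _ => forall_congr' fun w => ?_
  constructor
  · intro h1 hw
    rw [← h w hw]
    exact h1 hw
  · intro h1 hw
    rw [h w hw]
    exact h1 hw

/-- The count with the rows of `W`, the columns `D`, the candidates `R` and the set `Z` fixed. -/
theorem uniq_fixed (hC : CollLemma) (hM : ManyLemma) {n : ℕ} {ι κ : Type} [Fintype ι] [Fintype κ]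
    [DecidableEq ι] [DecidableEq κ] (hn : Fintype.card ι ≤ n) (v k F I z : ℕ) (t δ : ℝ)
    (f₀ : ι → Finset κ) (W : Finset ι) (D : Finset κ) (R : Finset ι) (Z : Finset κ)
    (hW : W.card ≤ I) (hZ : Z.card ≤ z) (ht : 0 ≤ t)
    (h1 : t * 2 ^ (QQ f₀ W D).card ≤
      ∑ j ∈ Icc v (QQ f₀ W D).card, ((QQ f₀ W D).card.choose j : ℝ))
    (h2 : ∑ j ∈ Icc v (QQ f₀ W D).card, ((QQ f₀ W D).card.choose j : ℝ) ≤
      2 * t * 2 ^ (QQ f₀ W D).card)
    (b : ℝ) (hb : 0 ≤ b)
    (h3 : ∀ j, v ≤ j → ((QQ f₀ W D).card.choose j : ℝ) ≤ b * 2 ^ (QQ f₀ W D).card)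
    (hR : δ ≤ R.card) :
    (cnt (fun f : ι → Finset κ => (∀ i ∈ W, f i = f₀ i) ∧ ¬ UniqAt f F W D R Z) : ℝ) ≤
      (Real.exp ((3 * k + F : ℕ) - t / 2 ^ z / 2 * (δ - I)) + ((n : ℝ) ^ 2 * (2 * t * b)) ^ k) *
        (2 ^ Fintype.card κ) ^ (Fintype.card ι - W.card) := by
  classical
  set Q := QQ f₀ W D with hQ
  have hle : Q.card ≤ Fintype.card κ := card_le_univ Q
  have hpow : (2 : ℝ) ^ Q.card * 2 ^ (Fintype.card κ - Q.card) = 2 ^ Fintype.card κ := by
    rw [← pow_add, Nat.add_sub_cancel' hle]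
  have hcard : (Fintype.card (Finset κ) : ℝ) = 2 ^ Fintype.card κ := by
    rw [Fintype.card_finset]
    push_cast
    rfl
  set M : Finset (Finset κ) := univ.filter fun T : Finset κ => Z ⊆ T ∧ v ≤ (Q ∩ T).card with hMd
  have hq : t / 2 ^ z * (Fintype.card (Finset κ) : ℝ) ≤ M.card := by
    have e1 := uniq_card_M Q Z v
    have e2 : ((univ.filter fun T : Finset κ => v ≤ (Q ∩ T).card).card : ℝ) ≤
        M.card * 2 ^ Z.card := by exact_mod_cast e1
    rw [uniq_card_ge] at e2
    push_cast at e2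
    have e3 : t * 2 ^ Fintype.card κ ≤ M.card * 2 ^ Z.card := by
      refine le_trans ?_ e2
      rw [← hpow, ← mul_assoc]
      exact mul_le_mul_of_nonneg_right h1 (by positivity)
    have e4 : (2 : ℝ) ^ Z.card ≤ 2 ^ z := pow_le_pow_right₀ (by norm_num) hZ
    rw [hcard, div_mul_eq_mul_div, div_le_iff₀ (by positivity)]
    exact e3.trans (mul_le_mul_of_nonneg_left e4 (Nat.cast_nonneg _))
  have hq0 : 0 ≤ t / 2 ^ z := by positivity
  -- the collided rows
  set Cl : (ι → Finset κ) → Finset ι := fun f => univ.filter fun b : ι => b ∉ W ∧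
    v ≤ (Q ∩ f b).card ∧ ∃ b' ∉ W, b' ≠ b ∧ (Q ∩ f b').card = (Q ∩ f b).card with hCl
  have hm : (cnt (fun f : ι → Finset κ => (∀ i ∈ W, f i = f₀ i) ∧
      ((R \ W).filter fun b => f b ∈ M).card < 3 * k + F) : ℝ) ≤
      Real.exp ((3 * k + F : ℕ) - t / 2 ^ z / 2 * (R \ W).card) *
      (2 ^ Fintype.card κ) ^ (Fintype.card ι - W.card) := by
    have := hM ι (Finset κ) M (3 * k + F) (t / 2 ^ z) hq0 hq W (R \ W) f₀ sdiff_disjoint
    rw [hcard] at this
    refine cnt_le_of this fun f => and_congr_right fun _ => ?_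
    rw [card_filter_inst (R \ W) (fun b => f b ∈ M)]
  have hρ := uniq_pairs Q v (2 * t) b hb h2 h3
  have hc : (cnt (fun f : ι → Finset κ => (∀ i ∈ W, f i = f₀ i) ∧ 3 * k ≤ (Cl f).card) : ℝ) ≤
      ((Fintype.card ι : ℝ) ^ 2 * (2 * t * b)) ^ k *
      (2 ^ Fintype.card κ) ^ (Fintype.card ι - W.card) := by
    have := hC ι (Finset κ) (fun T => (Q ∩ T).card) v k (2 * t * b) (by positivity)
      (by
        rw [hcard]
        rw [card_filter_inst univ (fun p : Finset κ × Finset κ => v ≤ (Q ∩ p.1).card ∧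
          (Q ∩ p.1).card = (Q ∩ p.2).card)]
        exact hρ) W f₀
    rw [hcard] at this
    refine cnt_le_of this fun f => and_congr_right fun _ => ?_
    rw [card_filter_inst univ (fun b : ι => b ∉ W ∧
      v ≤ (Q ∩ f b).card ∧ ∃ b' ∉ W, b' ≠ b ∧ (Q ∩ f b').card = (Q ∩ f b).card)]
  have hRW : δ - I ≤ (R \ W).card := by
    have e1 : R.card ≤ (R \ W).card + W.card := by
      have := Finset.card_le_card_sdiff_add_card (s := R) (t := W)
      omega
    have e2 : (R.card : ℝ) ≤ (R \ W).card + W.card := by exact_mod_cast e1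
    have e3 : (W.card : ℝ) ≤ I := by exact_mod_cast hW
    linarith
  have hfin : (cnt (fun f : ι → Finset κ => (∀ i ∈ W, f i = f₀ i) ∧ ¬ UniqAt f F W D R Z) : ℝ) ≤
      cnt (fun f : ι → Finset κ => (∀ i ∈ W, f i = f₀ i) ∧
        ((R \ W).filter fun b => f b ∈ M).card < 3 * k + F) +
      cnt (fun f : ι → Finset κ => (∀ i ∈ W, f i = f₀ i) ∧ 3 * k ≤ (Cl f).card) := by
    refine cnt_or fun f hf => ?_
    obtain ⟨hfW, hbad⟩ := hf
    by_contra hcon
    push Not at hcon
    have c1 := hcon.1 hfW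
    have c2 := hcon.2 hfW
    have hQf : QQ f W D = Q := uniq_QQ D hfW
    apply hbad
    set G := (R \ W).filter fun b => f b ∈ M with hG
    have e1 : F ≤ (G \ Cl f).card := by
      have := Finset.card_le_card_sdiff_add_card (s := G) (t := Cl f)
      omega
    obtain ⟨S, hS, hSF⟩ := Finset.exists_subset_card_eq e1
    refine ⟨S, ?_, hSF, ?_, ?_⟩
    · intro b hb
      have := (mem_filter.1 (mem_sdiff.1 (hS hb)).1).1
      exact this
    · intro b hb
      have e2 := (mem_filter.1 (mem_sdiff.1 (hS hb)).1).2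
      rw [hMd, mem_filter] at e2
      exact e2.2.1
    · intro b hb b' hb' hne heq
      have e2 := mem_sdiff.1 (hS hb)
      have e3 := (mem_filter.1 e2.1)
      rw [hMd, mem_filter] at e3
      apply e2.2
      rw [hCl, mem_filter]
      rw [hQf] at heq
      exact ⟨mem_univ _, (mem_sdiff.1 e3.1).2, e3.2.2.2, b', hb', hne, heq⟩
  refine hfin.trans ?_
  rw [add_mul]
  refine add_le_add (hm.trans ?_) (hc.trans ?_)
  · refine mul_le_mul_of_nonneg_right (Real.exp_le_exp.2 ?_) (by positivity)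
    have : t / 2 ^ z / 2 * (δ - I) ≤ t / 2 ^ z / 2 * (R \ W).card :=
      mul_le_mul_of_nonneg_left hRW (by positivity)
    linarith
  · refine mul_le_mul_of_nonneg_right (pow_le_pow_left₀ (by positivity) ?_ k) (by positivity)
    refine mul_le_mul_of_nonneg_right ?_ (by positivity)
    have : (Fintype.card ι : ℝ) ≤ n := by exact_mod_cast hn
    exact pow_le_pow_left₀ (Nat.cast_nonneg _) this 2

open Classical in
/-- the small subsets of a type -/
theorem uniq_small {α : Type} [Fintype α] {n : ℕ} (h : Fintype.card α ≤ n) (K : ℕ) :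
    (((univ : Finset α).powerset.filter fun S => S.card ≤ K).card : ℝ) ≤ ((n : ℝ) + 1) ^ K := by
  have h1 := Pool.MP5bc52d.AA.card_small_subsets (univ : Finset α) K
  have h2 : (((univ : Finset α).powerset.filter fun S => S.card ≤ K).card : ℝ) ≤
      ((Fintype.card α : ℝ) + 1) ^ K := by
    rw [card_univ] at h1
    exact_mod_cast h1
  refine h2.trans (pow_le_pow_left₀ (by positivity) ?_ K)
  have : (Fintype.card α : ℝ) ≤ n := by exact_mod_cast h
  linarith

/-- the union bound -/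
theorem uniq_union {n : ℕ} {ι κ : Type} [Fintype ι] [Fintype κ]
    [DecidableEq ι] [DecidableEq κ] (hι : Fintype.card ι ≤ n) (hκ : Fintype.card κ ≤ n)
    (I T z F : ℕ) (q η : ℝ) (hη : 0 ≤ η) (FR : Finset (Finset ι)) (hFR : FR.card ≤ n + 2)
    (H : ∀ (W : Finset ι) (D : Finset κ), ∀ R ∈ FR, ∀ (Z : Finset κ) (f₀ : ι → Finset κ),
      W.card ≤ I → D.card ≤ T → Z.card ≤ z → Z ⊆ QQ f₀ W D → q ≤ (QQ f₀ W D).card →
      (cnt (fun f : ι → Finset κ => (∀ i ∈ W, f i = f₀ i) ∧ ¬ UniqAt f F W D R Z) : ℝ) ≤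
        η * (2 ^ Fintype.card κ) ^ (Fintype.card ι - W.card)) :
    (cnt (fun f : ι → Finset κ => ¬ ∀ (W : Finset ι) (D : Finset κ), W.card ≤ I →
        D.card ≤ T → q ≤ (QQ f W D).card → ∀ R ∈ FR, ∀ Z ⊆ QQ f W D,
          Z.card ≤ z → UniqAt f F W D R Z) : ℝ) ≤
      ((n : ℝ) + 1) ^ I * (((n : ℝ) + 1) ^ T * (((n : ℝ) + 2) * (((n : ℝ) + 1) ^ z *
        (η * (2 ^ Fintype.card κ) ^ Fintype.card ι)))) := by
  classical
  have hcard : (Fintype.card (Finset κ) : ℝ) = 2 ^ Fintype.card κ := by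
    rw [Fintype.card_finset]
    push_cast
    rfl
  have hFR' : (FR.card : ℝ) ≤ (n : ℝ) + 2 := by exact_mod_cast hFR
  refine cnt_exists ((univ : Finset ι).powerset.filter fun S => S.card ≤ I)
    (fun W f => ∃ D ∈ (univ : Finset κ).powerset.filter fun S => S.card ≤ T,
      ∃ R ∈ FR, ∃ Z ∈ (univ : Finset κ).powerset.filter fun S => S.card ≤ z,
        (Z ⊆ QQ f W D ∧ q ≤ (QQ f W D).card) ∧ ¬ UniqAt f F W D R Z)
    (uniq_small hι I) (by positivity) ?_ fun W hW => ?_
  · intro f hf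
    push Not at hf
    obtain ⟨W, D, hW, hD, hq, R, hR, Z, hZQ, hZ, hbad⟩ := hf
    exact ⟨W, mem_filter.2 ⟨mem_powerset.2 (subset_univ _), hW⟩, D,
      mem_filter.2 ⟨mem_powerset.2 (subset_univ _), hD⟩, R, hR, Z,
      mem_filter.2 ⟨mem_powerset.2 (subset_univ _), hZ⟩, ⟨hZQ, hq⟩, hbad⟩
  refine cnt_exists _ (fun D f => ∃ R ∈ FR, ∃ Z ∈ (univ : Finset κ).powerset.filter
    fun S => S.card ≤ z, (Z ⊆ QQ f W D ∧ q ≤ (QQ f W D).card) ∧ ¬ UniqAt f F W D R Z)
    (uniq_small hκ T) (by positivity) (fun f hf => hf) fun D hD => ?_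
  refine cnt_exists _ (fun R f => ∃ Z ∈ (univ : Finset κ).powerset.filter
    fun S => S.card ≤ z, (Z ⊆ QQ f W D ∧ q ≤ (QQ f W D).card) ∧ ¬ UniqAt f F W D R Z)
    hFR' (by positivity) (fun f hf => hf) fun R hR => ?_
  refine cnt_exists _ (fun Z f => (Z ⊆ QQ f W D ∧ q ≤ (QQ f W D).card) ∧ ¬ UniqAt f F W D R Z)
    (uniq_small hκ z) (by positivity) (fun f hf => hf) fun Z hZ => ?_
  have hW' := (mem_filter.1 hW).2
  have hD' := (mem_filter.1 hD).2
  have hZ' := (mem_filter.1 hZ).2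
  have h2 := cnt_fiber W (fun f : ι → Finset κ => (Z ⊆ QQ f W D ∧ q ≤ (QQ f W D).card) ∧
      ¬ UniqAt f F W D R Z) (η * (2 ^ Fintype.card κ) ^ (Fintype.card ι - W.card))
      (by positivity) ?_
  · refine h2.trans (le_of_eq ?_)
    have hle : W.card ≤ Fintype.card ι := card_le_univ W
    rw [hcard, mul_left_comm, ← pow_add, Nat.add_sub_cancel' hle]
  · intro f₀
    by_cases hf : Z ⊆ QQ f₀ W D ∧ q ≤ (QQ f₀ W D).card
    · exact (cnt_mono fun f hf => ⟨hf.1, hf.2.2⟩).trans (H W D R hR Z f₀ hW' hD' hZ' hf.1 hf.2)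
    · rw [cnt_zero]
      · simp only [Nat.cast_zero]
        positivity
      · rintro f ⟨h4, h5, -⟩
        rw [uniq_QQ D h4] at h5
        exact hf h5

end Pool.Agent.Lib.MP_5bc52d_co.TA
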