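import Mathlib
import Pool.Agent.Lib.MP_5bc52d_co.TA.Uniq
import Pool.Agent.Lib.MP_5bc52d_co.TA.Num

/-!
# Almost all bipartite graphs have rows with unique numbers of neighbours
-/

namespace Pool.Agent.Lib.MP_5bc52d_co.TA

open Finset

theorem uniq_of (hQ : QuantLemma) (hC : CollLemma) (hM : ManyLemma) : UniqBound := by
  intro δ ε I F hδ hε
  obtain ⟨N1, hN1⟩ := hQ δ hδ
  obtain ⟨N2, hN2⟩ := num_final δ ε I F hδ hε
  refine ⟨max N1 N2, ?_⟩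
  intro n hn ι κ _ _ _ _ hι hκ FR hFR hFRδ
  have hn1 : N1 ≤ n := (le_max_left _ _).trans hn
  have hn2 : N2 ≤ n := (le_max_right _ _).trans hn
  set t : ℝ := (n : ℝ) ^ (-(9 / 10) : ℝ) with ht
  set b : ℝ := (n : ℝ) ^ (-(5 / 4) : ℝ) with hb
  have ht0 : 0 ≤ t := Real.rpow_nonneg (Nat.cast_nonneg _) _
  have hb0 : 0 ≤ b := Real.rpow_nonneg (Nat.cast_nonneg _) _
  set η : ℝ := Real.exp ((3 * (40 * Nat.log 2 n) + F : ℕ) - t /
          2 ^ (Nat.log 2 n / 20) / 2 * (δ * n - I)) +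
        ((n : ℝ) ^ 2 * (2 * t * b)) ^ (40 * Nat.log 2 n) with hη
  have hη0 : 0 ≤ η := by positivity
  have h1 := uniq_union hι hκ I (3 * Nat.log 2 n) (Nat.log 2 n / 20) F (δ * n) η hη0 FR hFR ?_
  · rw [cnt_eq]
    refine h1.trans ?_
    have h2 := hN2 n hn2
    rw [← ht, ← hb, ← hη] at h2
    calc _ = (((n : ℝ) + 1) ^ I * (((n : ℝ) + 1) ^ (3 * Nat.log 2 n) * (((n : ℝ) + 2) *
      (((n : ℝ) + 1) ^ (Nat.log 2 n / 20) * η)))) * (2 ^ Fintype.card κ) ^ Fintype.card ι := by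
          ring
      _ ≤ _ := mul_le_mul_of_nonneg_right h2 (by positivity)
  · intro W D R hR Z f₀ hW _ hZ _ hq
    have hr : (QQ f₀ W D).card ≤ n := (card_le_univ _).trans hκ
    obtain ⟨v, hv1, hv2, hv3⟩ := hN1 n hn1 (QQ f₀ W D).card hq hr
    exact uniq_fixed hC hM hι v (40 * Nat.log 2 n) F I (Nat.log 2 n / 20) t (δ * n) f₀ W D R Z
      hW hZ ht0 hv1 hv2 b hb0 hv3 (hFRδ R hR)

end Pool.Agent.Lib.MP_5bc52d_co.TA
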