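import Mathlib
import Pool.Agent.Lib.MP_5bc52d_co.TA.Det
import Pool.Agent.Lib.MP_5bc52d_co.TA.Case1
import Pool.Agent.Lib.MP_5bc52d_co.TA.Case2
import Pool.Agent.Lib.MP_5bc52d_co.TA.CertB
import Pool.Agent.Lib.MP_5bc52d_co.TA.Quant
import Pool.Agent.Lib.MP_5bc52d_co.TA.Coll
import Pool.Agent.Lib.MP_5bc52d_co.TA.Many
import Pool.Agent.Lib.MP_5bc52d_co.TA.UniqOf
import Pool.Agent.Lib.MP_5bc52d_co.TA.Pair
import Pool.Agent.Lib.MP_5bc52d_co.TA.Rect
import Pool.Agent.Lib.MP_5bc52d_co.TA.TypOf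

/-!
# Typical posets are irreducible for all labels: the two main inputs of the count
-/

namespace Pool.Agent.Lib.MP_5bc52d_co.TA

open Pool.Agent.Lib.MP_5bc52d_co.Cut

/-- Almost all pairs of bipartite graphs are typical. -/
theorem typ_bound : TypBound :=
  typ_of pair rect com (uniq_of quant coll many)

/-- A typical poset with an empty corner is irreducible. -/
theorem case1_all {Q : Subring R} (hQ : ∀ F : R, F ∈ Q ↔ IsQS F) : Case1 hQ :=
  case1 hQ (peels hQ) (fun _ _ _ _ _ hω => one_side hω)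
    (fun _ _ _ _ _ hω _ hΦ => cover (one_side hω) hΦ)

/-- A typical poset with two nonempty corners is irreducible. -/
theorem case2_all {Q : Subring R} (hQ : ∀ F : R, F ∈ Q ↔ IsQS F) : Case2 hQ :=
  case2 hQ (fun _ _ _ _ _ hω => one_side hω) (certB hQ)

/-- Typical posets are irreducible for all labels. -/
theorem det_main {Q : Subring R} (hQ : ∀ F : R, F ∈ Q ↔ IsQS F) : Det hQ :=
  det hQ (case1_all hQ) (case2_all hQ)

end Pool.Agent.Lib.MP_5bc52d_co.TA
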