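import Pool.Agent.Lib.MP_5bc52d_co.TA.Graph
import Pool.Agent.Lib.MP_5bc52d_co.AA.Degrees

/-!
# Typical posets for arbitrary labellings: assembly of the graph statements
-/

namespace Pool.Agent.Lib.MP_5bc52d_co.TA

open Finset

section transfer
open Classical
variable {V : Type}

/-- the properties of a graph given by rows -/
def GoodF {ι κ : Type} [Fintype ι] [Fintype κ] [DecidableEq ι] [DecidableEq κ] (f : ι → Finset κ)
    (FR : Finset (Finset ι)) (I T z K F : ℕ) : Prop :=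
  (∀ (W : Finset ι) (D : Finset κ), W.card ≤ I → D.card ≤ T →
    (∀ b ∉ W, ∀ b' ∉ W, ∃ y ∈ QQ f W D, y ∈ f b ∧ y ∈ f b') ∧
    (∀ b ∉ W, ∀ b' ∉ W, ∀ b'' ∉ W, b ≠ b' →
      (QQ f W D ∩ f b'').card ≤ (QQ f W D ∩ (f b ∪ f b')).card) ∧
    ∀ R ∈ FR, ∀ Z ⊆ QQ f W D, Z.card ≤ z → UniqAt f F W D R Z) ∧
  (∀ (S : Finset ι) (D : Finset κ), T < S.card → T < D.card → ∃ b ∈ S, ∃ y ∈ D, y ∈ f b) ∧
  (∀ S : Finset ι, S.card ≤ K → ∃ y, ∀ b ∈ S, y ∈ f b)

theorem card_sub_eq {Y : Finset V} {S : Finset {y // y ∈ Y}} {T : Finset V}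
    (h : ∀ y : {y // y ∈ Y}, y ∈ S ↔ (y : V) ∈ T) (hT : T ⊆ Y) : S.card = T.card := by
  rw [← card_map (Function.Embedding.subtype fun y => y ∈ Y) (s := S)]
  congr 1
  ext y
  rw [mem_map]
  constructor
  · rintro ⟨x, hx, rfl⟩
    exact (h x).1 hx
  · intro hy
    exact ⟨⟨y, hT hy⟩, (h ⟨y, hT hy⟩).2 hy, rfl⟩

theorem card_sub_le {Y : Finset V} (D : Finset V) :
    (D.subtype fun y => y ∈ Y).card ≤ D.card := by
  rw [card_subtype]
  exact card_filter_le _ _

theorem card_sub_of {Y D : Finset V} (h : D ⊆ Y) :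
    (D.subtype fun y => y ∈ Y).card = D.card :=
  card_sub_eq (fun _ => mem_subtype) h

theorem bipOn_of {adj : V → V → Prop} {X Y : Finset V} {FR : Finset V → Prop}
    {I T z K F : ℕ} {f : {x // x ∈ X} → Finset {y // y ∈ Y}}
    (hf : ∀ x y, y ∈ f x ↔ adj x y) {FR' : Finset (Finset {x // x ∈ X})}
    (hFR : ∀ R, FR R → R ⊆ X ∧ (R.subtype fun x => x ∈ X) ∈ FR')
    (h : GoodF f FR' I T z K F) : BipOn adj X Y FR I T z K F := by
  obtain ⟨h1, h2, h3⟩ := h
  have memW : ∀ (W : Finset V) (x : {x // x ∈ X}), x ∈ W.subtype (fun x => x ∈ X) ↔ (x : V) ∈ W :=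
    fun W x => mem_subtype
  have memD : ∀ (D : Finset V) (y : {y // y ∈ Y}), y ∈ D.subtype (fun y => y ∈ Y) ↔ (y : V) ∈ D :=
    fun D y => mem_subtype
  have memQ : ∀ W ⊆ X, ∀ (D : Finset V) (y : {y // y ∈ Y}),
      y ∈ QQ f (W.subtype fun x => x ∈ X) (D.subtype fun y => y ∈ Y) ↔
        (y : V) ∈ QO adj Y W D := by
    intro W hW D y
    rw [QQ, QO, mem_filter, mem_filter]
    constructor
    · rintro ⟨_, h4, h5⟩
      refine ⟨y.2, fun h => h4 ((memD D y).2 h), fun w hw h => ?_⟩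
      exact h5 ⟨w, hW hw⟩ ((memW W ⟨w, hW hw⟩).2 hw) ((hf ⟨w, hW hw⟩ y).2 h)
    · rintro ⟨_, h4, h5⟩
      refine ⟨mem_univ _, fun h => h4 ((memD D y).1 h), fun w hw h => ?_⟩
      exact h5 w ((memW W w).1 hw) ((hf w y).1 h)
  have cf : ∀ W ⊆ X, ∀ (D : Finset V) (b : {x // x ∈ X}),
      (QQ f (W.subtype fun x => x ∈ X) (D.subtype fun y => y ∈ Y) ∩ f b).card =
        ((QO adj Y W D).filter fun y => adj b y).card := by
    intro W hW D b
    apply card_sub_eq
    · intro y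
      rw [mem_inter, memQ W hW D y, hf, mem_filter]
    · intro y hy
      exact (mem_filter.1 (mem_filter.1 hy).1).1
  have cf2 : ∀ W ⊆ X, ∀ (D : Finset V) (b b' : {x // x ∈ X}),
      (QQ f (W.subtype fun x => x ∈ X) (D.subtype fun y => y ∈ Y) ∩ (f b ∪ f b')).card =
        ((QO adj Y W D).filter fun y => adj b y ∨ adj b' y).card := by
    intro W hW D b b'
    apply card_sub_eq
    · intro y
      rw [mem_inter, memQ W hW D y, mem_union, hf, hf, mem_filter]
    · intro y hy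
      exact (mem_filter.1 (mem_filter.1 hy).1).1
  have nW : ∀ (W : Finset V) (b : V) (hb : b ∈ X \ W),
      (⟨b, (mem_sdiff.1 hb).1⟩ : {x // x ∈ X}) ∉ W.subtype fun x => x ∈ X := by
    intro W b hb h
    exact (mem_sdiff.1 hb).2 ((memW W _).1 h)
  refine ⟨?_, ?_, ?_, ?_, ?_⟩
  · intro W hW D hWI hDT b hb b' hb'
    obtain ⟨h4, -, -⟩ := h1 (W.subtype fun x => x ∈ X) (D.subtype fun y => y ∈ Y)
      ((card_sub_le W).trans hWI) ((card_sub_le D).trans hDT)
    obtain ⟨y, hy, hy1, hy2⟩ := h4 _ (nW W b hb) _ (nW W b' hb')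
    exact ⟨y, (memQ W hW D y).1 hy, (hf _ y).1 hy1, (hf _ y).1 hy2⟩
  · intro W hW D hWI hDT b hb b' hb' b'' hb'' hne
    obtain ⟨-, h4, -⟩ := h1 (W.subtype fun x => x ∈ X) (D.subtype fun y => y ∈ Y)
      ((card_sub_le W).trans hWI) ((card_sub_le D).trans hDT)
    have h5 := h4 _ (nW W b hb) _ (nW W b' hb') _ (nW W b'' hb'')
      (fun h => hne (congrArg Subtype.val h))
    rw [cf W hW D, cf2 W hW D] at h5
    exact h5
  · intro S hS D hD hTS hTD
    obtain ⟨b, hb, y, hy, hby⟩ := h2 (S.subtype fun x => x ∈ X) (D.subtype fun y => y ∈ Y)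
      (by rwa [card_sub_of hS]) (by rwa [card_sub_of hD])
    exact ⟨b, (memW S b).1 hb, y, (memD D y).1 hy, (hf b y).1 hby⟩
  · intro S hS hSK
    obtain ⟨y, hy⟩ := h3 (S.subtype fun x => x ∈ X) ((card_sub_le S).trans hSK)
    refine ⟨y, y.2, fun b hb => ?_⟩
    exact (hf ⟨b, hS hb⟩ y).1 (hy ⟨b, hS hb⟩ ((memW S ⟨b, hS hb⟩).2 hb))
  · intro W hW D hWI hDT R hR Z hZ hZz
    obtain ⟨-, -, h4⟩ := h1 (W.subtype fun x => x ∈ X) (D.subtype fun y => y ∈ Y)
      ((card_sub_le W).trans hWI) ((card_sub_le D).trans hDT)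
    obtain ⟨hRX, hR'⟩ := hFR R hR
    have hZ' : (Z.subtype fun y => y ∈ Y) ⊆
        QQ f (W.subtype fun x => x ∈ X) (D.subtype fun y => y ∈ Y) := by
      intro y hy
      exact (memQ W hW D y).2 (hZ ((memD Z y).1 hy))
    obtain ⟨S, hS, hSF, hSZ, hSu⟩ := h4 _ hR' _ hZ' ((card_sub_le Z).trans hZz)
    refine ⟨S.map (Function.Embedding.subtype fun x => x ∈ X), ?_, ?_, ?_, ?_⟩
    · intro b hb
      obtain ⟨x, hx, rfl⟩ := mem_map.1 hb
      have h5 := mem_sdiff.1 (hS hx)
      refine mem_sdiff.2 ⟨(memW R x).1 h5.1, fun h => h5.2 ((memW W x).2 h)⟩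
    · rw [card_map, hSF]
    · intro b hb y hy
      obtain ⟨x, hx, rfl⟩ := mem_map.1 hb
      have hyY : y ∈ Y := (mem_filter.1 (hZ hy)).1
      exact (hf x ⟨y, hyY⟩).1 (hSZ x hx ((memD Z ⟨y, hyY⟩).2 hy))
    · intro b hb b' hb' hne
      obtain ⟨x, hx, rfl⟩ := mem_map.1 hb
      have h5 := hSu x hx ⟨b', (mem_sdiff.1 hb').1⟩ (nW W b' hb')
        (fun h => hne (congrArg Subtype.val h))
      rw [cf W hW D, cf W hW D] at h5
      exact h5

end transfer

open Classical in
/-- almost all graphs have the properties -/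
theorem good_of (hp : PairBound) (hr : RectBound) (hc : ComBound) (hu : UniqBound)
    (δ ε : ℝ) (I K F : ℕ) (hδ : 0 < δ) (hε : 0 < ε) : ∃ N : ℕ, ∀ n ≥ N,
    ∀ (ι κ : Type) [Fintype ι] [Fintype κ] [DecidableEq ι] [DecidableEq κ],
      Fintype.card ι ≤ n → Fintype.card κ ≤ n → δ * n ≤ Fintype.card κ →
      ∀ FR : Finset (Finset ι), FR.card ≤ n + 2 → (∀ R ∈ FR, δ / 4 * n ≤ R.card) →
      ((univ.filter fun f : ι → Finset κ =>
        ¬ GoodF f FR I (3 * Nat.log 2 n) (Nat.log 2 n / 20) K F).card : ℝ) ≤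
        ε * (2 ^ Fintype.card κ) ^ Fintype.card ι := by
  have hε4 : 0 < ε / 4 := by positivity
  have hδ' : 0 < δ / 2 ^ (I + 3) := by positivity
  obtain ⟨N1, h1⟩ := hp δ (ε / 4) I hδ hε4
  obtain ⟨N2, h2⟩ := hr (ε / 4) hε4
  obtain ⟨N3, h3⟩ := hc δ (ε / 4) K hδ hε4
  obtain ⟨N4, h4⟩ := hu (δ / 2 ^ (I + 3)) (ε / 4) I F hδ' hε4
  refine ⟨max (max N1 N2) (max N3 N4), ?_⟩
  intro n hn ι κ _ _ _ _ hι hκ hδκ FR hFR hR
  have b1 := h1 n (le_trans (le_trans (le_max_left _ _) (le_max_left _ _)) hn) ι κ hι hκ hδκ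
  have b2 := h2 n (le_trans (le_trans (le_max_right _ _) (le_max_left _ _)) hn) ι κ hι hκ
  have b3 := h3 n (le_trans (le_trans (le_max_left _ _) (le_max_right _ _)) hn) ι κ hι hκ hδκ
  have hn0 : (0 : ℝ) ≤ n := Nat.cast_nonneg n
  have hle1 : δ / 2 ^ (I + 3) * n ≤ δ / 4 * n := by
    refine mul_le_mul_of_nonneg_right ?_ hn0
    refine div_le_div_of_nonneg_left hδ.le (by norm_num) ?_
    calc (4 : ℝ) = 2 ^ 2 := by norm_num
      _ ≤ 2 ^ (I + 3) := pow_le_pow_right₀ (by norm_num) (by omega)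
  have hle2 : δ / 2 ^ (I + 3) * n ≤ δ / 2 ^ (I + 1) * n := by
    refine mul_le_mul_of_nonneg_right ?_ hn0
    refine div_le_div_of_nonneg_left hδ.le (by positivity) ?_
    exact pow_le_pow_right₀ (by norm_num) (by omega)
  have b4 := h4 n (le_trans (le_trans (le_max_right _ _) (le_max_right _ _)) hn) ι κ hι hκ FR hFR
    (fun R hR' => hle1.trans (hR R hR'))
  have hsub : (univ.filter fun f : ι → Finset κ =>
        ¬ GoodF f FR I (3 * Nat.log 2 n) (Nat.log 2 n / 20) K F) ⊆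
      (univ.filter fun f : ι → Finset κ => ¬ ∀ (W : Finset ι) (D : Finset κ), W.card ≤ I →
        D.card ≤ 3 * Nat.log 2 n → PairAt f (δ / 2 ^ (I + 1) * n) W D) ∪
      ((univ.filter fun f : ι → Finset κ => ¬ ∀ (S : Finset ι) (D : Finset κ),
        3 * Nat.log 2 n < S.card → 3 * Nat.log 2 n < D.card → ∃ b ∈ S, ∃ y ∈ D, y ∈ f b) ∪
      ((univ.filter fun f : ι → Finset κ => ¬ ∀ S : Finset ι, S.card ≤ K →
        ∃ y, ∀ b ∈ S, y ∈ f b) ∪
      (univ.filter fun f : ι → Finset κ => ¬ ∀ (W : Finset ι) (D : Finset κ), W.card ≤ I →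
        D.card ≤ 3 * Nat.log 2 n → δ / 2 ^ (I + 3) * n ≤ (QQ f W D).card → ∀ R ∈ FR,
          ∀ Z ⊆ QQ f W D, Z.card ≤ Nat.log 2 n / 20 → UniqAt f F W D R Z))) := by
    intro f hf
    rw [mem_filter] at hf
    by_contra hcon
    simp only [mem_union, mem_filter, mem_univ, true_and, not_or, not_not] at hcon
    obtain ⟨c1, c2, c3, c4⟩ := hcon
    refine hf.2 ⟨fun W D hW hD => ?_, c2, c3⟩
    obtain ⟨d1, d2, d3⟩ := c1 W D hW hD
    exact ⟨d1, d2, fun R hR' Z hZ hz => c4 W D hW hD (hle2.trans d3) R hR' Z hZ hz⟩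
  have h5 := (card_le_card hsub).trans ((card_union_le _ _).trans (Nat.add_le_add_left
      ((card_union_le _ _).trans (Nat.add_le_add_left (card_union_le _ _) _)) _))
  have h6 : ((univ.filter fun f : ι → Finset κ =>
        ¬ GoodF f FR I (3 * Nat.log 2 n) (Nat.log 2 n / 20) K F).card : ℝ) ≤ _ :=
    Nat.cast_le.2 h5
  refine h6.trans ?_
  push_cast
  linarith

section count
open Classical

theorem card_prod_le {α β : Type} (P : Finset α) (Q : Finset β) (bad : α → β → Prop) (M : ℝ)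
    (h : ∀ a ∈ P, ((Q.filter (bad a)).card : ℝ) ≤ M) :
    (((P ×ˢ Q).filter fun E => bad E.1 E.2).card : ℝ) ≤ P.card * M := by
  have h1 : ((P ×ˢ Q).filter fun E => bad E.1 E.2).card = ∑ a ∈ P, (Q.filter (bad a)).card := by
    rw [card_filter, sum_product]
    refine sum_congr rfl fun a _ => ?_
    rw [card_filter]
  rw [h1]
  push_cast
  calc _ ≤ ∑ _a ∈ P, M := sum_le_sum h
    _ = P.card * M := by rw [sum_const, nsmul_eq_mul]

theorem card_prod_le' {α β : Type} (P : Finset α) (Q : Finset β) (bad : α → β → Prop) (M : ℝ)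
    (h : ∀ b ∈ Q, ((P.filter fun a => bad a b).card : ℝ) ≤ M) :
    (((P ×ˢ Q).filter fun E => bad E.1 E.2).card : ℝ) ≤ Q.card * M := by
  have h1 : ((P ×ˢ Q).filter fun E => bad E.1 E.2).card =
      ∑ b ∈ Q, (P.filter fun a => bad a b).card := by
    rw [card_filter, sum_product_right]
    refine sum_congr rfl fun a _ => ?_
    rw [card_filter]
  rw [h1]
  push_cast
  calc _ ≤ ∑ _b ∈ Q, M := sum_le_sum h
    _ = Q.card * M := by rw [sum_const, nsmul_eq_mul]

theorem card_filter_inj {α β : Type} [Fintype β] (P : Finset α) (g : α → β)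
    (hg : Set.InjOn g P) (p : α → Prop) (q : β → Prop) [DecidablePred p] [DecidablePred q]
    (hpq : ∀ a ∈ P, p a → q (g a)) :
    (P.filter p).card ≤ (univ.filter q).card := by
  refine card_le_card_of_injOn g ?_ ?_
  · intro a ha
    rw [mem_coe, mem_filter] at ha
    rw [mem_coe, mem_filter]
    exact ⟨mem_univ _, hpq a ha.1 ha.2⟩
  · intro a ha b hb hab
    rw [mem_coe, mem_filter] at ha hb
    exact hg (mem_coe.2 ha.1) (mem_coe.2 hb.1) hab

variable {V : Type} (A B C : Finset V)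

/-- the rows of a graph between `B` and `C` -/
noncomputable def fU (E : Finset (V × V)) (b : {x // x ∈ B}) : Finset {y // y ∈ C} :=
  univ.filter fun c => ((b : V), (c : V)) ∈ E

/-- the columns of a graph between `A` and `B` -/
noncomputable def fD (E : Finset (V × V)) (b : {x // x ∈ B}) : Finset {y // y ∈ A} :=
  univ.filter fun a => ((a : V), (b : V)) ∈ E

/-- the rows of the graph between `A ∪ C` and `B` -/
noncomputable def fM (E : Finset (V × V) × Finset (V × V)) (x : {x // x ∈ A ∪ C}) :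
    Finset {y // y ∈ B} :=
  univ.filter fun b => ((x : V), (b : V)) ∈ E.1 ∨ ((b : V), (x : V)) ∈ E.2

theorem fU_inj : Set.InjOn (fU B C) ((B ×ˢ C).powerset : Finset (Finset (V × V))) := by
  have key : ∀ E E' : Finset (V × V), E ⊆ B ×ˢ C → fU B C E = fU B C E' → E ⊆ E' := by
    intro E E' hE h p hp
    obtain ⟨b, c⟩ := p
    have h1 := mem_product.1 (hE hp)
    have h2 : (⟨c, h1.2⟩ : {y // y ∈ C}) ∈ fU B C E ⟨b, h1.1⟩ := by
      rw [fU, mem_filter]
      exact ⟨mem_univ _, hp⟩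
    rw [h, fU, mem_filter] at h2
    exact h2.2
  intro E hE E' hE' h
  rw [mem_coe, mem_powerset] at hE hE'
  exact Subset.antisymm (key E E' hE h) (key E' E hE' h.symm)

theorem fD_inj : Set.InjOn (fD A B) ((A ×ˢ B).powerset : Finset (Finset (V × V))) := by
  have key : ∀ E E' : Finset (V × V), E ⊆ A ×ˢ B → fD A B E = fD A B E' → E ⊆ E' := by
    intro E E' hE h p hp
    obtain ⟨a, b⟩ := p
    have h1 := mem_product.1 (hE hp)
    have h2 : (⟨a, h1.1⟩ : {y // y ∈ A}) ∈ fD A B E ⟨b, h1.2⟩ := by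
      rw [fD, mem_filter]
      exact ⟨mem_univ _, hp⟩
    rw [h, fD, mem_filter] at h2
    exact h2.2
  intro E hE E' hE' h
  rw [mem_coe, mem_powerset] at hE hE'
  exact Subset.antisymm (key E E' hE h) (key E' E hE' h.symm)

variable {A B C}

theorem fM_inj (hAC : Disjoint A C) : Set.InjOn (fM A B C)
    (((A ×ˢ B).powerset ×ˢ (B ×ˢ C).powerset : Finset (Finset (V × V) × Finset (V × V)))) := by
  have key : ∀ E E' : Finset (V × V) × Finset (V × V), E.1 ⊆ A ×ˢ B → E.2 ⊆ B ×ˢ C →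
      E'.1 ⊆ A ×ˢ B → E'.2 ⊆ B ×ˢ C → fM A B C E = fM A B C E' → E.1 ⊆ E'.1 ∧ E.2 ⊆ E'.2 := by
    intro E E' h1 h2 h1' h2' h
    refine ⟨?_, ?_⟩
    · rintro ⟨a, b⟩ hp
      have h3 := mem_product.1 (h1 hp)
      have h4 : (⟨b, h3.2⟩ : {y // y ∈ B}) ∈ fM A B C E ⟨a, mem_union_left _ h3.1⟩ := by
        rw [fM, mem_filter]
        exact ⟨mem_univ _, Or.inl hp⟩
      rw [h, fM, mem_filter] at h4
      rcases h4.2 with h5 | h5
      · exact h5
      · exact absurd (mem_product.1 (h2' h5)).2 (disjoint_left.1 hAC h3.1)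
    · rintro ⟨b, c⟩ hp
      have h3 := mem_product.1 (h2 hp)
      have h4 : (⟨b, h3.1⟩ : {y // y ∈ B}) ∈ fM A B C E ⟨c, mem_union_right _ h3.2⟩ := by
        rw [fM, mem_filter]
        exact ⟨mem_univ _, Or.inr hp⟩
      rw [h, fM, mem_filter] at h4
      rcases h4.2 with h5 | h5
      · exact absurd h3.2 (disjoint_left.1 hAC (mem_product.1 (h1' h5)).1)
      · exact h5
  intro E hE E' hE' h
  rw [mem_coe, mem_product, mem_powerset, mem_powerset] at hE hE'
  have h1 := key E E' hE.1 hE.2 hE'.1 hE'.2 h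
  have h2 := key E' E hE'.1 hE'.2 hE.1 hE.2 h.symm
  exact Prod.ext (Subset.antisymm h1.1 h2.1) (Subset.antisymm h1.2 h2.2)

/-- the neighbourhoods in `B` of the elements of `A` -/
noncomputable def FU (A B : Finset V) (E : Finset (V × V)) : Finset (Finset {x // x ∈ B}) :=
  A.image fun a => (B.filter fun b => (a, b) ∈ E).subtype fun x => x ∈ B

/-- the neighbourhoods in `B` of the elements of `C` -/
noncomputable def FD (B C : Finset V) (E : Finset (V × V)) : Finset (Finset {x // x ∈ B}) :=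
  C.image fun c => (B.filter fun b => (b, c) ∈ E).subtype fun x => x ∈ B

/-- the two parts of `A ∪ C` -/
noncomputable def FM (A C : Finset V) : Finset (Finset {x // x ∈ A ∪ C}) :=
  {A.subtype fun x => x ∈ A ∪ C, C.subtype fun x => x ∈ A ∪ C}

variable (A B C : Finset V) (δ : ℝ) (n I T z K F : ℕ)

/-- the rows `B` with columns `C` are bad -/
def BadU (E₁ E₂ : Finset (V × V)) : Prop :=
  (∀ R ∈ FU A B E₁, δ / 4 * n ≤ R.card) ∧ ¬ GoodF (fU B C E₂) (FU A B E₁) I T z K F

/-- the rows `B` with columns `A` are bad -/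
def BadD (E₁ E₂ : Finset (V × V)) : Prop :=
  (∀ R ∈ FD B C E₂, δ / 4 * n ≤ R.card) ∧ ¬ GoodF (fD A B E₁) (FD B C E₂) I T z K F

/-- the rows `A ∪ C` with columns `B` are bad -/
def BadM (E : Finset (V × V) × Finset (V × V)) : Prop :=
  ¬ GoodF (fM A B C E) (FM A C) I T z K F

variable {A B C δ n I T z K F}

theorem typ_core (hAB : Disjoint A B) (hBC : Disjoint B C)
    {E : Finset (V × V) × Finset (V × V)} (h₁ : E.1 ⊆ A ×ˢ B) (h₂ : E.2 ⊆ B ×ˢ C)
    (hdeg : AA.Deg (AA.ltE A B C E) A B C (δ / 4 * n))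
    (c2 : ¬ BadU A B C δ n I T z K F E.1 E.2) (c3 : ¬ BadD A B C δ n I T z K F E.1 E.2)
    (c4 : ¬ BadM A B C I T z K F E) : Typ (AA.ltE A B C E) A B C I T z K F := by
  have eU : ∀ a ∈ A, (B.filter fun b => AA.ltE A B C E a b) =
      B.filter fun b => (a, b) ∈ E.1 := by
    intro a ha
    ext b
    rw [mem_filter, mem_filter]
    exact and_congr_right fun hb => AA.ltE_ab hAB hBC E ha hb
  have eD : ∀ c ∈ C, (B.filter fun b => AA.ltE A B C E b c) =
      B.filter fun b => (b, c) ∈ E.2 := by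
    intro c hc'
    ext b
    rw [mem_filter, mem_filter]
    exact and_congr_right fun hb => AA.ltE_bc hAB E hb hc'
  have gU : GoodF (fU B C E.2) (FU A B E.1) I T z K F := by
    by_contra h
    refine c2 ⟨?_, h⟩
    intro R hR
    rw [FU, mem_image] at hR
    obtain ⟨a, ha, rfl⟩ := hR
    rw [card_sub_of (filter_subset _ _), ← eU a ha]
    exact hdeg.ab a ha
  have gD : GoodF (fD A B E.1) (FD B C E.2) I T z K F := by
    by_contra h
    refine c3 ⟨?_, h⟩
    intro R hR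
    rw [FD, mem_image] at hR
    obtain ⟨c, hc', rfl⟩ := hR
    rw [card_sub_of (filter_subset _ _), ← eD c hc']
    exact hdeg.cb c hc'
  have gM : GoodF (fM A B C E) (FM A C) I T z K F := not_not.1 c4
  refine ⟨?_, ?_, ?_⟩
  · refine bipOn_of (f := fU B C E.2) (FR' := FU A B E.1) ?_ ?_ gU
    · intro b c
      rw [fU, mem_filter, AA.ltE_bc hAB E b.2 c.2]
      exact and_iff_right (mem_univ _)
    · rintro R ⟨a, ha, rfl⟩
      refine ⟨filter_subset _ _, ?_⟩
      rw [FU, mem_image]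
      exact ⟨a, ha, by rw [eU a ha]⟩
  · refine bipOn_of (f := fD A B E.1) (FR' := FD B C E.2) ?_ ?_ gD
    · intro b a
      rw [fD, mem_filter, AA.ltE_ab hAB hBC E a.2 b.2]
      exact and_iff_right (mem_univ _)
    · rintro R ⟨c, hc', rfl⟩
      refine ⟨filter_subset _ _, ?_⟩
      rw [FD, mem_image]
      exact ⟨c, hc', by rw [eD c hc']⟩
  · refine bipOn_of (f := fM A B C E) (FR' := FM A C) ?_ ?_ gM
    · intro x b
      rw [fM, mem_filter]
      constructor
      · rintro ⟨_, h | h⟩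
        · have h3 := mem_product.1 (h₁ h)
          exact Or.inl (Or.inl ⟨h3.1, h3.2, h⟩)
        · have h3 := mem_product.1 (h₂ h)
          exact Or.inr (Or.inr (Or.inl ⟨h3.1, h3.2, h⟩))
      · rintro (h | h)
        · refine ⟨mem_univ _, Or.inl ?_⟩
          rcases h with h | h | h
          · exact h.2.2
          · exact absurd h.2.1 (disjoint_left.1 hBC b.2)
          · exact absurd h.2 (disjoint_left.1 hBC b.2)
        · refine ⟨mem_univ _, Or.inr ?_⟩
          rcases h with h | h | h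
          · exact absurd h.1 (disjoint_right.1 hAB b.2)
          · exact h.2.2
          · exact absurd h.1 (disjoint_right.1 hAB b.2)
    · rintro R (rfl | rfl)
      · exact ⟨subset_union_left, by rw [FM, mem_insert]; exact Or.inl rfl⟩
      · exact ⟨subset_union_right, by rw [FM, mem_insert, mem_singleton]; exact Or.inr rfl⟩

theorem count_core {ε : ℝ} (hε : 0 < ε) (hδ : 0 < δ)
    (h1 : ∀ (ι κ : Type) [Fintype ι] [Fintype κ] [DecidableEq ι] [DecidableEq κ],
      Fintype.card ι ≤ n → Fintype.card κ ≤ n → δ * n ≤ Fintype.card κ →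
      ∀ FR : Finset (Finset ι), FR.card ≤ n + 2 → (∀ R ∈ FR, δ / 4 * n ≤ R.card) →
      ((univ.filter fun f : ι → Finset κ => ¬ GoodF f FR I T z K F).card : ℝ) ≤
        ε * (2 ^ Fintype.card κ) ^ Fintype.card ι)
    (hAB : Disjoint A B) (hBC : Disjoint B C) (hAC : Disjoint A C)
    (cA : A.card ≤ n) (cB : B.card ≤ n) (cC : C.card ≤ n) (cAC' : A.card + C.card ≤ n)
    (hA : δ * n ≤ A.card) (hB : δ * n ≤ B.card) (hC : δ * n ≤ C.card) :
    ((((A ×ˢ B).powerset ×ˢ (B ×ˢ C).powerset).filter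
        fun E => AA.Deg (AA.ltE A B C E) A B C (δ / 4 * n) ∧
          ¬ Typ (AA.ltE A B C E) A B C I T z K F).card : ℝ) ≤
      3 * ε * (2 ^ (A.card * B.card) * 2 ^ (B.card * C.card)) := by
  have hn0 : (0 : ℝ) ≤ n := Nat.cast_nonneg n
  have ct : ∀ X : Finset V, Fintype.card {x // x ∈ X} = X.card := fun X => Fintype.card_coe X
  have cAC : (A ∪ C).card = A.card + C.card := card_union_of_disjoint hAC
  set P := (A ×ˢ B).powerset with hP
  set Q := (B ×ˢ C).powerset with hQ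
  have hPc : (P.card : ℝ) = 2 ^ (A.card * B.card) := by
    rw [hP, card_powerset, card_product]
    push_cast
    rfl
  have hQc : (Q.card : ℝ) = 2 ^ (B.card * C.card) := by
    rw [hQ, card_powerset, card_product]
    push_cast
    rfl
  have bU : (((P ×ˢ Q).filter fun E => BadU A B C δ n I T z K F E.1 E.2).card : ℝ) ≤
      ε * (2 ^ (A.card * B.card) * 2 ^ (B.card * C.card)) := by
    refine (card_prod_le P Q (BadU A B C δ n I T z K F) (ε * 2 ^ (B.card * C.card)) ?_).trans ?_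
    · intro E₁ _
      by_cases hd : ∀ R ∈ FU A B E₁, δ / 4 * n ≤ R.card
      · have h3 := h1 {x // x ∈ B} {y // y ∈ C} (by rw [ct]; exact cB)
          (by rw [ct]; exact cC) (by rw [ct]; exact hC) (FU A B E₁)
          (card_image_le.trans (cA.trans (by omega))) hd
        rw [ct, ct, ← pow_mul, mul_comm C.card B.card] at h3
        refine le_trans ?_ h3
        refine Nat.cast_le.2 (card_filter_inj Q (fU B C) (fU_inj B C) _ _ ?_)
        intro E₂ _ h
        exact h.2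
      · rw [filter_eq_empty_iff.2 (fun E₂ _ h => hd h.1), card_empty]
        push_cast
        positivity
    · rw [hPc]
      exact le_of_eq (by ring)
  have bD : (((P ×ˢ Q).filter fun E => BadD A B C δ n I T z K F E.1 E.2).card : ℝ) ≤
      ε * (2 ^ (A.card * B.card) * 2 ^ (B.card * C.card)) := by
    refine (card_prod_le' P Q (BadD A B C δ n I T z K F) (ε * 2 ^ (A.card * B.card)) ?_).trans ?_
    · intro E₂ _
      by_cases hd : ∀ R ∈ FD B C E₂, δ / 4 * n ≤ R.card
      · have h3 := h1 {x // x ∈ B} {y // y ∈ A} (by rw [ct]; exact cB)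
          (by rw [ct]; exact cA) (by rw [ct]; exact hA) (FD B C E₂)
          (card_image_le.trans (cC.trans (by omega))) hd
        rw [ct, ct, ← pow_mul] at h3
        refine le_trans ?_ h3
        refine Nat.cast_le.2 (card_filter_inj P (fD A B) (fD_inj A B) _ _ ?_)
        intro E₁ _ h
        exact h.2
      · rw [filter_eq_empty_iff.2 (fun E₁ _ h => hd h.1), card_empty]
        push_cast
        positivity
    · rw [hQc]
      exact le_of_eq (by ring)
  have bM : (((P ×ˢ Q).filter fun E => BadM A B C I T z K F E).card : ℝ) ≤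
      ε * (2 ^ (A.card * B.card) * 2 ^ (B.card * C.card)) := by
    have h3 := h1 {x // x ∈ A ∪ C} {y // y ∈ B} (by rw [ct, cAC]; exact cAC')
      (by rw [ct]; exact cB) (by rw [ct]; exact hB) (FM A C)
      (card_le_two.trans (by omega)) ?_
    · rw [ct, ct, ← pow_mul, cAC] at h3
      refine le_trans (Nat.cast_le.2 (card_filter_inj (P ×ˢ Q) (fM A B C) (fM_inj hAC) _ _
        (fun E _ h => h))) (h3.trans (le_of_eq ?_))
      rw [← pow_add]
      congr 2
      ring
    · intro R hR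
      have h4 : ∀ X : Finset V, δ * n ≤ X.card → δ / 4 * n ≤ X.card := by
        intro X hX
        have : 0 ≤ δ * n := mul_nonneg hδ.le hn0
        linarith
      rw [FM, mem_insert, mem_singleton] at hR
      rcases hR with rfl | rfl
      · rw [card_sub_of subset_union_left]
        exact h4 A hA
      · rw [card_sub_of subset_union_right]
        exact h4 C hC
  have hsub : (P ×ˢ Q).filter (fun E => AA.Deg (AA.ltE A B C E) A B C (δ / 4 * n) ∧
        ¬ Typ (AA.ltE A B C E) A B C I T z K F) ⊆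
      ((P ×ˢ Q).filter fun E => BadU A B C δ n I T z K F E.1 E.2) ∪
      (((P ×ˢ Q).filter fun E => BadD A B C δ n I T z K F E.1 E.2) ∪
      ((P ×ˢ Q).filter fun E => BadM A B C I T z K F E)) := by
    intro E hE
    rw [mem_filter] at hE
    obtain ⟨hEPQ, hdeg, hbad⟩ := hE
    by_contra hcon
    rw [mem_union, mem_union, not_or, not_or, mem_filter, mem_filter, mem_filter] at hcon
    obtain ⟨c2, c3, c4⟩ := hcon
    have h5 := hEPQ
    rw [mem_product, hP, hQ, mem_powerset, mem_powerset] at h5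
    exact hbad (typ_core hAB hBC h5.1 h5.2 hdeg (fun h => c2 ⟨hEPQ, h⟩) (fun h => c3 ⟨hEPQ, h⟩)
      (fun h => c4 ⟨hEPQ, h⟩))
  have h5 := (card_le_card hsub).trans ((card_union_le _ _).trans (Nat.add_le_add_left
      (card_union_le _ _) _))
  refine (Nat.cast_le.2 h5).trans ?_
  push_cast
  linarith

end count

open Classical in
theorem typ_of (hp : PairBound) (hr : RectBound) (hc : ComBound) (hu : UniqBound) : TypBound := by
  intro δ ε I K F hδ hε
  have hε4 : 0 < ε / 4 := by positivity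
  obtain ⟨N1, h1⟩ := good_of hp hr hc hu δ (ε / 4) I K F hδ hε4
  obtain ⟨N2, h2⟩ := AA.graph_bound δ (ε / 4) 0 0 hδ hε4
  refine ⟨max N1 N2, ?_⟩
  intro n hn A B C hAB hBC hAC hA hB hC
  have cd : ∀ X : Finset (Fin n), X.card ≤ n := fun X => by simpa using card_le_univ X
  have cAC : A.card + C.card ≤ n := by
    have h3 := cd (A.disjUnion C hAC)
    rwa [card_disjUnion] at h3
  have b0 := h2 n (le_trans (le_max_right _ _) hn) A B C hAB hBC hAC hA hB hC
  have b1 := count_core hε4 hδ (h1 n (le_trans (le_max_left _ _) hn)) hAB hBC hAC (cd A) (cd B)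
    (cd C) cAC hA hB hC
  have hsub : ((A ×ˢ B).powerset ×ˢ (B ×ˢ C).powerset).filter
        (fun E => ¬ Typ (AA.ltE A B C E) A B C I (3 * Nat.log 2 n) (Nat.log 2 n / 20) K F) ⊆
      (((A ×ˢ B).powerset ×ˢ (B ×ˢ C).powerset).filter
        fun E => ¬ (AA.Deg (AA.ltE A B C E) A B C (δ / 4 * n) ∧
          AA.Com (AA.ltE A B C E) B C 0 0)) ∪
      (((A ×ˢ B).powerset ×ˢ (B ×ˢ C).powerset).filter
        fun E => AA.Deg (AA.ltE A B C E) A B C (δ / 4 * n) ∧
          ¬ Typ (AA.ltE A B C E) A B C I (3 * Nat.log 2 n) (Nat.log 2 n / 20) K F) := by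
    intro E hE
    rw [mem_filter] at hE
    rw [mem_union, mem_filter, mem_filter]
    by_cases hd : AA.Deg (AA.ltE A B C E) A B C (δ / 4 * n)
    · exact Or.inr ⟨hE.1, hd, hE.2⟩
    · exact Or.inl ⟨hE.1, fun h => hd h.1⟩
  have h5 := (card_le_card hsub).trans (card_union_le _ _)
  refine (Nat.cast_le.2 h5).trans ?_
  push_cast
  linarith

end Pool.Agent.Lib.MP_5bc52d_co.TA
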